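import Pool.Agent.N877.JX.Ke

/-!
# JX: the inputs of the density machine in the common classes of the levels 15, 17 and 21
-/

set_option autoImplicit false
set_option linter.all false

open scoped Classical

namespace Pool.Agent.N877.JX

open Finset Filter
open Pool.Agent.Y703.CQ (c2)
open Pool.Agent.N916.GB (eta)
open Pool.Agent.N809.PQ
open Pool.Agent.N916.PQ (f15 f15_pos f15_neg)
open Pool.Agent.N916.PQ.L21 (fO fO_pos fO_neg)
open Pool.Agent.N916.MO (G17)
open Pool.Agent.N919.BS (HG Rt17)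
open Pool.Agent.N963.JT (Sp sp_rt ec01)

/-! ### the exceptional class -/

theorem e1 : In 168 PX Sg21 (4 / 3 * eta) := iE21.lah (dvd_refl _)

theorem e2 : In 14280 (fun d => PX d ∧ Rt17 d) (fun d => Sg21 d ∧ G17 d) (4 / 3 * eta * c2) :=
  (iE21.up (by norm_num)).lah17 (by norm_num) (by norm_num) fun d h => h.1

theorem e3 : In 840 PE SX (4 / 3 * eta) := iEX.lah (by norm_num)

theorem e4 : In 14280 (fun d => PE d ∧ Rt17 d) (fun d => SX d ∧ G17 d) (4 / 3 * eta * c2) :=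
  (iEX.up (by norm_num)).lah17 (by norm_num) (by norm_num) fun d h => h.1

/-! ### general tools -/

theorem In.mono {N : ℕ} {P P' G : ℤ → Prop} {η : ℝ} (h : ∀ d, P' d → P d) (hI : In N P G η) :
    In N P' G η := fun s' k c t r s H M hM hM0 K hK =>
  hI s' k c t r s H M hM hM0 K fun a ha => ⟨(hK a ha).1, h _ (hK a ha).2⟩

theorem In.up {N N' : ℕ} {P G : ℤ → Prop} {η : ℝ} (hI : In N P G η) (hN : N ∣ N') : In N' P G η :=
  fun s' k c t r s H M hM hM0 K hK => hI s' k c t r s H M (hN.trans hM) hM0 K hK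

theorem xor_and (a b c : Prop) : (Xor' a b ∧ c) ↔ Xor' (a ∧ c) (b ∧ c) := by
  by_cases h1 : a <;> by_cases h2 : b <;> by_cases h3 : c <;> simp [h1, h2, h3, Xor']

theorem eb : 0 ≤ 4 / 3 * eta ∧ 4 / 3 * eta ≤ 1 := by
  obtain ⟨h1, h2⟩ := Pool.Agent.N916.PQ.eta01
  have h3 := Pool.Agent.N916.PQ.L21.eta_half
  constructor
  · positivity
  · linarith

section
variable {m : ℕ} (hm : 0 < m) (A : Set ℤ)
include hm

/-- level 21 in the exceptional class -/
theorem hxE : HG (fun d => PX d ∧ d % (m : ℤ) ∈ A) Sg21 (4 / 3 * eta) :=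
  in_hg (by norm_num) (by norm_num) (fun M h => spX ((by norm_num : 105 ∣ 840).trans h)) eb.1 eb.2
    (e1.up (by norm_num)) hm A

/-- the levels 17 and 21 in the exceptional class -/
theorem hxE17 : HG (fun d => (PX d ∧ Rt17 d) ∧ d % (m : ℤ) ∈ A) (fun d => Sg21 d ∧ G17 d)
    (4 / 3 * eta * c2) :=
  in_hg (by norm_num) (by norm_num) (fun M h => (spX ((by norm_num : 105 ∣ 14280).trans h)).and
    (sp_rt ((by norm_num : 17 ∣ 14280).trans h))) ec.1 ec.2 e2 hm A

theorem half_eq (x : ℝ) : (x + x - x) / 2 = x / 2 := by ring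

/-- both criteria in an ordinary class -/
theorem hx_ord {P : ℤ → Prop} (hP : ∀ d, P d → f15 d = true ∧ fO d = true) (hX : InJ 840 P SX)
    (hsp : ∀ M, 105 ∣ M → Sp M P) :
    HG (fun d => P d ∧ d % (m : ℤ) ∈ A) (fun d => Sg15 d ∧ Sg21 d) (eta / 2) := by
  have h0 := Pool.Agent.N916.PQ.eta01
  have h1 := in_hg (by norm_num) (by norm_num) (fun M h => hsp M ((by norm_num : 105 ∣ 840).trans h))
    h0.1 h0.2 ((i15 fun d h => (hP d h).1).lah (by norm_num)) hm A
  have h2 := in_hg (by norm_num) (by norm_num) (fun M h => hsp M ((by norm_num : 105 ∣ 840).trans h))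
    h0.1 h0.2 ((i21 fun d h => (hP d h).2).lah (by norm_num)) hm A
  have h3 := in_hg (by norm_num) (by norm_num) (fun M h => hsp M ((by norm_num : 105 ∣ 840).trans h))
    h0.1 h0.2 (hX.lah (by norm_num)) hm A
  have h := hg_both h1 h2 h3
  rw [half_eq hm] at h
  exact h

/-- the three criteria in an ordinary class -/
theorem hx_ord17 {P : ℤ → Prop} (hP : ∀ d, P d → f15 d = true ∧ fO d = true) (hX : InJ 840 P SX)
    (hsp : ∀ M, 105 ∣ M → Sp M P) :
    HG (fun d => (P d ∧ Rt17 d) ∧ d % (m : ℤ) ∈ A) (fun d => (Sg15 d ∧ Sg21 d) ∧ G17 d)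
      (eta * c2 / 2) := by
  have h0 := ec01
  have hs : ∀ M, 14280 ∣ M → Sp M fun d => P d ∧ Rt17 d := fun M h =>
    (hsp M ((by norm_num : 105 ∣ 14280).trans h)).and (sp_rt ((by norm_num : 17 ∣ 14280).trans h))
  have h1 := in_hg (by norm_num) (by norm_num) hs h0.1 h0.2
    (((i15 fun d h => (hP d h).1).up (by norm_num)).lah17 (by norm_num)) hm A
  have h2 := in_hg (by norm_num) (by norm_num) hs h0.1 h0.2
    (((i21 fun d h => (hP d h).2).up (by norm_num)).lah17 (by norm_num)) hm A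
  have h3 := in_hg (by norm_num) (by norm_num) hs h0.1 h0.2
    ((hX.up (by norm_num)).lah17 (by norm_num)) hm A
  have h := hg_both h1 h2 (hg_congr (fun d => Iff.rfl) (fun d _ => xor_and _ _ _) h3)
  rw [half_eq hm] at h
  exact hg_congr (fun d => Iff.rfl) (fun d _ => by tauto) h

/-- both criteria in the exceptional class -/
theorem hx_exc : HG (fun d => PE d ∧ d % (m : ℤ) ∈ A) (fun d => Sg15 d ∧ Sg21 d) (eta / 2) := by
  have h0 := Pool.Agent.N916.PQ.eta01
  have h1 := in_hg (by norm_num) (by norm_num) (fun M h => spE ((by norm_num : 105 ∣ 840).trans h))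
    h0.1 h0.2 ((i15 fun d h => f15_E h).lah (by norm_num)) hm A
  have h2 := in_hg (by norm_num) (by norm_num) (fun M h => spE ((by norm_num : 105 ∣ 840).trans h))
    eb.1 eb.2 ((e1.up (by norm_num)).mono fun d h => ⟨h.1, h.2.2⟩) hm A
  have h3 := in_hg (by norm_num) (by norm_num) (fun M h => spE ((by norm_num : 105 ∣ 840).trans h))
    eb.1 eb.2 e3 hm A
  have h := hg_both h1 h2 h3
  have e : (eta + 4 / 3 * eta - 4 / 3 * eta) / 2 = eta / 2 := by ring
  rw [e] at h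
  exact h

/-- the three criteria in the exceptional class -/
theorem hx_exc17 : HG (fun d => (PE d ∧ Rt17 d) ∧ d % (m : ℤ) ∈ A)
    (fun d => (Sg15 d ∧ Sg21 d) ∧ G17 d) (eta * c2 / 2) := by
  have h0 := ec01
  have hs : ∀ M, 14280 ∣ M → Sp M fun d => PE d ∧ Rt17 d := fun M h =>
    (spE ((by norm_num : 105 ∣ 14280).trans h)).and (sp_rt ((by norm_num : 17 ∣ 14280).trans h))
  have h1 := in_hg (by norm_num) (by norm_num) hs h0.1 h0.2
    (((i15 fun d h => f15_E h).up (by norm_num)).lah17 (by norm_num)) hm A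
  have h2 := in_hg (by norm_num) (by norm_num) hs ec.1 ec.2
    (e2.mono fun d h => ⟨⟨h.1.1, h.1.2.2⟩, h.2⟩) hm A
  have h3 := in_hg (by norm_num) (by norm_num) hs ec.1 ec.2 e4 hm A
  have h := hg_both h1 h2 (hg_congr (fun d => Iff.rfl) (fun d _ => xor_and _ _ _) h3)
  have e : (eta * c2 + 4 / 3 * eta * c2 - 4 / 3 * eta * c2) / 2 = eta * c2 / 2 := by ring
  rw [e] at h
  exact hg_congr (fun d => Iff.rfl) (fun d _ => by tauto) h

/-- **the criteria coincide** -/
theorem hx_eq : HG (fun d => P1 d ∧ d % (m : ℤ) ∈ A) (fun d => Sg15 d ∧ Sg21 d) eta := by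
  have h0 := Pool.Agent.N916.PQ.eta01
  exact in_hg (by norm_num) (by norm_num) (fun M h => sp1 ((by norm_num : 105 ∣ 840).trans h))
    h0.1 h0.2 (i1.lah (by norm_num)) hm A

theorem hx_eq17 : HG (fun d => (P1 d ∧ Rt17 d) ∧ d % (m : ℤ) ∈ A)
    (fun d => (Sg15 d ∧ Sg21 d) ∧ G17 d) (eta * c2) := by
  have h0 := ec01
  exact in_hg (by norm_num) (by norm_num) (fun M h => (sp1 ((by norm_num : 105 ∣ 14280).trans h)).and
    (sp_rt ((by norm_num : 17 ∣ 14280).trans h))) h0.1 h0.2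
    ((i1.up (by norm_num)).lah17 (by norm_num)) hm A

/-- the five other common classes -/
theorem hx_ne : HG (fun d => (P2 d ∨ P3 d ∨ P4 d ∨ P5 d ∨ PE d) ∧ d % (m : ℤ) ∈ A)
    (fun d => Sg15 d ∧ Sg21 d) (eta / 2) := by
  have h2 := hx_ord hm A (fun d h => ⟨f15_2 h, fO_2 h⟩) iX2 fun M h => sp2 h
  have h3 := hx_ord hm A (fun d h => ⟨f15_3 h, fO_3 h⟩) iX3 fun M h => sp3 h
  have h4 := hx_ord hm A (fun d h => ⟨f15_4 h, fO_4 h⟩) iX4 fun M h => sp4 h
  have h5 := hx_ord hm A (fun d h => ⟨f15_5 h, fO_5 h⟩) iX5 fun M h => sp5 h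
  have hE := hx_exc hm A
  have a1 := hg_or (fun d h h' => h.1.2.2.1 h'.1.2.2.1) h5 hE
  have a2 := hg_or (fun d h h' => by
    rcases h' with h' | h'
    · exact h'.1.2.1.1 h.1.2.1.1
    · exact h'.1.2.1.1 h.1.2.1.1) h4 a1
  have a3 := hg_or (fun d h h' => by
    rcases h' with h' | h' | h' <;> exact absurd h.1.1 (by have := h'.1.1; omega)) h3 a2
  have a4 := hg_or (fun d h h' => by
    rcases h' with h' | h' | h' | h'
    · exact h.1.2.1.1 h'.1.2.1.1
    all_goals exact absurd h.1.1 (by have := h'.1.1; omega)) h2 a3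
  exact hg_congr (fun d => by tauto) (fun d _ => Iff.rfl) a4

theorem hx_ne17 : HG (fun d => ((P2 d ∨ P3 d ∨ P4 d ∨ P5 d ∨ PE d) ∧ Rt17 d) ∧ d % (m : ℤ) ∈ A)
    (fun d => (Sg15 d ∧ Sg21 d) ∧ G17 d) (eta * c2 / 2) := by
  have h2 := hx_ord17 hm A (fun d h => ⟨f15_2 h, fO_2 h⟩) iX2 fun M h => sp2 h
  have h3 := hx_ord17 hm A (fun d h => ⟨f15_3 h, fO_3 h⟩) iX3 fun M h => sp3 h
  have h4 := hx_ord17 hm A (fun d h => ⟨f15_4 h, fO_4 h⟩) iX4 fun M h => sp4 h
  have h5 := hx_ord17 hm A (fun d h => ⟨f15_5 h, fO_5 h⟩) iX5 fun M h => sp5 h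
  have hE := hx_exc17 hm A
  have a1 := hg_or (fun d h h' => h.1.1.2.2.1 h'.1.1.2.2.1) h5 hE
  have a2 := hg_or (fun d h h' => by
    rcases h' with h' | h'
    · exact h'.1.1.2.1.1 h.1.1.2.1.1
    · exact h'.1.1.2.1.1 h.1.1.2.1.1) h4 a1
  have a3 := hg_or (fun d h h' => by
    rcases h' with h' | h' | h' <;> exact absurd h.1.1.1 (by have := h'.1.1.1; omega)) h3 a2
  have a4 := hg_or (fun d h h' => by
    rcases h' with h' | h' | h' | h'
    · exact h.1.1.2.1.1 h'.1.1.2.1.1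
    all_goals exact absurd h.1.1.1 (by have := h'.1.1.1; omega)) h2 a3
  exact hg_congr (fun d => by tauto) (fun d _ => Iff.rfl) a4

end

end Pool.Agent.N877.JX
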