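import Pool.Agent.N916.PQ.LB2

/-!
# JX: two bordered matrices with a common row
-/

set_option autoImplicit false
set_option linter.all false

open scoped Classical

namespace Pool.Agent.N877.JX

open Finset Module
open Pool.Agent.N916.GB (Ev)
open Pool.Agent.N916.PQ (Kb Lm Lm_Ev)

theorem aa (a : ZMod 2) : a + a = 0 := by
  revert a
  decide

theorem z01 (a : ZMod 2) : a = 0 ∨ a = 1 := by
  revert a
  decide

section
variable {V : Type} [Fintype V]

/-- the common rows -/
noncomputable def Lr (N : V → V → ZMod 2) (w : V → ZMod 2) :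
    (V → ZMod 2) →ₗ[ZMod 2] (Option V → ZMod 2) where
  toFun y o := Option.elim o (∑ j, w j * y j) (fun i => ∑ j, Lm N i j * y j)
  map_add' y z := by
    funext o
    rcases o with _ | i
    · show ∑ j, w j * (y + z) j = ∑ j, w j * y j + ∑ j, w j * z j
      rw [← sum_add_distrib]
      exact sum_congr rfl fun j _ => by rw [Pi.add_apply, mul_add]
    · show ∑ j, Lm N i j * (y + z) j = ∑ j, Lm N i j * y j + ∑ j, Lm N i j * z j
      rw [← sum_add_distrib]
      exact sum_congr rfl fun j _ => by rw [Pi.add_apply, mul_add]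
  map_smul' c y := by
    funext o
    rcases o with _ | i
    · show ∑ j, w j * (c • y) j = c * ∑ j, w j * y j
      rw [mul_sum]
      exact sum_congr rfl fun j _ => by rw [Pi.smul_apply, smul_eq_mul]; ring
    · show ∑ j, Lm N i j * (c • y) j = c * ∑ j, Lm N i j * y j
      rw [mul_sum]
      exact sum_congr rfl fun j _ => by rw [Pi.smul_apply, smul_eq_mul]; ring

/-- the column -/
def cl (u : V → ZMod 2) (e : ZMod 2) (o : Option V) : ZMod 2 := Option.elim o e u

/-- the matrix with the column is good if and only if the kernel of the common rows is trivial and the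
column is not in the image -/
theorem Kb_iff (N : V → V → ZMod 2) (u w : V → ZMod 2) (e : ZMod 2) :
    Kb N u w e ↔ (∀ y, Lr N w y = 0 → ∃ β : ZMod 2, ∀ j, y j = β) ∧ cl u e ∉ LinearMap.range (Lr N w) := by
  have key : ∀ (y : V → ZMod 2) (a : ZMod 2), ((∀ i, Ev N y i + a * u i = 0) ∧
      ∑ j, w j * y j + a * e = 0) ↔ Lr N w y + a • cl u e = 0 := by
    intro y a
    constructor
    · rintro ⟨h1, h2⟩
      funext o
      rcases o with _ | i
      · exact h2
      · show ∑ j, Lm N i j * y j + a * u i = 0
        rw [Lm_Ev]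
        exact h1 i
    · intro h
      refine ⟨fun i => ?_, congrFun h none⟩
      have h1 := congrFun h (some i)
      rw [← Lm_Ev]
      exact h1
  constructor
  · intro h
    refine ⟨fun y hy => ?_, ?_⟩
    · obtain ⟨h1, h2⟩ := (key y 0).2 (by rw [hy, zero_smul, add_zero])
      exact (h y 0 h1 h2).2
    · rintro ⟨y, hy⟩
      obtain ⟨h1, h2⟩ := (key y 1).2 (by
        rw [hy, one_smul]
        funext o
        exact aa _)
      exact one_ne_zero (h y 1 h1 h2).1
  · rintro ⟨h1, h2⟩ y a h3 h4
    have h5 := (key y a).1 ⟨h3, h4⟩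
    rcases z01 a with rfl | rfl
    · rw [zero_smul, add_zero] at h5
      exact ⟨rfl, h1 y h5⟩
    · exfalso
      apply h2
      refine ⟨y, ?_⟩
      rw [one_smul] at h5
      funext o
      have h6 := congrFun h5 o
      have key2 : ∀ a b : ZMod 2, a + b = 0 → a = b := by decide
      exact key2 _ _ h6

/-- **of the three matrices none or two are good** -/
theorem Kb_xor [Nonempty V] {N : V → V → ZMod 2} {u1 u2 w wd : V → ZMod 2} {e1 e2 x0 : ZMod 2}
    (hX : (∃ i, wd i ≠ 0) ∨ x0 ≠ 0) (k1 : ∑ j, w j = 0)
    (k2 : ∀ j, ∑ i, Lm N i j * wd i + x0 * w j = 0)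
    (k3 : ∑ i, u1 i * wd i + x0 * e1 = 0) (k4 : ∑ i, u2 i * wd i + x0 * e2 = 0) :
    Kb N (fun i => u1 i + u2 i) w (e1 + e2) ↔ Xor' (Kb N u1 w e1) (Kb N u2 w e2) := by
  rw [Kb_iff, Kb_iff, Kb_iff]
  by_cases hk : ∀ y, Lr N w y = 0 → ∃ β : ZMod 2, ∀ j, y j = β
  swap
  · constructor
    · rintro ⟨h, -⟩
      exact absurd h hk
    · rintro (⟨⟨h, -⟩, -⟩ | ⟨⟨h, -⟩, -⟩) <;> exact absurd h hk
  -- the sum of the columns
  have hcl : cl (fun i => u1 i + u2 i) (e1 + e2) = cl u1 e1 + cl u2 e2 := by
    funext o
    rcases o with _ | i <;> rfl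
  rw [hcl]
  set R := LinearMap.range (Lr N w) with hR
  -- the orthogonal space
  let φ : (Option V → ZMod 2) →ₗ[ZMod 2] ZMod 2 :=
    { toFun := fun z => ∑ o, cl wd x0 o * z o
      map_add' := fun y z => by
        rw [← sum_add_distrib]
        exact sum_congr rfl fun o _ => by rw [Pi.add_apply, mul_add]
      map_smul' := fun c z => by
        show _ = c * _
        rw [mul_sum]
        exact sum_congr rfl fun o _ => by rw [Pi.smul_apply, smul_eq_mul]; ring }
  have hφ : ∀ z, φ z = ∑ o, cl wd x0 o * z o := fun z => rfl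
  have hcol : ∀ (u : V → ZMod 2) (e : ZMod 2), ∑ i, u i * wd i + x0 * e = 0 →
      cl u e ∈ LinearMap.ker φ := by
    intro u e h
    rw [LinearMap.mem_ker, hφ, Fintype.sum_option]
    show x0 * e + ∑ i, wd i * u i = 0
    rw [← h, add_comm]
    congr 1
    exact sum_congr rfl fun i _ => mul_comm _ _
  have hRφ : R ≤ LinearMap.ker φ := by
    rintro z ⟨y, rfl⟩
    rw [LinearMap.mem_ker, hφ, Fintype.sum_option]
    show x0 * ∑ j, w j * y j + ∑ i, wd i * ∑ j, Lm N i j * y j = 0
    have e1 : ∑ i, wd i * ∑ j, Lm N i j * y j = ∑ j, (∑ i, Lm N i j * wd i) * y j := by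
      simp only [mul_sum, sum_mul]
      rw [sum_comm]
      exact sum_congr rfl fun j _ => sum_congr rfl fun i _ => by ring
    have e2 : x0 * ∑ j, w j * y j = ∑ j, x0 * w j * y j := by
      rw [mul_sum]
      exact sum_congr rfl fun j _ => by ring
    rw [e1, e2, ← sum_add_distrib]
    refine sum_eq_zero fun j _ => ?_
    rw [← add_mul, add_comm, k2, zero_mul]
  -- the dimensions
  have hfk : finrank (ZMod 2) (LinearMap.ker φ) = Fintype.card V := by
    have h1 := LinearMap.finrank_range_add_finrank_ker φ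
    rw [Module.finrank_fintype_fun_eq_card, Fintype.card_option] at h1
    have h2 : LinearMap.range φ = ⊤ := by
      rw [LinearMap.range_eq_top]
      have hne : ∃ z, φ z ≠ 0 := by
        rcases hX with ⟨i, hi⟩ | h
        · refine ⟨Pi.single (some i) 1, ?_⟩
          rw [hφ, sum_eq_single (some i)]
          · rw [Pi.single_eq_same, mul_one]
            exact hi
          · intro o _ ho
            rw [Pi.single_eq_of_ne ho, mul_zero]
          · intro h
            exact absurd (mem_univ _) h
        · refine ⟨Pi.single none 1, ?_⟩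
          rw [hφ, sum_eq_single none]
          · rw [Pi.single_eq_same, mul_one]
            exact h
          · intro o _ ho
            rw [Pi.single_eq_of_ne ho, mul_zero]
          · intro h
            exact absurd (mem_univ _) h
      obtain ⟨z, hz⟩ := hne
      have hz1 : φ z = 1 := (z01 _).resolve_left hz
      intro a
      refine ⟨a • z, ?_⟩
      rw [map_smul, hz1, smul_eq_mul, mul_one]
    rw [h2, finrank_top, Module.finrank_self] at h1
    omega
  have hker : LinearMap.ker (Lr N w) = Submodule.span (ZMod 2) {fun _ : V => (1 : ZMod 2)} := by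
    apply le_antisymm
    · intro y hy
      obtain ⟨β, hβ⟩ := hk y (LinearMap.mem_ker.1 hy)
      rw [Submodule.mem_span_singleton]
      refine ⟨β, funext fun j => ?_⟩
      rw [hβ j, Pi.smul_apply, smul_eq_mul, mul_one]
    · rw [Submodule.span_singleton_le_iff_mem, LinearMap.mem_ker]
      funext o
      rcases o with _ | i
      · show ∑ j, w j * 1 = 0
        simp only [mul_one]
        exact k1
      · show ∑ j, Lm N i j * 1 = 0
        have := Lm_Ev N (fun _ => 1) i
        rw [this]
        exact Pool.Agent.N916.GB.Ev_const _ _ _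
  have hfR : finrank (ZMod 2) R + 1 = Fintype.card V := by
    have h1 := LinearMap.finrank_range_add_finrank_ker (Lr N w)
    rw [Module.finrank_fintype_fun_eq_card, hker, finrank_span_singleton] at h1
    · exact h1
    · intro h
      obtain ⟨v⟩ := (inferInstance : Nonempty V)
      exact one_ne_zero (congrFun h v)
  -- two columns outside the image
  have main : ∀ c1 c2 : Option V → ZMod 2, c1 ∈ LinearMap.ker φ → c2 ∈ LinearMap.ker φ →
      c1 ∉ R → c2 ∉ R → c1 + c2 ∈ R := by
    intro c1 c2 h1 h2 h3 h4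
    set R' := R ⊔ Submodule.span (ZMod 2) {c1} with hR'
    have h5 : R' ≤ LinearMap.ker φ := sup_le hRφ ((Submodule.span_singleton_le_iff_mem _ _).2 h1)
    have h6 : c1 ∈ R' := Submodule.mem_sup_right (Submodule.mem_span_singleton_self c1)
    have h7 : R < R' := lt_of_le_of_ne le_sup_left fun h => h3 (h ▸ h6)
    have h8 := Submodule.finrank_lt_finrank_of_lt h7
    have h9 := Submodule.finrank_mono h5
    have h10 : R' = LinearMap.ker φ := Submodule.eq_of_le_of_finrank_eq h5 (by omega)
    rw [← h10, hR', Submodule.mem_sup] at h2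
    obtain ⟨r, hr, z, hz, hrz⟩ := h2
    obtain ⟨a, rfl⟩ := Submodule.mem_span_singleton.1 hz
    rcases z01 a with rfl | rfl
    · rw [zero_smul, add_zero] at hrz
      exact absurd (hrz ▸ hr) h4
    · rw [one_smul] at hrz
      have : c1 + c2 = r := by
        rw [← hrz]
        funext o
        show c1 o + (r o + c1 o) = r o
        linear_combination aa (c1 o)
      rw [this]
      exact hr
  have g1 := hcol u1 e1 k3
  have g2 := hcol u2 e2 k4
  have kk : ∀ a b : Option V → ZMod 2, a + (a + b) = b := by
    intro a b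
    funext o
    show a o + (a o + b o) = b o
    linear_combination aa (a o)
  constructor
  · rintro ⟨-, h⟩
    by_cases h1 : cl u1 e1 ∈ R
    · refine Or.inr ⟨⟨hk, fun h2 => h (Submodule.add_mem _ h1 h2)⟩, fun h3 => h3.2 h1⟩
    · by_cases h2 : cl u2 e2 ∈ R
      · exact Or.inl ⟨⟨hk, h1⟩, fun h3 => h3.2 h2⟩
      · exact absurd (main _ _ g1 g2 h1 h2) h
  · rintro (⟨⟨-, h1⟩, h2⟩ | ⟨⟨-, h1⟩, h2⟩)
    · have h3 : cl u2 e2 ∈ R := by
        by_contra h
        exact h2 ⟨hk, h⟩
      refine ⟨hk, fun h => h1 ?_⟩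
      have := Submodule.add_mem _ h3 h
      rwa [add_comm (cl u1 e1), kk] at this
    · have h3 : cl u1 e1 ∈ R := by
        by_contra h
        exact h2 ⟨hk, h⟩
      refine ⟨hk, fun h => h1 ?_⟩
      have := Submodule.add_mem _ h3 h
      rwa [kk] at this

end

end Pool.Agent.N877.JX
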