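import Pool.Agent.N916.PQ.LB6
import Pool.Agent.N877.JX.Xor

/-!
# JX: the exceptional class, two systems which differ by a column
-/

set_option autoImplicit false
set_option linter.all false

open scoped Classical

namespace Pool.Agent.N877.JX

open Finset Module
open Pool.Agent.N916.GB (Ev)
open Pool.Agent.N916.PQ (Kb Lm Lm_Ev SF IK CE card_ker2)

section
variable {V : Type} [Fintype V]

/-- the scalar product -/
def dp (f x : V → ZMod 2) : ZMod 2 := ∑ i, f i * x i

theorem dp_add (f x y : V → ZMod 2) : dp f (x + y) = dp f x + dp f y := by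
  unfold dp
  rw [← sum_add_distrib]
  exact sum_congr rfl fun i _ => by rw [Pi.add_apply, mul_add]

theorem dp_smul (f x : V → ZMod 2) (c : ZMod 2) : dp f (fun i => c * x i) = c * dp f x := by
  unfold dp
  rw [mul_sum]
  exact sum_congr rfl fun i _ => by ring

theorem dp_zero (f : V → ZMod 2) : dp f 0 = 0 := by
  unfold dp
  exact sum_eq_zero fun i _ => mul_zero _

theorem SF_th (κ θ f : V → ZMod 2) (x : V → ZMod 2) (s a : ZMod 2) (x' : V → ZMod 2)
    (s' a' : ZMod 2) : SF κ (fun i => θ i + f i) x s a x' s' a' =
      SF κ θ x s a x' s' a' + (a * dp f x' + a' * dp f x) := by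
  unfold SF dp
  simp only [add_mul, sum_add_distrib]
  ring

theorem IK_add {N : V → V → ZMod 2} {α β : V → ZMod 2} {x x' : V → ZMod 2} {s a s' a' : ZMod 2}
    (h : IK N α β x s a) (h' : IK N α β x' s' a') : IK N α β (x + x') (s + s') (a + a') := by
  intro j
  have e1 := h j
  have e2 := h' j
  have e : ∑ i, Lm N i j * (x + x') i = ∑ i, Lm N i j * x i + ∑ i, Lm N i j * x' i := by
    rw [← sum_add_distrib]
    exact sum_congr rfl fun i _ => by rw [Pi.add_apply, mul_add]
  rw [e]
  linear_combination e1 + e2

theorem SF_symm (κ θ : V → ZMod 2) (x : V → ZMod 2) (s a : ZMod 2) (x' : V → ZMod 2)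
    (s' a' : ZMod 2) : SF κ θ x s a x' s' a' = SF κ θ x' s' a' x s a := by
  unfold SF
  have e : ∑ i, κ i * (x i * x' i) = ∑ i, κ i * (x' i * x i) :=
    sum_congr rfl fun i _ => by rw [mul_comm (x i)]
  rw [e]
  ring

theorem SF_self (κ θ : V → ZMod 2) (x : V → ZMod 2) (s a : ZMod 2) : SF κ θ x s a x s a = 0 := by
  unfold SF
  have e : ∑ i, κ i * (x i * x i) = ∑ i, κ i * x i := by
    refine sum_congr rfl fun i _ => ?_
    have key : ∀ t : ZMod 2, t * t = t := by decide
    rw [key]
  rw [e]
  generalize ∑ i, κ i * x i = A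
  generalize ∑ i, θ i * x i = B
  have key : ∀ A B s a : ZMod 2, A + a * B + a * B + (A + s + a) * (A + s + a) +
      (s + a) * (s + a) = 0 := by decide
  exact key _ _ _ _

theorem SF_add (κ θ : V → ZMod 2) (x : V → ZMod 2) (s a : ZMod 2) (x' : V → ZMod 2)
    (s' a' : ZMod 2) (x'' : V → ZMod 2) (s'' a'' : ZMod 2) :
    SF κ θ x s a (x' + x'') (s' + s'') (a' + a'') =
      SF κ θ x s a x' s' a' + SF κ θ x s a x'' s'' a'' := by
  have e1 : ∑ i, κ i * (x i * (x' + x'') i) = ∑ i, κ i * (x i * x' i) + ∑ i, κ i * (x i * x'' i) := by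
    rw [← sum_add_distrib]
    exact sum_congr rfl fun i _ => by rw [Pi.add_apply]; ring
  have e2 : ∑ i, θ i * (x' + x'') i = ∑ i, θ i * x' i + ∑ i, θ i * x'' i := by
    rw [← sum_add_distrib]
    exact sum_congr rfl fun i _ => by rw [Pi.add_apply]; ring
  have e3 : ∑ i, κ i * (x' + x'') i = ∑ i, κ i * x' i + ∑ i, κ i * x'' i := by
    rw [← sum_add_distrib]
    exact sum_congr rfl fun i _ => by rw [Pi.add_apply]; ring
  unfold SF
  rw [e1, e2, e3]
  ring

/-- the condition on the right kernel -/
def RK3 (N : V → V → ZMod 2) (α β : V → ZMod 2) : Prop :=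
  ∀ y : V → ZMod 2, (∀ i, Ev N y i = 0) → ∑ j, α j * y j = 0 → ∑ j, β j * y j = 0 →
    ∃ b : ZMod 2, ∀ j, y j = b

/-- the left kernel of the first rows has four elements -/
theorem card_L0 [Nonempty V] {N : V → V → ZMod 2} {α : V → ZMod 2} (hα : ∑ j, α j = 0)
    (hk : ∀ y, (∀ i, Ev N y i = 0) → ∑ j, α j * y j = 0 → ∃ β : ZMod 2, ∀ j, y j = β) :
    (univ.filter fun z : Option V → ZMod 2 => ∀ j, ∑ i, Lm N i j * z (some i) + z none * α j = 0).card
      = 4 := by
  have h := card_ker2 (V := Option V) (W := V) (fun o j => Option.elim o (α j) (fun i => Lm N i j))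
    (univ.filter fun y : V → ZMod 2 => ∃ b : ZMod 2, ∀ j, y j = b)
    (univ.filter fun z : Option V → ZMod 2 => ∀ j, ∑ i, Lm N i j * z (some i) + z none * α j = 0)
    (fun y => by
      rw [mem_filter]
      constructor
      · rintro ⟨-, b, hb⟩ o
        rcases o with _ | i
        · show ∑ j, α j * y j = 0
          rw [sum_congr rfl fun j _ => by rw [hb j], ← sum_mul, hα, zero_mul]
        · show ∑ j, Lm N i j * y j = 0
          rw [Lm_Ev]
          have : y = fun _ => b := funext hb
          rw [this]
          exact Pool.Agent.N916.GB.Ev_const _ _ _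
      · intro h
        refine ⟨mem_univ _, hk y (fun i => ?_) (h none)⟩
        rw [← Lm_Ev]
        exact h (some i))
    (fun z => by
      rw [mem_filter]
      have e : ∀ j, ∑ o, Option.elim o (α j) (fun i => Lm N i j) * z o =
          ∑ i, Lm N i j * z (some i) + z none * α j := by
        intro j
        rw [Fintype.sum_option]
        show α j * z none + ∑ i, Lm N i j * z (some i) = _
        ring
      constructor
      · rintro ⟨-, h⟩ j
        rw [e]
        exact h j
      · intro h
        exact ⟨mem_univ _, fun j => by rw [← e]; exact h j⟩)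
  have h2 : (univ.filter fun y : V → ZMod 2 => ∃ b : ZMod 2, ∀ j, y j = b).card = 2 := by
    have : (univ.filter fun y : V → ZMod 2 => ∃ b : ZMod 2, ∀ j, y j = b) =
        (univ : Finset (ZMod 2)).image fun b _ => b := by
      ext y
      rw [mem_filter, mem_image]
      constructor
      · rintro ⟨-, b, hb⟩
        exact ⟨b, mem_univ _, funext fun j => (hb j).symm⟩
      · rintro ⟨b, -, rfl⟩
        exact ⟨mem_univ _, b, fun _ => rfl⟩
    rw [this, card_image_of_injective]
    · rw [Finset.card_univ, ZMod.card]
    · intro b b' hb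
      obtain ⟨v⟩ := (inferInstance : Nonempty V)
      exact congrFun hb v
  rw [h2, Fintype.card_option, pow_succ] at h
  have h3 : (0 : ℝ) < 2 ^ Fintype.card V := by positivity
  have h4 : (((univ.filter fun z : Option V → ZMod 2 =>
      ∀ j, ∑ i, Lm N i j * z (some i) + z none * α j = 0).card : ℕ) : ℝ) = 4 := by
    refine mul_right_cancel₀ h3.ne' ?_
    rw [← h]
    push_cast
    ring
  exact_mod_cast h4

/-- the left kernel has eight elements -/
theorem card_L3 [Nonempty V] {N : V → V → ZMod 2} {α β : V → ZMod 2} (hα : ∑ j, α j = 0)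
    (hβ : ∑ j, β j = 0) (hk : RK3 N α β) :
    (univ.filter fun z : Option (Option V) → ZMod 2 =>
      IK N α β (fun i => z (some (some i))) (z (some none)) (z none)).card = 8 := by
  have h := card_ker2 (V := Option (Option V)) (W := V)
    (fun o j => Option.elim o (β j) (fun o => Option.elim o (α j) (fun i => Lm N i j)))
    (univ.filter fun y : V → ZMod 2 => ∃ b : ZMod 2, ∀ j, y j = b)
    (univ.filter fun z : Option (Option V) → ZMod 2 =>
      IK N α β (fun i => z (some (some i))) (z (some none)) (z none))
    (fun y => by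
      rw [mem_filter]
      constructor
      · rintro ⟨-, b, hb⟩ o
        have hy : y = fun _ => b := funext hb
        rcases o with _ | _ | i
        · show ∑ j, β j * y j = 0
          rw [sum_congr rfl fun j _ => by rw [hb j], ← sum_mul, hβ, zero_mul]
        · show ∑ j, α j * y j = 0
          rw [sum_congr rfl fun j _ => by rw [hb j], ← sum_mul, hα, zero_mul]
        · show ∑ j, Lm N i j * y j = 0
          rw [Lm_Ev, hy]
          exact Pool.Agent.N916.GB.Ev_const _ _ _
      · intro h
        refine ⟨mem_univ _, hk y (fun i => ?_) (h (some none)) (h none)⟩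
        rw [← Lm_Ev]
        exact h (some (some i)))
    (fun z => by
      rw [mem_filter]
      have e : ∀ j, ∑ o, Option.elim o (β j) (fun o => Option.elim o (α j) (fun i => Lm N i j)) * z o =
          ∑ i, Lm N i j * z (some (some i)) + z (some none) * α j + z none * β j := by
        intro j
        rw [Fintype.sum_option, Fintype.sum_option]
        show β j * z none + (α j * z (some none) + ∑ i, Lm N i j * z (some (some i))) = _
        ring
      constructor
      · rintro ⟨-, h⟩ j
        rw [e]
        exact h j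
      · intro h
        exact ⟨mem_univ _, fun j => by rw [← e]; exact h j⟩)
  have h2 : (univ.filter fun y : V → ZMod 2 => ∃ b : ZMod 2, ∀ j, y j = b).card = 2 := by
    have : (univ.filter fun y : V → ZMod 2 => ∃ b : ZMod 2, ∀ j, y j = b) =
        (univ : Finset (ZMod 2)).image fun b _ => b := by
      ext y
      rw [mem_filter, mem_image]
      constructor
      · rintro ⟨-, b, hb⟩
        exact ⟨b, mem_univ _, funext fun j => (hb j).symm⟩
      · rintro ⟨b, -, rfl⟩
        exact ⟨mem_univ _, b, fun _ => rfl⟩
    rw [this, card_image_of_injective]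
    · rw [Finset.card_univ, ZMod.card]
    · intro b b' hb
      obtain ⟨v⟩ := (inferInstance : Nonempty V)
      exact congrFun hb v
  rw [h2, Fintype.card_option, Fintype.card_option, pow_succ, pow_succ] at h
  have h3 : (0 : ℝ) < 2 ^ Fintype.card V := by positivity
  have h4 : (((univ.filter fun z : Option (Option V) → ZMod 2 =>
      IK N α β (fun i => z (some (some i))) (z (some none)) (z none)).card : ℕ) : ℝ) = 8 := by
    refine mul_right_cancel₀ h3.ne' ?_
    rw [← h]
    push_cast
    ring
  exact_mod_cast h4


/-- nondegeneracy of the form -/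
def ND (N : V → V → ZMod 2) (α β κ θ wd : V → ZMod 2) : Prop :=
  ∀ (x : V → ZMod 2) (s a : ZMod 2), IK N α β x s a →
    (∀ (x' : V → ZMod 2) (s' a' : ZMod 2), IK N α β x' s' a' → SF κ θ x s a x' s' a' = 0) →
    a = 0 ∧ ∀ i, x i = s * wd i

theorem sum_Ev (N : V → V → ZMod 2) (α β x y : V → ZMod 2) (s a : ZMod 2) (h : IK N α β x s a)
    (hy : ∀ i, Ev N y i = 0) (hα : ∑ j, α j * y j = 0) : a * ∑ j, β j * y j = 0 := by
  have h1 : ∑ j, (∑ i, Lm N i j * x i + s * α j + a * β j) * y j = 0 :=
    sum_eq_zero fun j _ => by rw [h j, zero_mul]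
  have h2 : ∑ j, (∑ i, Lm N i j * x i + s * α j + a * β j) * y j =
      ∑ i, x i * Ev N y i + s * ∑ j, α j * y j + a * ∑ j, β j * y j := by
    simp only [add_mul, sum_add_distrib]
    congr 1
    · congr 1
      · simp only [← Lm_Ev, mul_sum, sum_mul]
        rw [sum_comm]
        exact sum_congr rfl fun i _ => sum_congr rfl fun j _ => by ring
      · rw [mul_sum]
        exact sum_congr rfl fun j _ => by ring
    · rw [mul_sum]
      exact sum_congr rfl fun j _ => by ring
  rw [h2, hα, mul_zero, add_zero] at h1
  have h3 : ∑ i, x i * Ev N y i = 0 := sum_eq_zero fun i _ => by rw [hy i, mul_zero]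
  rw [h3, zero_add] at h1
  exact h1

theorem SF_zero (κ θ : V → ZMod 2) (x : V → ZMod 2) (s a : ZMod 2) : SF κ θ x s a 0 0 0 = 0 := by
  unfold SF
  have e1 : ∑ i, κ i * (x i * (0 : V → ZMod 2) i) = 0 :=
    sum_eq_zero fun i _ => by rw [Pi.zero_apply, mul_zero, mul_zero]
  have e2 : ∑ i, θ i * (0 : V → ZMod 2) i = 0 :=
    sum_eq_zero fun i _ => by rw [Pi.zero_apply, mul_zero]
  have e3 : ∑ i, κ i * (0 : V → ZMod 2) i = 0 :=
    sum_eq_zero fun i _ => by rw [Pi.zero_apply, mul_zero]
  rw [e1, e2, e3]
  ring

/-- **the exceptional class: of the three criteria none or two hold** -/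
theorem CE_xor [Nonempty V] {N : V → V → ZMod 2} {α β κ θ f wd : V → ZMod 2} (hα : ∑ j, α j = 0)
    (hβ : ∑ j, β j = 0) (hcol : ∀ j, ∑ i, Lm N i j * wd i + α j = 0) (hf : ∑ i, f i * wd i = 0)
    (hrad : ∀ (x : V → ZMod 2) (s a : ZMod 2), IK N α β x s a → SF κ θ wd 1 0 x s a = 0) :
    CE N α β κ (fun i => θ i + f i) wd ↔ Xor' (Kb N f α 0) (CE N α β κ θ wd) := by
  have hCE : ∀ θ, CE N α β κ θ wd ↔ RK3 N α β ∧ ND N α β κ θ wd := fun θ => Iff.rfl
  have hKb : Kb N f α 0 → ∀ y : V → ZMod 2, (∀ i, Ev N y i = 0) → ∑ j, α j * y j = 0 →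
      ∃ b : ZMod 2, ∀ j, y j = b := fun h y h1 h2 =>
    (h y 0 (fun i => by rw [h1 i, zero_mul, add_zero]) (by rw [h2, mul_zero, add_zero])).2
  by_cases hk3 : RK3 N α β
  swap
  · rw [hCE, hCE]
    constructor
    · rintro ⟨h, -⟩
      exact absurd h hk3
    · rintro (⟨h, -⟩ | ⟨⟨h, -⟩, -⟩)
      · exact absurd (fun y h1 h2 _ => hKb h y h1 h2) hk3
      · exact absurd h hk3
  by_cases hk2 : ∀ y : V → ZMod 2, (∀ i, Ev N y i = 0) → ∑ j, α j * y j = 0 →
      ∃ b : ZMod 2, ∀ j, y j = b
  swap
  · -- the last coordinate vanishes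
    push Not at hk2
    obtain ⟨y, h1, h2, h3⟩ := hk2
    have h4 : ∑ j, β j * y j = 1 := (z01 _).resolve_left fun h => by
      obtain ⟨b, hb⟩ := hk3 y h1 h2 h
      obtain ⟨j, hj⟩ := h3 b
      exact hj (hb j)
    have ha : ∀ (x : V → ZMod 2) (s a : ZMod 2), IK N α β x s a → a = 0 := by
      intro x s a h
      have h5 := sum_Ev N α β x y s a h h1 h2
      rwa [h4, mul_one] at h5
    have hND : ND N α β κ (fun i => θ i + f i) wd ↔ ND N α β κ θ wd := by
      unfold ND
      refine forall_congr' fun x => forall_congr' fun s => forall_congr' fun a =>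
        forall_congr' fun h => ?_
      have e : (∀ (x' : V → ZMod 2) (s' a' : ZMod 2), IK N α β x' s' a' →
          SF κ (fun i => θ i + f i) x s a x' s' a' = 0) ↔
          ∀ (x' : V → ZMod 2) (s' a' : ZMod 2), IK N α β x' s' a' →
            SF κ θ x s a x' s' a' = 0 := by
        refine forall_congr' fun x' => forall_congr' fun s' => forall_congr' fun a' =>
          forall_congr' fun h' => ?_
        rw [SF_th, ha x s a h, ha x' s' a' h', zero_mul, zero_mul, add_zero, add_zero]
      rw [e]
    rw [hCE, hCE, hND]
    constructor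
    · intro h
      refine Or.inr ⟨h, fun h' => ?_⟩
      obtain ⟨b, hb⟩ := hKb h' y h1 h2
      obtain ⟨j, hj⟩ := h3 b
      exact hj (hb j)
    · rintro (⟨h, -⟩ | ⟨h, -⟩)
      · obtain ⟨b, hb⟩ := hKb h y h1 h2
        obtain ⟨j, hj⟩ := h3 b
        exact absurd (hb j) hj
      · exact h
  -- the main case
  set L0 := univ.filter fun z : Option V → ZMod 2 =>
    ∀ j, ∑ i, Lm N i j * z (some i) + z none * α j = 0 with hL0
  have c0 : L0.card = 4 := card_L0 hα hk2
  have m0 : ∀ z, z ∈ L0 ↔ ∀ j, ∑ i, Lm N i j * z (some i) + z none * α j = 0 := fun z => by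
    rw [hL0, mem_filter]
    exact ⟨fun h => h.2, fun h => ⟨mem_univ _, h⟩⟩
  set X0 : Option V → ZMod 2 := fun o => Option.elim o 1 wd with hX0
  have mX0 : X0 ∈ L0 := (m0 _).2 fun j => by
    show ∑ i, Lm N i j * wd i + 1 * α j = 0
    rw [one_mul]
    exact hcol j
  have m00 : (0 : Option V → ZMod 2) ∈ L0 := (m0 _).2 fun j => by
    simp only [Pi.zero_apply, mul_zero, sum_const_zero, zero_mul, add_zero]
  have mad : ∀ z w, z ∈ L0 → w ∈ L0 → z + w ∈ L0 := by
    intro z w hz hw
    rw [m0] at hz hw ⊢
    intro j
    have e : ∑ i, Lm N i j * (z + w) (some i) = ∑ i, Lm N i j * z (some i) +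
        ∑ i, Lm N i j * w (some i) := by
      rw [← sum_add_distrib]
      exact sum_congr rfl fun i _ => by rw [Pi.add_apply, mul_add]
    rw [e, Pi.add_apply]
    linear_combination hz j + hw j
  have hX00 : X0 ≠ 0 := fun h => one_ne_zero (congrFun h none)
  have h1 : ∃ X1 ∈ L0, X1 ≠ 0 ∧ X1 ≠ X0 := by
    by_contra hc
    push Not at hc
    have h2 : L0 ⊆ {0, X0} := by
      intro z hz
      rw [mem_insert, mem_singleton]
      by_cases h : z = 0
      · exact Or.inl h
      · exact Or.inr (hc z hz h)
    have h3 := card_le_card h2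
    have h4 := card_le_two (a := (0 : Option V → ZMod 2)) (b := X0)
    omega
  obtain ⟨X1, mX1, h10, h1X⟩ := h1
  have aaf : ∀ z : Option V → ZMod 2, z + z = 0 := fun z => funext fun o => aa (z o)
  have eqf : ∀ z w : Option V → ZMod 2, z + w = 0 → z = w := by
    intro z w h
    calc z = z + (w + w) := by rw [aaf, add_zero]
      _ = (z + w) + w := by rw [add_assoc]
      _ = w := by rw [h, zero_add]
  have hall : ∀ z ∈ L0, z = 0 ∨ z = X0 ∨ z = X1 ∨ z = X0 + X1 := by
    have h2 : ({0, X0, X1, X0 + X1} : Finset (Option V → ZMod 2)) ⊆ L0 := by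
      intro z hz
      simp only [mem_insert, mem_singleton] at hz
      rcases hz with rfl | rfl | rfl | rfl
      · exact m00
      · exact mX0
      · exact mX1
      · exact mad _ _ mX0 mX1
    have n1 : X0 + X1 ≠ 0 := fun h => h1X (eqf _ _ h).symm
    have n2 : X0 ≠ X0 + X1 := fun h => h10 (by
      have : X0 + X0 = X0 + (X0 + X1) := congrArg (fun t => X0 + t) h
      rw [aaf, ← add_assoc, aaf, zero_add] at this
      exact this.symm)
    have n3 : X1 ≠ X0 + X1 := fun h => hX00 (by
      have : X1 + X1 = (X0 + X1) + X1 := congrArg (fun t => t + X1) h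
      rw [aaf, add_assoc, aaf, add_zero] at this
      exact this.symm)
    have h3 : ({0, X0, X1, X0 + X1} : Finset (Option V → ZMod 2)).card = 4 := by
      rw [card_insert_of_notMem, card_insert_of_notMem, card_insert_of_notMem, card_singleton]
      · rw [mem_singleton]
        exact n3
      · rw [mem_insert, mem_singleton, not_or]
        exact ⟨fun h => h1X h.symm, n2⟩
      · simp only [mem_insert, mem_singleton, not_or]
        exact ⟨hX00.symm, h10.symm, n1.symm⟩
    have h4 := eq_of_subset_of_card_le h2 (by rw [c0, h3])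
    intro z hz
    rw [← h4] at hz
    simpa only [mem_insert, mem_singleton] using hz
  set x1 : V → ZMod 2 := fun i => X1 (some i) with hx1
  set s1 : ZMod 2 := X1 none with hs1
  have k1 : IK N α β x1 s1 0 := by
    intro j
    rw [zero_mul, add_zero]
    exact (m0 _).1 mX1 j
  have k0 : IK N α β wd 1 0 := by
    intro j
    rw [one_mul, zero_mul, add_zero]
    exact hcol j
  -- the elements with the last coordinate zero
  have hz0 : ∀ (x : V → ZMod 2) (s : ZMod 2), IK N α β x s 0 → ∃ c0 c1 : ZMod 2,
      (∀ i, x i = c0 * wd i + c1 * x1 i) ∧ s = c0 + c1 * s1 := by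
    intro x s h
    have h2 : (fun o : Option V => Option.elim o s x) ∈ L0 := (m0 _).2 fun j => by
      have := h j
      rw [zero_mul, add_zero] at this
      exact this
    rcases hall _ h2 with h3 | h3 | h3 | h3
    · refine ⟨0, 0, fun i => ?_, ?_⟩
      · have := congrFun h3 (some i)
        rw [zero_mul, zero_mul, add_zero]
        exact this
      · have := congrFun h3 none
        rw [zero_mul, add_zero]
        exact this
    · refine ⟨1, 0, fun i => ?_, ?_⟩
      · have := congrFun h3 (some i)
        rw [one_mul, zero_mul, add_zero]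
        exact this
      · have := congrFun h3 none
        rw [zero_mul, add_zero]
        exact this
    · refine ⟨0, 1, fun i => ?_, ?_⟩
      · have := congrFun h3 (some i)
        rw [one_mul, zero_mul, zero_add]
        exact this
      · have := congrFun h3 none
        rw [one_mul, zero_add]
        exact this
    · refine ⟨1, 1, fun i => ?_, ?_⟩
      · have := congrFun h3 (some i)
        rw [one_mul, one_mul]
        exact this
      · have := congrFun h3 none
        rw [one_mul]
        exact this
  -- an element with the last coordinate one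
  obtain ⟨x2, s2, k2⟩ : ∃ x2 s2, IK N α β x2 s2 1 := by
    by_contra hc
    push Not at hc
    have c3 := card_L3 hα hβ hk3
    have h2 : (univ.filter fun z : Option (Option V) → ZMod 2 =>
        IK N α β (fun i => z (some (some i))) (z (some none)) (z none)).card ≤ L0.card := by
      refine card_le_card_of_injOn (fun z o => z (some o)) (fun z hz => ?_) ?_
      · rw [mem_coe, mem_filter] at hz
        rw [mem_coe, m0]
        intro j
        have h3 : z none = 0 := by
          rcases z01 (z none) with h | h
          · exact h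
          · have h4 := hz.2
            rw [h] at h4
            exact absurd h4 (hc _ _)
        have h5 := hz.2 j
        rw [h3, zero_mul, add_zero] at h5
        exact h5
      · intro z hz w hw hzw
        rw [mem_coe, mem_filter] at hz hw
        have h3 : ∀ z : Option (Option V) → ZMod 2,
            IK N α β (fun i => z (some (some i))) (z (some none)) (z none) → z none = 0 := by
          intro z hz
          rcases z01 (z none) with h | h
          · exact h
          · rw [h] at hz
            exact absurd hz (hc _ _)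
        funext o
        rcases o with _ | o
        · rw [h3 z hz.2, h3 w hw.2]
        · exact congrFun hzw o
    omega
  -- the criterion in terms of one value
  have hND : ∀ θ : V → ZMod 2, (∀ (x : V → ZMod 2) (s a : ZMod 2), IK N α β x s a →
      SF κ θ wd 1 0 x s a = 0) → (ND N α β κ θ wd ↔ SF κ θ x1 s1 0 x2 s2 1 = 1) := by
    intro θ hr
    -- the value at a combination
    have hval : ∀ (x : V → ZMod 2) (s a : ZMod 2) (c0 c1 : ZMod 2), IK N α β x s a →
        ∀ (x' : V → ZMod 2) (s' : ZMod 2), (∀ i, x' i = c0 * wd i + c1 * x1 i) →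
        s' = c0 + c1 * s1 → SF κ θ x s a x' s' 0 = c1 * SF κ θ x s a x1 s1 0 := by
      intro x s a c0 c1 h x' s' hx' hs'
      have e0 : SF κ θ x s a wd 1 0 = 0 := by
        rw [SF_symm]
        exact hr x s a h
      have ex' : x' = fun i => c0 * wd i + c1 * x1 i := funext hx'
      subst hs'
      rw [ex']
      rcases z01 c0 with rfl | rfl <;> rcases z01 c1 with rfl | rfl
      · have e : (fun i => (0 : ZMod 2) * wd i + 0 * x1 i) = (0 : V → ZMod 2) :=
          funext fun i => by rw [zero_mul, zero_mul, add_zero]; rfl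
        rw [e, zero_mul, zero_mul, add_zero]
        exact SF_zero κ θ x s a
      · have e : (fun i => (0 : ZMod 2) * wd i + 1 * x1 i) = x1 :=
          funext fun i => by rw [zero_mul, one_mul, zero_add]
        rw [e, one_mul, zero_add, one_mul]
      · have e : (fun i => (1 : ZMod 2) * wd i + 0 * x1 i) = wd :=
          funext fun i => by rw [zero_mul, one_mul, add_zero]
        rw [e, zero_mul, zero_mul, add_zero]
        exact e0
      · have e : (fun i => (1 : ZMod 2) * wd i + 1 * x1 i) = wd + x1 :=
          funext fun i => by rw [one_mul, one_mul]; rfl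
        have h6 := SF_add κ θ x s a wd 1 0 x1 s1 0
        rw [add_zero, e0, zero_add] at h6
        rw [e, one_mul, one_mul]
        exact h6
    constructor
    · intro h
      rcases z01 (SF κ θ x1 s1 0 x2 s2 1) with h2 | h2
      · exfalso
        obtain ⟨-, h3⟩ := h x1 s1 0 k1 (by
          intro x' s' a' h'
          rcases z01 a' with rfl | rfl
          · obtain ⟨c0, c1, h4, h5⟩ := hz0 x' s' h'
            rw [hval x1 s1 0 c0 c1 k1 x' s' h4 h5, SF_self, mul_zero]
          · have h6 : IK N α β (x' + x2) (s' + s2) 0 := by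
              have := IK_add h' k2
              rwa [aa] at this
            obtain ⟨c0, c1, h4, h5⟩ := hz0 _ _ h6
            have h7 := hval x1 s1 0 c0 c1 k1 _ _ h4 h5
            rw [SF_self, mul_zero] at h7
            have h8 := SF_add κ θ x1 s1 0 x' s' 1 x2 s2 1
            rw [aa (1 : ZMod 2), h7, h2, add_zero] at h8
            exact h8.symm)
        rcases z01 s1 with hs | hs
        · apply h10
          funext o
          rcases o with _ | i
          · exact hs
          · have := h3 i
            rw [hs, zero_mul] at this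
            exact this
        · apply h1X
          funext o
          rcases o with _ | i
          · exact hs
          · have := h3 i
            rw [hs, one_mul] at this
            exact this
      · exact h2
    · intro h x s a hx hr'
      have e1 := hr' x1 s1 0 k1
      have e2 := hr' x2 s2 1 k2
      have key : ∀ x' s', IK N α β x' s' 0 → SF κ θ x' s' 0 x2 s2 1 = 0 →
          ∀ i, x' i = s' * wd i := by
        intro x' s' h' h2
        obtain ⟨c0, c1, h4, h5⟩ := hz0 x' s' h'
        have h7 := hval x2 s2 1 c0 c1 k2 x' s' h4 h5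
        rw [SF_symm κ θ x2 s2 1 x1 s1 0, h, mul_one, SF_symm, h2] at h7
        intro i
        rw [h4 i, h5, ← h7, zero_mul, zero_mul, add_zero, add_zero]
      rcases z01 a with rfl | rfl
      · exact ⟨rfl, key x s hx e2⟩
      · exfalso
        have h6 : IK N α β (x + x2) (s + s2) 0 := by
          have := IK_add hx k2
          rwa [aa] at this
        obtain ⟨c0, c1, h4, h5⟩ := hz0 _ _ h6
        have h7 := hval x1 s1 0 c0 c1 k1 _ _ h4 h5
        rw [SF_self, mul_zero] at h7
        have h8 := SF_add κ θ x1 s1 0 x s 1 x2 s2 1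
        rw [aa (1 : ZMod 2), h7, h, SF_symm κ θ x1 s1 0 x s 1, e1, zero_add] at h8
        exact zero_ne_one h8
  -- the two values
  have hr' : ∀ (x : V → ZMod 2) (s a : ZMod 2), IK N α β x s a →
      SF κ (fun i => θ i + f i) wd 1 0 x s a = 0 := by
    intro x s a h
    have hf' : dp f wd = 0 := hf
    rw [SF_th, hrad x s a h, hf', zero_mul, mul_zero, add_zero, add_zero]
  have hKl : Kb N f α 0 ↔ dp f x1 = 1 := by
    rw [Pool.Agent.N916.PQ.Kb_Kl (wx := wd) (x0 := 1) hα (fun j => by rw [one_mul]; exact hcol j)
      (by rw [one_mul, add_zero]; exact hf) (Or.inr one_ne_zero)]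
    unfold Pool.Agent.N916.PQ.Kl
    constructor
    · intro h
      rcases z01 (dp f x1) with h2 | h2
      · exfalso
        obtain ⟨c, hc1, hc2⟩ := h x1 s1 (fun j => (m0 _).1 mX1 j) (by
          rw [mul_zero, add_zero]
          exact h2)
        rw [mul_one] at hc1
        rcases z01 c with rfl | rfl
        · apply h10
          funext o
          rcases o with _ | i
          · exact hc1
          · have := hc2 i
            rw [zero_mul] at this
            exact this
        · apply h1X
          funext o
          rcases o with _ | i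
          · exact hc1
          · have := hc2 i
            rw [one_mul] at this
            exact this
      · exact h2
    · intro h x s h3 h4
      obtain ⟨c0, c1, h5, h6⟩ := hz0 x s (fun j => by rw [zero_mul, add_zero]; exact h3 j)
      rw [mul_zero, add_zero] at h4
      have h7 : ∑ i, f i * x i = c0 * ∑ i, f i * wd i + c1 * dp f x1 := by
        unfold dp
        rw [mul_sum, mul_sum, ← sum_add_distrib]
        exact sum_congr rfl fun i _ => by rw [h5 i]; ring
      rw [h7, hf, h, mul_zero, mul_one, zero_add] at h4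
      refine ⟨c0, ?_, fun i => ?_⟩
      · rw [h6, h4, zero_mul, add_zero, mul_one]
      · rw [h5 i, h4, zero_mul, add_zero]
  rw [hCE, hCE, hND _ hr', hND _ hrad, hKl, SF_th, zero_mul, one_mul, zero_add]
  generalize SF κ θ x1 s1 0 x2 s2 1 = A
  generalize dp f x1 = B
  rcases z01 A with rfl | rfl <;> rcases z01 B with rfl | rfl <;>
    simp [Xor', hk3, aa]

end

end Pool.Agent.N877.JX
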