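import Pool.Agent.N877.JX.Jb2

/-!
# JX: the difference of the criteria of the levels 15 and 21 in the common classes
-/

set_option autoImplicit false
set_option linter.all false

open scoped Classical

namespace Pool.Agent.N877.JX

open Finset Filter
open Pool.Agent.Y703.CQ (nr sg)
open Pool.Agent.N973.ND (uu nr_rec nr_self)
open Pool.Agent.N916.GB (Po Vt sy Ev Gv Gd z2_add_self eta)
open Pool.Agent.N958.GB (NR ud wd z2 mem_Vt sy_ne sy_two Gd_iff)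
open Pool.Agent.N875.X15 (PR ra sgp d2 oe ch)
open Pool.Agent.N875.P17 (al ra_rec al_odd ra_neg_one)
open Pool.Agent.N809 Pool.Agent.N809.PQ
open Pool.Agent.N916.PQ
open Pool.Agent.N916.PQ.L21 (not7 hf7 hv3 G21 fO fO_pos fO_neg)
open Pool.Agent.N809.JT (J15)
open Pool.Agent.N972.JT (j_a j_b KJ KKm IsA mJ pfJ)
open Pool.Agent.N975.JT (m21 pf21)

/-- a matrix without border as a bordered matrix -/
theorem Gv_Kb {V : Type} [Fintype V] (N : V → V → ZMod 2) (w : V → ZMod 2) (hw : ∑ j, w j = 0) :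
    Gv N ↔ Kb N (fun _ => 0) w 1 := by
  constructor
  · intro h y a h1 h2
    have h3 : ∀ i j, y i = y j := fun i j => h y (fun i => by
      have := h1 i
      rwa [mul_zero, add_zero] at this) i j
    by_cases hV : Nonempty V
    · obtain ⟨v⟩ := hV
      refine ⟨?_, y v, fun j => h3 j v⟩
      have h4 : ∑ j, w j * y j = 0 := by
        rw [sum_congr rfl fun j _ => by rw [h3 j v], ← sum_mul, hw, zero_mul]
      rw [h4, zero_add, mul_one] at h2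
      exact h2
    · have hE : IsEmpty V := not_nonempty_iff.1 hV
      refine ⟨?_, 0, fun j => (hE.false j).elim⟩
      have h4 : ∑ j, w j * y j = 0 := sum_eq_zero fun j _ => (hE.false j).elim
      rw [h4, zero_add, mul_one] at h2
      exact h2
  · intro h y hy i j
    obtain ⟨-, β, hβ⟩ := h y (∑ j, w j * y j) (fun i => by
      have h1 : Ev N y i = 0 := hy i
      show Ev N y i + _ * 0 = 0
      rw [h1, mul_zero, add_zero]) (by
      rw [mul_one]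
      exact aa _)
    rw [hβ i, hβ j]

theorem isB_mono {M : ℕ} {K K' : Finset ℕ} {t : Bool} {r s : ZMod 2} {fu fw : ℕ → ZMod 2}
    {e x0 : ZMod 2} {G : Finset ℕ → Prop} (h : ∀ a ∈ K, a ∈ K')
    (hG : IsB M K' t r s fu fw e x0 G) : IsB M K t r s fu fw e x0 G :=
  fun V _ ρ S hS hK hne hρ him => hG V ρ S hS (h _ hK) hne hρ him

/-- the criterion without border, with a row of another criterion -/
theorem isA_B {M : ℕ} {K : Finset ℕ} {t : Bool} {r s : ZMod 2} {fu fw : ℕ → ZMod 2} {e : ZMod 2}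
    {G G' : Finset ℕ → Prop} (hG : IsA M K t r s G) (hG' : IsB M K t r s fu fw e 0 G') :
    IsB M K t r s (fun _ => 0) fw 1 0 G := by
  intro V _ ρ S hS hK hne hρ him
  obtain ⟨a1, a2⟩ := hG V ρ S hS hK hne hρ him
  obtain ⟨-, b2, -, -⟩ := hG' V ρ S hS hK hne hρ him
  refine ⟨a1.trans (Gv_Kb _ _ b2), b2, fun j => ?_, ?_⟩
  · rw [a2 j, zero_mul, add_zero]
  · rw [zero_mul, add_zero]
    exact sum_eq_zero fun i _ => zero_mul _

theorem isA_mono {M : ℕ} {K K' : Finset ℕ} {t : Bool} {r s : ZMod 2} {G : Finset ℕ → Prop}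
    (h : ∀ a ∈ K, a ∈ K') (hG : IsA M K' t r s G) : IsA M K t r s G :=
  fun V _ ρ S hS hK hne hρ him => hG V ρ S hS (h _ hK) hne hρ him

/-- the odd primes have weight one -/
theorem wd_ne {t : Bool} {r : ZMod 2} (V : Type) [Fintype V] (ρ : V → ℕ) (S : Finset ℕ)
    (hS : ∀ v ∈ S, Po v) (hne : S.Nonempty) (him : univ.image ρ = Vt t S) : ∃ i, wd r ρ i ≠ 0 := by
  obtain ⟨v, hv⟩ := hne
  have h1 : v ∈ Vt t S := mem_Vt.2 (Or.inr hv)
  rw [← him, mem_image] at h1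
  obtain ⟨i, -, hi⟩ := h1
  refine ⟨i, ?_⟩
  have : wd r ρ i = 1 := if_neg (by rw [hi]; exact (hS v hv).2)
  rw [this]
  exact one_ne_zero

section
variable {M : ℕ} {s' : ℤ} {k c : ℕ} {t : Bool} {r s : ZMod 2}

/-! ### level 15 -/

theorem b15A (hM : 120 ∣ M) (hM0 : 0 < M) (H : PM s' k c t r s) (hs : s' = -1) :
    IsA M (KK M (fun m => ¬ B3 m ∧ ¬ B5 m) s' k c) t r s (Pool.Agent.N916.PQ.G15 s' k) := by
  intro V _ ρ S hS hK hne hρ him
  obtain ⟨h4, h3, h5⟩ := (mJ hM hM0 (Pool.Agent.N916.PQ.per3.not.and per5.not)).1 hK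
  obtain ⟨e1, e2, e3⟩ := prodS hS
  have D := H.dt hS h4 hρ him
  obtain ⟨i, hi⟩ := ne_V hne him
  haveI : Nonempty V := ⟨i⟩
  have h0 := H.neg' e3 hs
  refine ⟨?_, fun j => ?_⟩
  · unfold Pool.Agent.N916.PQ.G15
    rw [Pool.Agent.N916.PQ.sgA D.ix D.sq ⟨i, dvd_m hi s' k⟩ h0 h3 h5]
    exact Gv_congr D.hlm
  · have := colx D.ix D.sq j
    rw [if_neg (by omega), D.hlm, D.hwx, zero_mul, add_zero] at this
    exact this

theorem b15B (hM : 120 ∣ M) (hM0 : 0 < M) (H : PM s' k c t r s) (hs : s' = 1) :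
    IsB M (KK M (fun m => B3 m ∧ ¬ B5 m) s' k c) t r s (fun p => ra p (-3))
      (fun p => if p = 2 then s else uu p) 1 1 (Pool.Agent.N916.PQ.G15 s' k) := by
  intro V _ ρ S hS hK hne hρ him
  obtain ⟨h4, h3, h5⟩ := (mJ hM hM0 (Pool.Agent.N916.PQ.per3.and per5.not)).1 hK
  obtain ⟨e1, e2, e3⟩ := prodS hS
  have D := H.dt hS h4 hρ him
  obtain ⟨i, hi⟩ := ne_V hne him
  haveI : Nonempty V := ⟨i⟩
  have h0 := H.pos e3 hs
  have hT := torx D.ix D.sq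
  have hU := tory D.ix D.sq
  refine ⟨?_, ?_, fun j => ?_, ?_⟩
  · unfold Pool.Agent.N916.PQ.G15
    rw [Pool.Agent.N916.PQ.sgB D.ix D.sq h0 h3 h5, Kb_congr D.hlm, D.hua]
    rfl
  · have := hU.sgn h0
    rw [add_zero, D.hua] at this
    simpa only [mul_one] using this
  · have := colx D.ix D.sq j
    rw [if_pos h0, D.hlm, D.hwx, D.hua] at this
    exact this
  · have := hT.at3 h3
    rw [add_zero, if_pos h0, D.hwx] at this
    rw [mul_one]
    exact this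

theorem b15C (hM : 120 ∣ M) (hM0 : 0 < M) (H : PM s' k c t r s) (hs : s' = 1) :
    IsB M (KK M (fun m => ¬ B3 m ∧ B5 m) s' k c) t r s (fun p => ra p 5)
      (fun p => if p = 2 then s else uu p) 0 1 (Pool.Agent.N916.PQ.G15 s' k) := by
  intro V _ ρ S hS hK hne hρ him
  obtain ⟨h4, h3, h5⟩ := (mJ hM hM0 (Pool.Agent.N916.PQ.per3.not.and per5)).1 hK
  obtain ⟨e1, e2, e3⟩ := prodS hS
  have D := H.dt hS h4 hρ him
  obtain ⟨i, hi⟩ := ne_V hne him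
  haveI : Nonempty V := ⟨i⟩
  have h0 := H.pos e3 hs
  have hT := torx D.ix D.sq
  have hU := tory D.ix D.sq
  refine ⟨?_, ?_, fun j => ?_, ?_⟩
  · unfold Pool.Agent.N916.PQ.G15
    rw [Pool.Agent.N916.PQ.sgC D.ix D.sq h0 h3 h5, Kb_congr D.hlm, D.hua]
    rfl
  · have := hU.sgn h0
    rw [add_zero, D.hua] at this
    simpa only [mul_one] using this
  · have := colx D.ix D.sq j
    rw [if_pos h0, D.hlm, D.hwx, D.hua] at this
    exact this
  · have := hT.at5 h5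
    rw [add_zero, sm0, add_zero, D.hwx] at this
    rw [mul_zero, add_zero]
    exact this

theorem b15D (hM : 120 ∣ M) (hM0 : 0 < M) (H : PM s' k c t r s) (hs : s' = -1) :
    IsB M (KK M (fun m => B3 m ∧ B5 m) s' k c) t r s (fun p => ra p (-3))
      (fun p => if p = 2 then r else nr p 5) 1 0 (Pool.Agent.N916.PQ.G15 s' k) := by
  intro V _ ρ S hS hK hne hρ him
  obtain ⟨h4, h3, h5⟩ := (mJ hM hM0 (Pool.Agent.N916.PQ.per3.and per5)).1 hK
  obtain ⟨e1, e2, e3⟩ := prodS hS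
  have D := H.dt hS h4 hρ him
  obtain ⟨i, hi⟩ := ne_V hne him
  haveI : Nonempty V := ⟨i⟩
  have h0 := H.neg' e3 hs
  have hT := torx D.ix D.sq
  have hU := tory D.ix D.sq
  have h5S : 5 ∉ S := by
    intro h
    have h6 := dvd_m h s' k
    unfold B5 at h5
    push_cast at h5 h6
    omega
  have hv := D.hv5 h5S
  refine ⟨?_, ?_, fun j => ?_, ?_⟩
  · unfold Pool.Agent.N916.PQ.G15
    rw [Pool.Agent.N916.PQ.sgD D.ix D.sq ⟨i, dvd_m hi s' k⟩ h0 h3 h5, Kb_congr D.hlm, hv]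
    rfl
  · have := hU.at5 h5
    rw [add_zero, sm0, zero_add, hv] at this
    simpa only [mul_one] using this
  · have := colx D.ix D.sq j
    rw [if_neg (by omega), D.hlm, D.hwx, zero_mul] at this
    rw [zero_mul]
    exact this
  · have := hT.at3 h3
    rw [add_zero, if_neg (by omega), add_zero, D.hwx] at this
    rw [zero_mul, add_zero]
    exact this

/-! ### level 21 -/

theorem b21A (hM : 168 ∣ M) (hM0 : 0 < M) (H : PM s' k c t r s) (hs : s' = -1) :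
    IsA M (KK M (fun m => ¬ C3 m ∧ ¬ C7 m) s' k c) t r s (G21 s' k) := by
  intro V _ ρ S hS hK hne hρ him
  obtain ⟨h4, h3, h5⟩ := (m21 hM hM0
    (Pool.Agent.N916.PQ.L21.per3.not.and Pool.Agent.N916.PQ.L21.per7.not)).1 hK
  obtain ⟨e1, e2, e3⟩ := prodS hS
  have D := H.dt hS h4 hρ him
  obtain ⟨i, hi⟩ := ne_V hne him
  haveI : Nonempty V := ⟨i⟩
  have h0 := H.neg' e3 hs
  refine ⟨?_, fun j => ?_⟩
  · unfold Pool.Agent.N916.PQ.L21.G21
    rw [Red21.sgA D.ix D.sq ⟨i, dvd_m hi s' k⟩ h0 h3 h5]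
    exact Gv_congr D.hlm
  · have := colx D.ix D.sq j
    rw [if_neg (by omega), D.hlm, D.hwx, zero_mul, add_zero] at this
    exact this

theorem b21B (hM : 168 ∣ M) (hM0 : 0 < M) (H : PM s' k c t r s) (hs : s' = 1) :
    IsB M (KK M (fun m => ¬ C3 m ∧ C7 m) s' k c) t r s (fun p => ra p (-7))
      (fun p => if p = 2 then s else uu p) 1 1 (G21 s' k) := by
  intro V _ ρ S hS hK hne hρ him
  obtain ⟨h4, h3, h7⟩ := (m21 hM hM0
    (Pool.Agent.N916.PQ.L21.per3.not.and Pool.Agent.N916.PQ.L21.per7)).1 hK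
  obtain ⟨e1, e2, e3⟩ := prodS hS
  have D := H.dt hS h4 hρ him
  obtain ⟨i, hi⟩ := ne_V hne him
  haveI : Nonempty V := ⟨i⟩
  have h0 := H.pos e3 hs
  obtain ⟨f1, f2, f3⟩ := Red21.factsB D.ix D.sq h0 h7
  refine ⟨?_, ?_, fun j => ?_, ?_⟩
  · unfold Pool.Agent.N916.PQ.L21.G21
    rw [Red21.sgB D.ix D.sq h0 h3 h7, Kb_congr D.hlm, D.hua]
    rfl
  · rw [D.hua] at f1
    exact f1
  · have := f2 j
    rw [D.hlm, D.hwx, D.hua] at this
    exact this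
  · rw [D.hwx] at f3
    exact f3

theorem b21C (hM : 168 ∣ M) (hM0 : 0 < M) (H : PM s' k c t r s) (hs : s' = -1) :
    IsB M (KK M (fun m => C3 m ∧ C7 m) s' k c) t r s (fun p => ra p (-7))
      (fun p => if p = 2 then r + s else nr p 3) 1 0 (G21 s' k) := by
  intro V _ ρ S hS hK hne hρ him
  obtain ⟨h4, h3, h7⟩ := (m21 hM hM0
    (Pool.Agent.N916.PQ.L21.per3.and Pool.Agent.N916.PQ.L21.per7)).1 hK
  obtain ⟨e1, e2, e3⟩ := prodS hS
  have D := H.dt hS h4 hρ him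
  obtain ⟨i, hi⟩ := ne_V hne him
  haveI : Nonempty V := ⟨i⟩
  have h0 := H.neg' e3 hs
  have h3S : 3 ∉ S := by
    intro h
    have h6 := dvd_m h s' k
    unfold C3 at h3
    push_cast at h3 h6
    omega
  have hv := hv3 D h3S
  obtain ⟨f1, f2, f3⟩ := Red21.factsC D.ix D.sq h0 h3 h7
  refine ⟨?_, ?_, fun j => ?_, ?_⟩
  · unfold Pool.Agent.N916.PQ.L21.G21
    rw [Red21.sgC D.ix D.sq ⟨i, dvd_m hi s' k⟩ h0 h3 h7, Kb_congr D.hlm, hv]
    rfl
  · rw [hv] at f1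
    exact f1
  · have := f2 j
    rw [D.hlm, D.hwx, hv] at this
    exact this
  · rw [D.hwx] at f3
    exact f3

/-! ### the common classes -/

/-- the difference of the criteria -/
def GX (s' : ℤ) (k : ℕ) (S : Finset ℕ) : Prop := Xor' (Pool.Agent.N916.PQ.G15 s' k S) (G21 s' k S)

theorem KK_mono {P Q : ℤ → Prop} (h : ∀ m, P m → Q m) : ∀ a ∈ KK M P s' k c, a ∈ KK M Q s' k c := by
  intro a ha
  unfold KK at ha ⊢
  rw [mem_filter] at ha ⊢
  exact ⟨ha.1, ha.2.1, h _ ha.2.2⟩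

theorem n3 (H : PM s' k c t r s) {a : ℕ} (h : B3 (s' * (k * a : ℕ))) : ¬ 3 ∣ a :=
  Pool.Agent.N916.PQ.not3 H h

theorem d8 (h : 840 ∣ M) : 8 ∣ M ∧ 120 ∣ M ∧ 168 ∣ M ∧ 3 ∣ M ∧ 5 ∣ M ∧ 7 ∣ M :=
  ⟨(by norm_num : 8 ∣ 840).trans h, (by norm_num : 120 ∣ 840).trans h,
    (by norm_num : 168 ∣ 840).trans h, (by norm_num : 3 ∣ 840).trans h,
    (by norm_num : 5 ∣ 840).trans h, (by norm_num : 7 ∣ 840).trans h⟩

/-- `d > 0`, `3` inert, `5` not split, `7` inert -/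
theorem jX4 (hM : 840 ∣ M) (hM0 : 0 < M) (H : PM s' k c t r s) (hs : s' = 1) :
    J15 M (KK M (fun m => (B3 m ∧ ¬ B5 m) ∧ (¬ C3 m ∧ C7 m)) s' k c) t r s (GX s' k) := by
  obtain ⟨d8, d120, d168, d3, d5, d7⟩ := d8 hM
  have h1 := isB_mono (K := KK M (fun m => (B3 m ∧ ¬ B5 m) ∧ (¬ C3 m ∧ C7 m)) s' k c)
    (KK_mono fun m h => h.1) (b15B (M := M) d120 hM0 H hs)
  have h2 := isB_mono (K := KK M (fun m => (B3 m ∧ ¬ B5 m) ∧ (¬ C3 m ∧ C7 m)) s' k c)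
    (KK_mono fun m h => h.2) (b21B (M := M) d168 hM0 H hs)
  have h := isB_xor (Or.inl one_ne_zero) h1 h2
  refine j_b2 (t := t) (r := r) (s := s) (g := 3) (g' := 7) (h := 3) (κ := 0) (a0 := 0) (κ' := 1)
    d8 hM0 H.tr (pfJ d120 hM0 (Or.inl rfl)) (by norm_num) (pf21 d168 hM0 (Or.inr rfl)) (by norm_num)
    (by norm_num) (pfJ d120 hM0 (Or.inl rfl)) (by norm_num) (fun a ha => n3 H (KJ ha).2.1.1)
    (fun a ha => not7 (KJ ha).2.2.2) (fun a ha => n3 H (KJ ha).2.1.1) (fun p hp hc => ?_)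
    (fun p hp _ => by rw [if_neg hp.2]; ring) (Or.inr rfl) h
  show ra p (-3) + ra p (-7) = _
  rw [hf3 d3 p hp hc, hf7 d7 p hp hc]
  linear_combination aa (uu p)

/-- `d > 0`, `3` ramified, `5` split, `7` inert -/
theorem jX5 (hM : 840 ∣ M) (hM0 : 0 < M) (H : PM s' k c t r s) (hs : s' = 1) :
    J15 M (KK M (fun m => (¬ B3 m ∧ B5 m) ∧ (¬ C3 m ∧ C7 m)) s' k c) t r s (GX s' k) := by
  obtain ⟨d8, d120, d168, d3, d5, d7⟩ := d8 hM
  have h1 := isB_mono (K := KK M (fun m => (¬ B3 m ∧ B5 m) ∧ (¬ C3 m ∧ C7 m)) s' k c)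
    (KK_mono fun m h => h.1) (b15C (M := M) d120 hM0 H hs)
  have h2 := isB_mono (K := KK M (fun m => (¬ B3 m ∧ B5 m) ∧ (¬ C3 m ∧ C7 m)) s' k c)
    (KK_mono fun m h => h.2) (b21B (M := M) d168 hM0 H hs)
  have h := isB_xor (Or.inl one_ne_zero) h1 h2
  refine j_b2 (t := t) (r := r) (s := s) (g := 5) (g' := 7) (h := 5) (κ := 1) (a0 := 0) (κ' := 1)
    d8 hM0 H.tr (pfJ d120 hM0 (Or.inr rfl)) (by norm_num) (pf21 d168 hM0 (Or.inr rfl)) (by norm_num)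
    (by norm_num) (pfJ d120 hM0 (Or.inr rfl)) (by norm_num)
    (fun a ha => Pool.Agent.N916.PQ.not5 H (KJ ha).2.1.2)
    (fun a ha => not7 (KJ ha).2.2.2) (fun a ha => Pool.Agent.N916.PQ.not5 H (KJ ha).2.1.2)
    (fun p hp hc => ?_) (fun p hp _ => by rw [if_neg hp.2]; ring) (Or.inr rfl) h
  show ra p 5 + ra p (-7) = _
  rw [hf5 d5 p hp hc, hf7 d7 p hp hc]
  ring

/-- `d < 0`, `3` split, `5` not split, `7` inert -/
theorem jX2 (hM : 840 ∣ M) (hM0 : 0 < M) (H : PM s' k c t r s) (hs : s' = -1) :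
    J15 M (KK M (fun m => (¬ B3 m ∧ ¬ B5 m) ∧ (C3 m ∧ C7 m)) s' k c) t r s (GX s' k) := by
  obtain ⟨d8, d120, d168, d3, d5, d7⟩ := d8 hM
  have h2 := isB_mono (K := KK M (fun m => (¬ B3 m ∧ ¬ B5 m) ∧ (C3 m ∧ C7 m)) s' k c)
    (KK_mono fun m h => h.2) (b21C (M := M) d168 hM0 H hs)
  have h1 := isA_B (isA_mono (K := KK M (fun m => (¬ B3 m ∧ ¬ B5 m) ∧ (C3 m ∧ C7 m)) s' k c)
    (KK_mono fun m h => h.1) (b15A (M := M) d120 hM0 H hs)) h2
  have h := isB_xor (Or.inr fun V _ ρ S => wd_ne V ρ S) h1 h2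
  refine j_b (t := t) (r := r) (s := s) (g := 7) (h := 3) (κ := 1) (a0 := 1) (κ' := 0)
    d8 hM0 H.tr (pf21 d168 hM0 (Or.inr rfl)) (by norm_num) (pf21 d168 hM0 (Or.inl rfl)) (by norm_num)
    (fun a ha => not7 (KJ ha).2.2.2) (fun a ha => Pool.Agent.N916.PQ.L21.not3 (KJ ha).2.2.1)
    (fun p hp hc => ?_) (fun p hp _ => by rw [if_neg hp.2]; ring) (Or.inl rfl) h
  show 0 + ra p (-7) = _
  rw [hf7 d7 p hp hc]
  ring

/-- `d < 0`, `3` inert, `5` split, `7` not inert -/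
theorem jX3 (hM : 840 ∣ M) (hM0 : 0 < M) (H : PM s' k c t r s) (hs : s' = -1) :
    J15 M (KK M (fun m => (B3 m ∧ B5 m) ∧ (¬ C3 m ∧ ¬ C7 m)) s' k c) t r s (GX s' k) := by
  obtain ⟨d8, d120, d168, d3, d5, d7⟩ := d8 hM
  have h1 := isB_mono (K := KK M (fun m => (B3 m ∧ B5 m) ∧ (¬ C3 m ∧ ¬ C7 m)) s' k c)
    (KK_mono fun m h => h.1) (b15D (M := M) d120 hM0 H hs)
  have h2 := isA_B (isA_mono (K := KK M (fun m => (B3 m ∧ B5 m) ∧ (¬ C3 m ∧ ¬ C7 m)) s' k c)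
    (KK_mono fun m h => h.2) (b21A (M := M) d168 hM0 H hs)) h1
  have h := isB_xor (Or.inr fun V _ ρ S => wd_ne V ρ S) h1 h2
  refine j_b (t := t) (r := r) (s := s) (g := 3) (h := 5) (κ := 1) (a0 := 1) (κ' := 0)
    d8 hM0 H.tr (pfJ d120 hM0 (Or.inl rfl)) (by norm_num) (pfJ d120 hM0 (Or.inr rfl)) (by norm_num)
    (fun a ha => n3 H (KJ ha).2.1.1) (fun a ha => Pool.Agent.N916.PQ.not5 H (KJ ha).2.1.2)
    (fun p hp hc => ?_) (fun p hp _ => by rw [if_neg hp.2]; ring) (Or.inl rfl) h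
  show ra p (-3) + 0 = _
  rw [hf3 d3 p hp hc]
  ring

end

end Pool.Agent.N877.JX
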