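import Pool.Agent.N877.JX.Fr

/-!
# JX: the inputs in the six common classes of the levels 15 and 21
-/

set_option autoImplicit false
set_option linter.all false

open scoped Classical

namespace Pool.Agent.N877.JX

open Finset Filter
open Pool.Agent.Y703.CQ (nr sg c2)
open Pool.Agent.N973.ND (uu nr_rec nr_self)
open Pool.Agent.N916.GB (Po Vt sy Ev Gv Gd z2_add_self eta)
open Pool.Agent.N958.GB (NR ud wd mem_Vt sy_ne sy_two Gd_iff)
open Pool.Agent.N875.X15 (PR ra sgp d2 oe ch)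
open Pool.Agent.N875.P17 (al ra_rec al_odd ra_neg_one)
open Pool.Agent.N809 Pool.Agent.N809.PQ
open Pool.Agent.N916.PQ
open Pool.Agent.N916.PQ.L21 (G21 fa fb kf ce_iff ce_facts not7 hf7 hv3 fO fO_pos fO_neg)
open Pool.Agent.N809.JT (J15)
open Pool.Agent.N972.JT (s15M J15.mono KJ KKm IsA mJ pfJ)
open Pool.Agent.N975.JT (m21 pf21 s21M)
open Pool.Agent.N963.JT (Sp)

section
variable {M : ℕ} {s' : ℤ} {k c : ℕ} {t : Bool} {r s : ZMod 2} {K : Finset ℕ}

/-- the criterion of level `21` in the exceptional class -/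
theorem isE21 (H : PM s' k c t r s) (hs : s' = 1)
    (hK : ∀ n : ℕ, n % M ∈ K → n % 4 = c ∧ C3 (s' * (k * n : ℕ)) ∧ ¬ C7 (s' * (k * n : ℕ))) :
    IsE M K t r s (fun _ => 0) (G21 s' k) := by
  intro V _ ρ S hS hKS hne hρ him
  obtain ⟨h4, h3, h7⟩ := hK _ hKS
  obtain ⟨e1, e2, e3⟩ := prodS hS
  have D := H.dt hS h4 hρ him
  have h0 := H.pos e3 hs
  have h3S : 3 ∉ S := by
    intro h
    have h6 := dvd_m h s' k
    unfold C3 at h3
    push_cast at h3 h6
    omega
  refine ⟨?_, sum_eq_zero fun i _ => zero_mul _⟩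
  simp only [add_zero]
  exact ce_iff D h0 h3 h7 h3S

/-- the difference in the exceptional class -/
theorem isEX (hM : 120 ∣ M) (hM0 : 0 < M) (H : PM s' k c t r s) (hs : s' = 1)
    (hK : ∀ n : ℕ, n % M ∈ K → n % 4 = c ∧ (¬ B3 (s' * (k * n : ℕ)) ∧ B5 (s' * (k * n : ℕ))) ∧
      C3 (s' * (k * n : ℕ)) ∧ ¬ C7 (s' * (k * n : ℕ))) :
    IsE M K t r s (fun p => ra p 5) (GX s' k) := by
  intro V _ ρ S hS hKS hne hρ him
  obtain ⟨h4, ⟨b3, b5⟩, h3, h7⟩ := hK _ hKS
  obtain ⟨e1, e2, e3⟩ := prodS hS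
  have D := H.dt hS h4 hρ him
  have h0 := H.pos e3 hs
  have h3S : 3 ∉ S := by
    intro h
    have h6 := dvd_m h s' k
    unfold C3 at h3
    push_cast at h3 h6
    omega
  obtain ⟨i, hi⟩ := ne_V hne him
  haveI : Nonempty V := ⟨i⟩
  have hKK : (∏ v ∈ S, v) % M ∈ KK M (fun m => ¬ B3 m ∧ B5 m) s' k c :=
    (mJ hM hM0 (Pool.Agent.N916.PQ.per3.not.and per5)).2 ⟨h4, b3, b5⟩
  obtain ⟨c1, c2, c3, c4⟩ := b15C hM hM0 H hs V ρ S hS hKK hne hρ him
  obtain ⟨f1, f2, f3, f4, f5, f6⟩ := ce_facts D h0 h3 h7 h3S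
  rw [mul_zero, add_zero] at c4
  refine ⟨?_, c4⟩
  have h21 := ce_iff D h0 h3 h7 h3S
  have hX := CE_xor (N := NR r s ρ) (α := fun i => fa s (ρ i)) (β := fun i => fb r s (ρ i))
    (κ := kf r s ρ) (θ := uc (-3) ρ) (f := fun i => ra (ρ i) 5) (wd := wd r ρ) f1 f2 f3 c4
    (by
      intro x y a hx
      have e1 : SF (kf r s ρ) (uc (-3) ρ) (wd r ρ) 1 0 x y a =
          ∑ j, Red21.d7 ρ j * (∑ i, Pool.Agent.N916.PQ.Lm (NR r s ρ) i j * x i +
            y * fa s (ρ j) + a * fb r s (ρ j)) := by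
        have e2 : ∑ j, Red21.d7 ρ j * (∑ i, Pool.Agent.N916.PQ.Lm (NR r s ρ) i j * x i +
            y * fa s (ρ j) + a * fb r s (ρ j)) =
            ∑ i, (∑ j, Pool.Agent.N916.PQ.Lm (NR r s ρ) i j * Red21.d7 ρ j) * x i +
            (∑ j, fa s (ρ j) * Red21.d7 ρ j) * y + (∑ j, fb r s (ρ j) * Red21.d7 ρ j) * a := by
          simp only [mul_add, sum_add_distrib, sum_mul, mul_sum]
          congr 1
          · congr 1
            · rw [sum_comm]
              exact sum_congr rfl fun i _ => sum_congr rfl fun v _ => by ring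
            · exact sum_congr rfl fun v _ => by ring
          · exact sum_congr rfl fun v _ => by ring
        rw [e2, ← f5, ← f6]
        simp only [← f4]
        unfold SF
        set g : ZMod 2 := ∑ i, kf r s ρ i * wd r ρ i + 1 with hg
        have e4 : ∑ i, (kf r s ρ i * wd r ρ i + g * kf r s ρ i) * x i =
            ∑ i, kf r s ρ i * (wd r ρ i * x i) + g * ∑ i, kf r s ρ i * x i := by
          rw [mul_sum, ← sum_add_distrib]
          exact sum_congr rfl fun i _ => by ring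
        rw [e4]
        simp only [zero_mul, add_zero]
        ring
      rw [e1]
      refine sum_eq_zero fun j _ => ?_
      have := hx j
      rw [this, mul_zero])
  unfold GX
  rw [hX]
  unfold Xor'
  have h15 : Pool.Agent.N916.PQ.G15 s' k S ↔ Kb (NR r s ρ) (fun i => ra (ρ i) 5)
      (fun i => fa s (ρ i)) 0 := c1
  have h21' : G21 s' k S ↔ CE (NR r s ρ) (fun i => fa s (ρ i)) (fun i => fb r s (ρ i)) (kf r s ρ)
      (uc (-3) ρ) (wd r ρ) := h21
  rw [h15, h21']

end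

end Pool.Agent.N877.JX
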