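import Pool.Agent.N877.JX.Lah
import Pool.Agent.N975.JT.Hg21

/-!
# JX: criteria in classes of integers
-/

set_option autoImplicit false
set_option linter.all false

open scoped Classical

namespace Pool.Agent.N877.JX

open Finset Filter
open Pool.Agent.Y703.CQ (nr sg c2)
open Pool.Agent.N916.GB (Po Vt eta pt sx ps)
open Pool.Agent.N916.AM (LAH LAV Nd Rich)
open Pool.Agent.N916.PQ (PM pm_all hg_one)
open Pool.Agent.N809.JT (J15 lahj)
open Pool.Agent.N919.BS (NN NS NF HG Rt17)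
open Pool.Agent.N916.MO (G17)
open Pool.Agent.N963.JT (Sp sp_rt sp_mod KC KC_prop mem_KC ec01)
open Pool.Agent.N975.JT (key17)

/-- the hypothesis of the density machine for the criterion `G` in the class `P` -/
def In (N : ℕ) (P G : ℤ → Prop) (η : ℝ) : Prop :=
  ∀ (s' : ℤ) (k c : ℕ) (t : Bool) (r s : ZMod 2), PM s' k c t r s → ∀ M : ℕ, N ∣ M → 0 < M →
    ∀ K : Finset ℕ, (∀ a ∈ K, a % 4 = c ∧ P (s' * (k * a : ℕ))) →
      LAH M K (fun S => G (s' * (k * ∏ v ∈ S, v : ℕ))) η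

/-- the criterion `G` is a linear system in the class `P` -/
def InJ (N : ℕ) (P G : ℤ → Prop) : Prop :=
  ∀ (s' : ℤ) (k c : ℕ) (t : Bool) (r s : ZMod 2), PM s' k c t r s → ∀ M : ℕ, N ∣ M → 0 < M →
    ∀ K : Finset ℕ, (∀ a ∈ K, a % 4 = c ∧ P (s' * (k * a : ℕ))) →
      J15 M K t r s (fun S => G (s' * (k * ∏ v ∈ S, v : ℕ)))

/-- the criterion `G` is of the exceptional type in the class `P` -/
def InE (N : ℕ) (P G : ℤ → Prop) : Prop :=
  ∀ (s' : ℤ) (k c : ℕ) (t : Bool) (r s : ZMod 2), PM s' k c t r s → ∀ M : ℕ, N ∣ M → 0 < M →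
    ∀ K : Finset ℕ, (∀ a ∈ K, a % 4 = c ∧ P (s' * (k * a : ℕ))) →
      JE M K t r s (fun S => G (s' * (k * ∏ v ∈ S, v : ℕ)))

variable {N : ℕ} {P G G' : ℤ → Prop} {η : ℝ}

/-- **the count in every residue class** -/
theorem in_hg (hN : 8 ∣ N) (hN0 : 0 < N) (hsp : ∀ M, N ∣ M → Sp M P) (h0 : 0 ≤ η) (h1 : η ≤ 1)
    (h : In N P G η) {m : ℕ} (hm : 0 < m) (A : Set ℤ) :
    HG (fun d => P d ∧ d % (m : ℤ) ∈ A) G η := by
  intro s' k c hs hk hc
  obtain ⟨t, r, s, H⟩ := pm_all hs hk hc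
  have hM : 0 < N * m := by positivity
  have hdM : N ∣ N * m := Dvd.intro _ rfl
  have hP : Sp (N * m) fun d => P d ∧ d % (m : ℤ) ∈ A :=
    (hsp _ hdM).and (sp_mod (Dvd.intro_left _ rfl) A)
  have h4 : 4 ∣ N * m := ((by norm_num : 4 ∣ 8).trans hN).trans hdM
  have hK : ∀ a ∈ KC (N * m) (fun d => P d ∧ d % (m : ℤ) ∈ A) s' k c,
      a % 4 = c ∧ P (s' * (k * a : ℕ)) := by
    intro a ha
    have := KC_prop ha
    exact ⟨this.1, this.2.1⟩
  have hL := h s' k c t r s H (N * m) hdM hM _ hK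
  have h := hg_one (s' := s') (k := k) (c := c) (M := N * m)
    (f := fun d => decide (P d ∧ d % (m : ℤ) ∈ A)) (Q := G) (hN.trans hdM) hM hc h0 h1
    (fun n hn => by
      rw [mem_KC hM h4 hP hs hk hc hn, decide_eq_true_iff]) hL
  simpa only [decide_eq_true_iff] using h

theorem InJ.lah (hN : 8 ∣ N) (h : InJ N P G) : In N P G eta :=
  fun s' k c t r s H M hM hM0 K hK => lahJ (hN.trans hM) hM0 (h s' k c t r s H M hM hM0 K hK)

theorem InE.lah (hN : 168 ∣ N) (h : InE N P G) : In N P G (4 / 3 * eta) :=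
  fun s' k c t r s H M hM hM0 K hK => lahJE (hN.trans hM) hM0 (h s' k c t r s H M hM hM0 K hK)

/-- **jointly with level 17** -/
theorem InJ.lah17 (hN : 136 ∣ N) (h : InJ N P G) :
    In N (fun d => P d ∧ Rt17 d) (fun d => G d ∧ G17 d) (eta * c2) := by
  intro s' k c t r s H M hM hM0 K hK
  have h136 := hN.trans hM
  have h1M : 1 < M := lt_of_lt_of_le (by norm_num) (Nat.le_of_dvd hM0 h136)
  exact lahj h1M (h s' k c t r s H M hM hM0 K fun a ha => ⟨(hK a ha).1, (hK a ha).2.1⟩)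
    (key17 h136 hM0 H K fun a ha => ⟨(hK a ha).1, (hK a ha).2.2⟩)

theorem InJ.up {N' : ℕ} (h : InJ N P G) (hN : N ∣ N') : InJ N' P G :=
  fun s' k c t r s H M hM hM0 K hK => h s' k c t r s H M (hN.trans hM) hM0 K hK

theorem InE.up {N' : ℕ} (h : InE N P G) (hN : N ∣ N') : InE N' P G :=
  fun s' k c t r s H M hM hM0 K hK => h s' k c t r s H M (hN.trans hM) hM0 K hK

/-! ### counts -/

theorem NN_xor (P G G' : ℤ → Prop) (s : ℤ) (k c Y : ℕ) :
    NN (fun d => P d ∧ Xor' (G d) (G' d)) s k c Y + 2 * NN (fun d => P d ∧ (G d ∧ G' d)) s k c Y =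
      NN (fun d => P d ∧ G d) s k c Y + NN (fun d => P d ∧ G' d) s k c Y := by
  unfold Pool.Agent.N919.BS.NN
  simp only [card_filter, mul_sum, ← sum_add_distrib]
  refine sum_congr rfl fun M _ => ?_
  by_cases h1 : Squarefree M <;> by_cases h4 : M % 4 = c <;>
    by_cases h5 : P (s * (k * M : ℕ)) <;> by_cases h2 : G (s * (k * M : ℕ)) <;>
    by_cases h3 : G' (s * (k * M : ℕ)) <;> simp only [h1, h2, h3, h4, h5, Xor', true_and,
      false_and, and_true, and_false, not_true, not_false_iff, or_false, or_self, false_or, or_true,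
      if_true, if_false] <;> rfl

/-- **both criteria from the difference** -/
theorem hg_both {a b x : ℝ} (h1 : HG P G a) (h2 : HG P G' b) (h3 : HG P (fun d => Xor' (G d) (G' d)) x) :
    HG P (fun d => G d ∧ G' d) ((a + b - x) / 2) := by
  intro s k c hs hk hc ε hε
  obtain ⟨Y1, H1⟩ := h1 s k c hs hk hc (ε / 2) (by positivity)
  obtain ⟨Y2, H2⟩ := h2 s k c hs hk hc (ε / 2) (by positivity)
  obtain ⟨Y3, H3⟩ := h3 s k c hs hk hc (ε / 2) (by positivity)
  refine ⟨max Y1 (max Y2 Y3), fun Y hY => ?_⟩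
  have a1 := H1 Y ((le_max_left _ _).trans hY)
  have a2 := H2 Y (((le_max_left _ _).trans (le_max_right _ _)).trans hY)
  have a3 := H3 Y (((le_max_right _ _).trans (le_max_right _ _)).trans hY)
  have e := NN_xor P G G' s k c Y
  have e' : (NN (fun d => P d ∧ Xor' (G d) (G' d)) s k c Y : ℝ) +
      2 * NN (fun d => P d ∧ (G d ∧ G' d)) s k c Y =
      NN (fun d => P d ∧ G d) s k c Y + NN (fun d => P d ∧ G' d) s k c Y := by
    exact_mod_cast e
  have hY0 : (0 : ℝ) ≤ Y := Nat.cast_nonneg _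
  rw [abs_le] at a1 a2 a3 ⊢
  constructor
  · linarith [a1.1, a2.1, a3.2, mul_nonneg hε.le hY0]
  · linarith [a1.2, a2.2, a3.1, mul_nonneg hε.le hY0]

/-- disjoint classes -/
theorem NN_or {P P' : ℤ → Prop} (h : ∀ d, P d → ¬ P' d) (G : ℤ → Prop) (s : ℤ) (k c Y : ℕ) :
    NN (fun d => (P d ∨ P' d) ∧ G d) s k c Y = NN (fun d => P d ∧ G d) s k c Y +
      NN (fun d => P' d ∧ G d) s k c Y := by
  unfold Pool.Agent.N919.BS.NN
  rw [← card_union_of_disjoint]
  · congr 1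
    ext M
    simp only [mem_filter, mem_union]
    tauto
  · rw [Finset.disjoint_left]
    intro M h1 h2
    simp only [mem_filter] at h1 h2
    exact h _ h1.2.2.2.1 h2.2.2.2.1

theorem NN_or' {P P' : ℤ → Prop} (h : ∀ d, P d → ¬ P' d) (s : ℤ) (k c Y : ℕ) :
    NN (fun d => P d ∨ P' d) s k c Y = NN P s k c Y + NN P' s k c Y := by
  unfold Pool.Agent.N919.BS.NN
  rw [← card_union_of_disjoint]
  · congr 1
    ext M
    simp only [mem_filter, mem_union]
    tauto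
  · rw [Finset.disjoint_left]
    intro M h1 h2
    simp only [mem_filter] at h1 h2
    exact h _ h1.2.2.2 h2.2.2.2

theorem hg_or {P P' G : ℤ → Prop} {η : ℝ} (h : ∀ d, P d → ¬ P' d) (h1 : HG P G η)
    (h2 : HG P' G η) : HG (fun d => P d ∨ P' d) G η := by
  intro s k c hs hk hc ε hε
  obtain ⟨Y1, H1⟩ := h1 s k c hs hk hc (ε / 2) (by positivity)
  obtain ⟨Y2, H2⟩ := h2 s k c hs hk hc (ε / 2) (by positivity)
  refine ⟨max Y1 Y2, fun Y hY => ?_⟩
  have a1 := H1 Y ((le_max_left _ _).trans hY)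
  have a2 := H2 Y ((le_max_right _ _).trans hY)
  rw [NN_or h, NN_or' h]
  push_cast
  rw [abs_le] at a1 a2 ⊢
  constructor
  · linarith [a1.1, a2.1]
  · linarith [a1.2, a2.2]

theorem hg_congr {P P' G G' : ℤ → Prop} {η : ℝ} (hP : ∀ d, P d ↔ P' d)
    (hG : ∀ d, P d → (G d ↔ G' d)) (h : HG P G η) : HG P' G' η := by
  intro s k c hs hk hc ε hε
  obtain ⟨Y1, H1⟩ := h s k c hs hk hc ε hε
  refine ⟨Y1, fun Y hY => ?_⟩
  have a1 := H1 Y hY
  have e1 : (fun d => P d ∧ G d) = fun d => P' d ∧ G' d := by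
    funext d
    rw [← hP d]
    exact propext ⟨fun h => ⟨h.1, (hG d h.1).1 h.2⟩, fun h => ⟨h.1, (hG d h.1).2 h.2⟩⟩
  have e2 : P = P' := funext fun d => propext (hP d)
  rw [e1, e2] at a1
  exact a1

end Pool.Agent.N877.JX
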