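import Pool.Agent.N877.JX.Ei

/-!
# JX: the levels 15 and 21 in the six common classes
-/

set_option autoImplicit false
set_option linter.all false

open scoped Classical

namespace Pool.Agent.N877.JX

open Finset Filter
open Pool.Agent.Y703.CQ (nr sg c2)
open Pool.Agent.N916.GB (Po Vt Gv eta)
open Pool.Agent.N958.GB (NR ud wd)
open Pool.Agent.N809 Pool.Agent.N809.PQ
open Pool.Agent.N916.PQ
open Pool.Agent.N916.MO (G17)
open Pool.Agent.N916.AM (LAH)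
open Pool.Agent.N919.BS (NN NS NF HG Rt17)
open Pool.Agent.N916.PQ.L21 (G21 fO fO_pos fO_neg)
open Pool.Agent.N809.JT (J15)
open Pool.Agent.N972.JT (s15M J15.mono KJ KKm IsA mJ pfJ j_a)
open Pool.Agent.N975.JT (m21 pf21 s21M)
open Pool.Agent.N963.JT (Sp sp_rt ec01)

/-- the class in which the criteria of the levels `15` and `21` coincide -/
def P1 (d : ℤ) : Prop := d < 0 ∧ ((¬ B3 d ∧ ¬ B5 d) ∧ (¬ C3 d ∧ ¬ C7 d))
def P2 (d : ℤ) : Prop := d < 0 ∧ ((¬ B3 d ∧ ¬ B5 d) ∧ (C3 d ∧ C7 d))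
def P3 (d : ℤ) : Prop := d < 0 ∧ ((B3 d ∧ B5 d) ∧ (¬ C3 d ∧ ¬ C7 d))
def P4 (d : ℤ) : Prop := 0 < d ∧ ((B3 d ∧ ¬ B5 d) ∧ (¬ C3 d ∧ C7 d))
def P5 (d : ℤ) : Prop := 0 < d ∧ ((¬ B3 d ∧ B5 d) ∧ (¬ C3 d ∧ C7 d))
/-- the exceptional class of level `21` and the root number of level `15` -/
def PE (d : ℤ) : Prop := 0 < d ∧ ((¬ B3 d ∧ B5 d) ∧ (C3 d ∧ ¬ C7 d))
/-- the exceptional class of level `21` -/
def PX (d : ℤ) : Prop := 0 < d ∧ (C3 d ∧ ¬ C7 d)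

/-- properties modulo `105` -/
def D105 (Q : ℤ → Prop) : Prop :=
  ∀ a b : ℤ, a % 3 = b % 3 → a % 5 = b % 5 → a % 7 = b % 7 → (Q a ↔ Q b)

theorem md {M g : ℕ} (h : g ∣ M) {a b : ℤ} (hM : a % M = b % M) : a % (g : ℤ) = b % (g : ℤ) := by
  have h1 : ((g : ℕ) : ℤ) ∣ M := Int.natCast_dvd_natCast.2 h
  rw [← Int.emod_emod_of_dvd a h1, hM, Int.emod_emod_of_dvd b h1]

theorem D105.eq {Q : ℤ → Prop} (hQ : D105 Q) {M : ℕ} (h : 105 ∣ M) {a b : ℤ}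
    (hM : a % M = b % M) : Q a ↔ Q b :=
  hQ a b (md (g := 3) ((by norm_num : 3 ∣ 105).trans h) hM)
    (md (g := 5) ((by norm_num : 5 ∣ 105).trans h) hM)
    (md (g := 7) ((by norm_num : 7 ∣ 105).trans h) hM)

theorem sp_neg {Q : ℤ → Prop} (hQ : D105 Q) {M : ℕ} (h : 105 ∣ M) :
    Sp M fun d => d < 0 ∧ Q d := by
  intro a b hab hM
  have := hQ.eq h hM
  show (a < 0 ∧ Q a) ↔ (b < 0 ∧ Q b)
  rw [this]
  rcases hab with ⟨h1, h2⟩ | ⟨h1, h2⟩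
  · exact ⟨fun h => absurd h.1 (by omega), fun h => absurd h.1 (by omega)⟩
  · exact ⟨fun h => ⟨h2, h.2⟩, fun h => ⟨h1, h.2⟩⟩

theorem sp_pos {Q : ℤ → Prop} (hQ : D105 Q) {M : ℕ} (h : 105 ∣ M) :
    Sp M fun d => 0 < d ∧ Q d := by
  intro a b hab hM
  have := hQ.eq h hM
  show (0 < a ∧ Q a) ↔ (0 < b ∧ Q b)
  rw [this]
  rcases hab with ⟨h1, h2⟩ | ⟨h1, h2⟩
  · exact ⟨fun h => ⟨h2, h.2⟩, fun h => ⟨h1, h.2⟩⟩
  · exact ⟨fun h => absurd h.1 (by omega), fun h => absurd h.1 (by omega)⟩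

theorem dB3 {a b : ℤ} (h : a % 3 = b % 3) : B3 a ↔ B3 b := by
  unfold B3
  rw [h]

theorem dC3 {a b : ℤ} (h : a % 3 = b % 3) : C3 a ↔ C3 b := by
  unfold C3
  rw [h]

theorem dB5 {a b : ℤ} (h : a % 5 = b % 5) : B5 a ↔ B5 b := by
  unfold B5
  rw [h]

theorem dC7 {a b : ℤ} (h : a % 7 = b % 7) : C7 a ↔ C7 b := by
  unfold C7
  rw [h]

theorem sp1 {M : ℕ} (h : 105 ∣ M) : Sp M P1 := sp_neg (fun a b h3 h5 h7 => by
  rw [dB3 h3, dB5 h5, dC3 h3, dC7 h7]) h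
theorem sp2 {M : ℕ} (h : 105 ∣ M) : Sp M P2 := sp_neg (fun a b h3 h5 h7 => by
  rw [dB3 h3, dB5 h5, dC3 h3, dC7 h7]) h
theorem sp3 {M : ℕ} (h : 105 ∣ M) : Sp M P3 := sp_neg (fun a b h3 h5 h7 => by
  rw [dB3 h3, dB5 h5, dC3 h3, dC7 h7]) h
theorem sp4 {M : ℕ} (h : 105 ∣ M) : Sp M P4 := sp_pos (fun a b h3 h5 h7 => by
  rw [dB3 h3, dB5 h5, dC3 h3, dC7 h7]) h
theorem sp5 {M : ℕ} (h : 105 ∣ M) : Sp M P5 := sp_pos (fun a b h3 h5 h7 => by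
  rw [dB3 h3, dB5 h5, dC3 h3, dC7 h7]) h
theorem spE {M : ℕ} (h : 105 ∣ M) : Sp M PE := sp_pos (fun a b h3 h5 h7 => by
  rw [dB3 h3, dB5 h5, dC3 h3, dC7 h7]) h
theorem spX {M : ℕ} (h : 105 ∣ M) : Sp M PX := sp_pos (fun a b h3 h5 h7 => by
  rw [dC3 h3, dC7 h7]) h

/-! ### the inputs -/

section
variable {M : ℕ} {s' : ℤ} {k c : ℕ} {t : Bool} {r s : ZMod 2} {K : Finset ℕ}

theorem J15.em {G : Finset ℕ → Prop} (h : ∀ n : ℕ, n % M ∉ K) : J15 M K t r s G := by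
  intro ι _ _ _ S₀ p hS₀ hp hpi hpK hN
  exact absurd hpK (h _)

theorem JE.em {G : Finset ℕ → Prop} (h : ∀ n : ℕ, n % M ∉ K) : JE M K t r s G := by
  intro ι _ _ _ S₀ p hS₀ hp hpi hpK hN
  exact absurd hpK (h _)

theorem sgn_pos (H : PM s' k c t r s) (hs : s' = 1) {a : ℕ} (h : a % 4 = c) :
    0 < s' * (k * a : ℕ) := by
  have h1 := H.hc
  rcases H.hk with hk | hk <;> rw [hs, hk] <;> push_cast <;> omega

theorem sgn_neg (H : PM s' k c t r s) (hs : s' = -1) {a : ℕ} (h : a % 4 = c) :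
    s' * (k * a : ℕ) < 0 := by
  have h1 := H.hc
  rcases H.hk with hk | hk <;> rw [hs, hk] <;> push_cast <;> omega

end

/-- negative integers -/
theorem inJ_neg {N : ℕ} {Q G : ℤ → Prop}
    (h : ∀ (s' : ℤ) (k c : ℕ) (t : Bool) (r s : ZMod 2), PM s' k c t r s → s' = -1 →
      ∀ M : ℕ, N ∣ M → 0 < M → J15 M (KK M Q s' k c) t r s
        (fun S => G (s' * (k * ∏ v ∈ S, v : ℕ)))) : InJ N (fun d => d < 0 ∧ Q d) G := by
  intro s' k c t r s H M hM hM0 K hK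
  rcases H.hs with hs | hs
  · refine J15.em fun n hn => ?_
    have h1 := hK _ hn
    have h2 := sgn_pos H hs h1.1
    have := h1.2.1
    omega
  · exact J15.mono hM0 (fun a ha hlt => KKm hlt (hK a ha).1 (hK a ha).2.2)
      (h s' k c t r s H hs M hM hM0)

/-- positive integers -/
theorem inJ_pos {N : ℕ} {Q G : ℤ → Prop}
    (h : ∀ (s' : ℤ) (k c : ℕ) (t : Bool) (r s : ZMod 2), PM s' k c t r s → s' = 1 →
      ∀ M : ℕ, N ∣ M → 0 < M → J15 M (KK M Q s' k c) t r s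
        (fun S => G (s' * (k * ∏ v ∈ S, v : ℕ)))) : InJ N (fun d => 0 < d ∧ Q d) G := by
  intro s' k c t r s H M hM hM0 K hK
  rcases H.hs with hs | hs
  · exact J15.mono hM0 (fun a ha hlt => KKm hlt (hK a ha).1 (hK a ha).2.2)
      (h s' k c t r s H hs M hM hM0)
  · refine J15.em fun n hn => ?_
    have h1 := hK _ hn
    have h2 := sgn_neg H hs h1.1
    have := h1.2.1
    omega

/-- the difference of the criteria -/
def SX (d : ℤ) : Prop := Xor' (Sg15 d) (Sg21 d)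

theorem iX2 : InJ 840 P2 SX := inJ_neg fun s' k c t r s H hs M hM hM0 => jX2 hM hM0 H hs
theorem iX3 : InJ 840 P3 SX := inJ_neg fun s' k c t r s H hs M hM hM0 => jX3 hM hM0 H hs
theorem iX4 : InJ 840 P4 SX := inJ_pos fun s' k c t r s H hs M hM hM0 => jX4 hM hM0 H hs
theorem iX5 : InJ 840 P5 SX := inJ_pos fun s' k c t r s H hs M hM hM0 => jX5 hM hM0 H hs

/-- level 15 in a subclass -/
theorem i15 {P : ℤ → Prop} (h : ∀ d, P d → f15 d = true) : InJ 840 P Sg15 := by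
  intro s' k c t r s H M hM hM0 K hK
  exact s15M (Dvd.dvd.trans (by norm_num) hM) hM0 H K fun a ha => ⟨(hK a ha).1, h _ (hK a ha).2⟩

/-- level 21 in a subclass -/
theorem i21 {P : ℤ → Prop} (h : ∀ d, P d → fO d = true) : InJ 840 P Sg21 := by
  intro s' k c t r s H M hM hM0 K hK
  exact s21M (Dvd.dvd.trans (by norm_num) hM) hM0 H K fun a ha => ⟨(hK a ha).1, h _ (hK a ha).2⟩

/-- **the criteria coincide** -/
theorem i1 : InJ 840 P1 fun d => Sg15 d ∧ Sg21 d := by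
  refine inJ_neg fun s' k c t r s H hs M hM hM0 => ?_
  obtain ⟨d8, d120, d168, d3, d5, d7⟩ := d8 hM
  have h1 := isA_mono (K := KK M (fun m => (¬ B3 m ∧ ¬ B5 m) ∧ (¬ C3 m ∧ ¬ C7 m)) s' k c)
    (KK_mono fun m h => h.1) (b15A (M := M) d120 hM0 H hs)
  have h2 := isA_mono (K := KK M (fun m => (¬ B3 m ∧ ¬ B5 m) ∧ (¬ C3 m ∧ ¬ C7 m)) s' k c)
    (KK_mono fun m h => h.2) (b21A (M := M) d168 hM0 H hs)
  refine j_a d8 hM0 H.tr ?_
  intro V _ ρ S hS hK hne hρ him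
  obtain ⟨a1, a2⟩ := h1 V ρ S hS hK hne hρ him
  obtain ⟨b1, b2⟩ := h2 V ρ S hS hK hne hρ him
  exact ⟨⟨fun h => a1.1 h.1, fun h => ⟨a1.2 h, b1.2 h⟩⟩, a2⟩

theorem f15_1 {d : ℤ} (h : P1 d) : f15 d = true := (f15_neg h.1).2 (Or.inl h.2.1)
theorem f15_2 {d : ℤ} (h : P2 d) : f15 d = true := (f15_neg h.1).2 (Or.inl h.2.1)
theorem f15_3 {d : ℤ} (h : P3 d) : f15 d = true := (f15_neg h.1).2 (Or.inr h.2.1)
theorem f15_4 {d : ℤ} (h : P4 d) : f15 d = true := (f15_pos h.1).2 (Or.inl h.2.1)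
theorem f15_5 {d : ℤ} (h : P5 d) : f15 d = true := (f15_pos h.1).2 (Or.inr h.2.1)
theorem f15_E {d : ℤ} (h : PE d) : f15 d = true := (f15_pos h.1).2 (Or.inr h.2.1)
theorem fO_1 {d : ℤ} (h : P1 d) : fO d = true := (fO_neg h.1).2 (Or.inl h.2.2)
theorem fO_2 {d : ℤ} (h : P2 d) : fO d = true := (fO_neg h.1).2 (Or.inr h.2.2)
theorem fO_3 {d : ℤ} (h : P3 d) : fO d = true := (fO_neg h.1).2 (Or.inl h.2.2)
theorem fO_4 {d : ℤ} (h : P4 d) : fO d = true := (fO_pos h.1).2 h.2.2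
theorem fO_5 {d : ℤ} (h : P5 d) : fO d = true := (fO_pos h.1).2 h.2.2

/-- the exceptional class, level 21 -/
theorem iE21 : InE 168 PX Sg21 := by
  intro s' k c t r s H M hM hM0 K hK
  have hcl : ∀ n : ℕ, n % M ∈ K → n % 4 = c ∧ C3 (s' * (k * n : ℕ)) ∧ ¬ C7 (s' * (k * n : ℕ)) := by
    intro n hn
    have h1 : n % M ∈ KK M (fun m => C3 m ∧ ¬ C7 m) s' k c :=
      KKm (Nat.mod_lt _ hM0) (hK _ hn).1 (hK _ hn).2.2
    exact (m21 hM hM0 (L21.per3.and L21.per7.not)).1 h1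
  rcases H.hs with hs | hs
  · refine j_e hM hM0 H hs hcl (ff := fun _ => 0) (fun p q _ _ _ _ _ _ => rfl) (isE21 H hs hcl)
  · refine JE.em fun n hn => ?_
    have h1 := hK _ hn
    have h2 := sgn_neg H hs h1.1
    have := h1.2.1
    omega

/-- the exceptional class, the difference -/
theorem iEX : InE 840 PE SX := by
  intro s' k c t r s H M hM hM0 K hK
  obtain ⟨d8, d120, d168, d3, d5, d7⟩ := d8 hM
  have hcl : ∀ n : ℕ, n % M ∈ K → n % 4 = c ∧ (¬ B3 (s' * (k * n : ℕ)) ∧ B5 (s' * (k * n : ℕ))) ∧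
      C3 (s' * (k * n : ℕ)) ∧ ¬ C7 (s' * (k * n : ℕ)) := by
    intro n hn
    have h0 := hK _ hn
    have h1 : n % M ∈ KK M (fun m => ¬ B3 m ∧ B5 m) s' k c :=
      KKm (Nat.mod_lt _ hM0) h0.1 h0.2.2.1
    have h2 : n % M ∈ KK M (fun m => C3 m ∧ ¬ C7 m) s' k c :=
      KKm (Nat.mod_lt _ hM0) h0.1 h0.2.2.2
    obtain ⟨h3, h4⟩ := (mJ d120 hM0 (Pool.Agent.N916.PQ.per3.not.and per5)).1 h1
    exact ⟨h3, h4, ((m21 d168 hM0 (L21.per3.and L21.per7.not)).1 h2).2⟩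
  rcases H.hs with hs | hs
  · refine j_e d168 hM0 H hs (fun n hn => ⟨(hcl n hn).1, (hcl n hn).2.2⟩)
      (ff := fun p => Pool.Agent.N875.X15.ra p 5) (fun p q hp hq hpc hqc hu hnr => ?_)
      (isEX d120 hM0 H hs hcl)
    rw [hf5 d5 q hq hqc, hf5 d5 p hp hpc,
      hnr 5 (Nat.mem_primeFactors.2 ⟨by norm_num, d5, hM0.ne'⟩), hu]
  · refine JE.em fun n hn => ?_
    have h1 := hK _ hn
    have h2 := sgn_neg H hs h1.1
    have := h1.2.1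
    omega

end Pool.Agent.N877.JX
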