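import Pool.Agent.N975.JT.S21
import Pool.Agent.N877.JX.Xor

/-!
# JX: bordered matrices, a column given by two primes
-/

set_option autoImplicit false
set_option linter.all false

open scoped Classical

namespace Pool.Agent.N877.JX

open Finset Filter
open Pool.Agent.Y703.CQ (nr sg)
open Pool.Agent.N973.ND (uu nr_rec nr_self)
open Pool.Agent.N916.GB (Po sx pt Vt eta sy Ev Gv Gd z2_add_self Ev_inl Ev_inr)
open Pool.Agent.N958.GB (lb rr rr_inj rr_im NR sgm two_tuples rec_NR ud wd z2 mem_Vt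
  Vt_sub sy_ne Gd_iff)
open Pool.Agent.N875.X15 (PR ra sgp d2 oe ch)
open Pool.Agent.N875.P17 (al ra_rec al_odd ra_neg_one)
open Pool.Agent.N809.PQ hiding z2 vc G15
open Pool.Agent.N916.AM (Nd Rich Bs sub_Bs uu_mod nr_Bs)
open Pool.Agent.N916.PQ
open Pool.Agent.N809.JT (J15)
open Pool.Agent.N972.JT (pre)

/-- the use of the nondegenerate labels, two further primes -/
theorem nd_use2 {M : ℕ} {ι : Type} [Fintype ι] {S₀ : Finset ℕ} {p : ι → ℕ} {t : Bool}
    (hM : 8 ∣ M) (hM0 : 0 < M) (hN : Nd M S₀ (univ.image p)) {g g' : ℕ}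
    (hg : g ∈ Bs M S₀) (hgV : g ∉ Vt t S₀) (hg' : g' ∈ Bs M S₀) (hgV' : g' ∉ Vt t S₀)
    (hgg : g ≠ g') (b : ↥(Vt t S₀) → ZMod 2) (a c : ZMod 2)
    (h : ∀ l, ∑ v, b v * nr (p l) v + a * (nr (p l) g + nr (p l) g') + c * uu (p l) = 0) :
    (∀ v, b v = 0) ∧ a = 0 ∧ c = 0 := by
  by_contra hcon
  set w : ℕ → ZMod 2 := fun n => if h : n ∈ Vt t S₀ then b ⟨n, h⟩ else
    if n = g ∨ n = g' then a else 0 with hw
  have hw1 : ∀ v : (Vt t S₀ : Finset ℕ), w v = b v := fun v => by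
    rw [hw]
    exact dif_pos v.2
  have hwg : w g = a := by
    rw [hw]
    show dite _ _ _ = _
    rw [dif_neg hgV, if_pos (Or.inl rfl)]
  have hwg' : w g' = a := by
    rw [hw]
    show dite _ _ _ = _
    rw [dif_neg hgV', if_pos (Or.inr rfl)]
  have hw2 : ∀ n, n ∉ insert g (insert g' (Vt t S₀)) → w n = 0 := fun n hn => by
    rw [mem_insert, not_or, mem_insert, not_or] at hn
    rw [hw]
    show dite _ _ _ = _
    rw [dif_neg hn.2.2, if_neg (by
      rintro (h | h)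
      · exact hn.1 h
      · exact hn.2.1 h)]
  have hsub : insert g (insert g' (Vt t S₀)) ⊆ Bs M S₀ := by
    intro x hx
    rcases mem_insert.1 hx with h | h
    · rw [h]
      exact hg
    · rcases mem_insert.1 h with h | h
      · rw [h]
        exact hg'
      · exact (Vt_sub t S₀).trans (sub_Bs hM hM0 S₀) h
  obtain ⟨x, hx, hx2⟩ := hN w c (by
    by_contra h0
    push Not at h0
    refine hcon ⟨fun v => ?_, ?_, h0.2⟩
    · rw [← hw1]
      exact h0.1 _ (hsub (mem_insert_of_mem (mem_insert_of_mem v.2)))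
    · rw [← hwg]
      exact h0.1 _ hg)
  obtain ⟨k, -, rfl⟩ := mem_image.1 hx
  apply hx2
  have c2 : ∑ v ∈ insert g (insert g' (Vt t S₀)), w v * nr (p k) v =
      ∑ v ∈ Bs M S₀, w v * nr (p k) v :=
    sum_subset hsub fun x _ hx => by rw [hw2 x hx, zero_mul]
  have c3 : ∑ v : (Vt t S₀ : Finset ℕ), b v * nr (p k) v = ∑ v ∈ Vt t S₀, w v * nr (p k) v := by
    rw [← Finset.sum_coe_sort (Vt t S₀)]
    refine sum_congr rfl fun v _ => ?_
    rw [hw1]
  rw [← c2, sum_insert (by rw [mem_insert, not_or]; exact ⟨hgg, hgV⟩), sum_insert hgV', hwg, hwg',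
    ← c3, ← h k]
  ring

theorem j_b2 {M : ℕ} (hM : 8 ∣ M) (hM0 : 0 < M) {t : Bool} {r s : ZMod 2} {K : Finset ℕ}
    (htr : t = true → r ≠ 0 ∨ s ≠ 0) {g g' h : ℕ} (hg : g ∈ M.primeFactors) (hg2 : g ≠ 2)
    (hg' : g' ∈ M.primeFactors) (hg2' : g' ≠ 2) (hgg : g ≠ g')
    (hh : h ∈ M.primeFactors) (hh2 : h ≠ 2) (hgK : ∀ a ∈ K, ¬ g ∣ a) (hgK' : ∀ a ∈ K, ¬ g' ∣ a)
    (hhK : ∀ a ∈ K, ¬ h ∣ a)
    {fu fw : ℕ → ZMod 2} {e x0 κ a0 κ' : ZMod 2}
    (hfu : ∀ p, Po p → p.Coprime M → fu p = nr p g + nr p g' + κ * uu p)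
    (hfw : ∀ p, Po p → p.Coprime M → fw p = a0 * nr p h + κ' * uu p) (ha0 : a0 = 1 ∨ κ' = 1)
    {G : Finset ℕ → Prop} (hG : IsB M K t r s fu fw e x0 G) : J15 M K t r s G := by
  intro ι _ _ _ S₀ p hS₀ hp hpi hpK hN
  set r₀ := rr t S₀ p with hr₀
  have hrp : ∀ i, (r₀ i).Prime := prm hS₀ hp
  have hrinj : Function.Injective r₀ := rr_inj t hpi (fun i => (hp i).2.1) fun i => (hp i).1.2
  obtain ⟨m1, m2, m3⟩ := pre hS₀ hpK hpi (fun i => (hp i).1) (fun i => (hp i).2.1) fun i => rfl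
  have hnd : ∀ {g : ℕ}, g ∈ M.primeFactors → g ≠ 2 → (∀ a ∈ K, ¬ g ∣ a) →
      g ∈ Bs M S₀ ∧ g ∉ Vt t S₀ := by
    intro g hg hg2 hgK
    refine ⟨mem_union_right _ hg, fun h => ?_⟩
    rcases mem_Vt.1 h with h | h
    · exact hg2 h.2
    · refine hgK _ hpK ?_
      rw [Nat.dvd_mod_iff (Nat.dvd_of_mem_primeFactors hg)]
      exact Dvd.dvd.mul_right (dvd_prod_of_mem (fun x => x) h) _
  obtain ⟨hgB, hgV⟩ := hnd hg hg2 hgK
  obtain ⟨hgB', hgV'⟩ := hnd hg' hg2' hgK'
  obtain ⟨hhB, hhV⟩ := hnd hh hh2 hhK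
  obtain ⟨-, k1, k2, k3⟩ := hG _ r₀ (S₀ ∪ univ.image p) m1 m2 m3 hrinj (rr_im t)
  have hN1 : ∀ (v : (Vt t S₀ : Finset ℕ)) (l : ι), NR r s r₀ (Sum.inl v) (Sum.inr l) = nr (p l) v :=
    fun v l => sy_ne r s (hp l).1.2
  have hud : ∀ l : ι, ud s r₀ (Sum.inr l) = uu (p l) := fun l => if_neg (hp l).1.2
  have hwd : ∀ l : ι, wd r r₀ (Sum.inr l) = 1 := fun l => if_neg (hp l).1.2
  have hnr : ∀ (b : ↥(Vt t S₀) → ZMod 2) (a : ZMod 2), (∀ l, ∑ v, b v *
      NR r s r₀ (Sum.inl v) (Sum.inr l) + a * fw (r₀ (Sum.inr l)) = 0) → (∀ v, b v = 0) ∧ a = 0 := by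
    intro b a hb
    obtain ⟨h3, h4, h5⟩ := nd_use hM hM0 hN hhB hhV b (a * a0) (a * κ') fun l => by
      have h6 := hb l
      have h7 : fw (r₀ (Sum.inr l)) = a0 * nr (p l) h + κ' * uu (p l) :=
        hfw (p l) (hp l).1 (hp l).2.2
      simp only [hN1] at h6
      rw [h7] at h6
      rw [← h6]
      ring
    refine ⟨h3, ?_⟩
    rcases ha0 with h6 | h6
    · rw [h6, mul_one] at h4
      exact h4
    · rw [h6, mul_one] at h5
      exact h5
  have hnc : ∀ (b : ↥(Vt t S₀) → ZMod 2) (a : ZMod 2), (∀ l, ∑ v, b v *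
      NR r s r₀ (Sum.inr l) (Sum.inl v) + a * fu (r₀ (Sum.inr l)) = 0) → (∀ v, b v = 0) ∧ a = 0 := by
    intro b a hb
    obtain ⟨h3, h4, h5⟩ := nd_use2 hM hM0 hN hgB hgV hgB' hgV' hgg
      (fun v => b v * wd r r₀ (Sum.inl v)) a
      (∑ v, b v * ud s r₀ (Sum.inl v) + a * κ) fun l => by
      have h6 := hb l
      have h7 : fu (r₀ (Sum.inr l)) = nr (p l) g + nr (p l) g' + κ * uu (p l) :=
        hfu (p l) (hp l).1 (hp l).2.2
      rw [h7] at h6
      have h8 : ∀ v, NR r s r₀ (Sum.inr l) (Sum.inl v) = wd r r₀ (Sum.inl v) * nr (p l) v +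
          ud s r₀ (Sum.inl v) * uu (p l) := by
        intro v
        have h9 := rec_NR r s hrinj hrp (Sum.inr l) (Sum.inl v) (by simp)
        rw [hwd, hud, one_mul, hN1] at h9
        have h10 := z2_add_self (wd r r₀ (Sum.inl v) * nr (p l) v)
        linear_combination h9 - h10
      simp only [h8] at h6
      rw [← h6, add_mul, sum_mul]
      simp only [mul_add, sum_add_distrib, mul_assoc]
      ring
    refine ⟨fun v => ?_, h4⟩
    rcases z2 (wd r r₀ (Sum.inl v)) with h6 | h6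
    · obtain ⟨h7, h8⟩ := uniq2 htr hS₀ v h6
      rw [h4, zero_mul, add_zero, sum_eq_single v] at h5
      · rw [h7, mul_one] at h5
        exact h5
      · intro v' _ hv'
        rcases z2 (wd r r₀ (Sum.inl v')) with h9 | h9
        · exact absurd (h8 v' h9).symm hv'
        · have : b v' * wd r r₀ (Sum.inl v') = 0 := h3 v'
          rw [h9, mul_one] at this
          rw [this, zero_mul]
      · intro h
        exact absurd (mem_univ v) h
    · have : b v * wd r r₀ (Sum.inl v) = 0 := h3 v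
      rw [h6, mul_one] at this
      exact this
  refine ⟨Option (Vt t S₀ : Finset ℕ), Option (Vt t S₀ : Finset ℕ), inferInstance, inferInstance,
    Mt (NR r s r₀) (fun i => fu (r₀ i)) (fun i => fw (r₀ i)) e, vc (wd r r₀) x0,
    vc (fun _ => 1) 0, ?_, rfl, ?_, fun k l => rfl, ?_⟩
  · refine ⟨hwd, fun l => rfl, ?_, ?_, ?_, ?_, ?_⟩
    · intro c
      unfold vc Mt
      rw [sum_ph (fun o => Option.elim o x0 (wd r r₀) *
        Bm (NR r s r₀) (fun i => fu (r₀ i)) (fun i => fw (r₀ i)) e o (ph c)), Fintype.sum_option]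
      rcases ph c with _ | j
      · show x0 * e + ∑ i, wd r r₀ i * fu (r₀ i) = 0
        rw [← k3, add_comm]
        congr 1
        exact sum_congr rfl fun i _ => mul_comm _ _
      · show x0 * fw (r₀ j) + ∑ i, wd r r₀ i * Lm (NR r s r₀) i j = 0
        rw [← k2 j, add_comm]
        congr 1
        exact sum_congr rfl fun i _ => mul_comm _ _
    · intro i
      have h := ev_vc (NR r s r₀) (fun i => fu (r₀ i)) (fun i => fw (r₀ i)) e (fun _ => 1) 0 i
      unfold ev at h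
      rw [h]
      rcases ph i with _ | i
      · show ∑ j, fw (r₀ j) * 1 + 0 * e = 0
        rw [zero_mul, add_zero]
        simp only [mul_one]
        exact k1
      · show Ev (NR r s r₀) (fun _ => 1) i + 0 * fu (r₀ i) = 0
        rw [Pool.Agent.N916.GB.Ev_const, zero_mul, add_zero]
    · intro b hb
      have h := hnr (fun v => b (some v)) (b none) fun l => by
        have h1 := hb l
        rw [Fintype.sum_option] at h1
        rw [← h1, add_comm]
        congr 1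
        refine sum_congr rfl fun v _ => ?_
        have h2 : Mt (NR r s r₀) (fun i => fu (r₀ i)) (fun i => fw (r₀ i)) e (Sum.inl (some v))
            (Sum.inr l) = NR r s r₀ (Sum.inl v) (Sum.inr l) := Lm_ne _ (by simp)
        rw [h2]
      intro r
      rcases r with _ | v
      · exact h.2
      · exact h.1 v
    · intro b hb
      have h := hnc (fun v => b (some v)) (b none) fun l => by
        have h1 := hb l
        rw [Fintype.sum_option] at h1
        rw [← h1, add_comm]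
        congr 1
        · exact mul_comm _ _
        · refine sum_congr rfl fun v _ => ?_
          have h2 : Mt (NR r s r₀) (fun i => fu (r₀ i)) (fun i => fw (r₀ i)) e (Sum.inr l)
            (Sum.inl (some v)) = NR r s r₀ (Sum.inr l) (Sum.inl v) := Lm_ne _ (by simp)
          rw [h2, mul_comm]
      intro r
      rcases r with _ | v
      · exact h.2
      · exact h.1 v
    · intro k l hkl
      have h := rec_NR r s hrinj hrp (Sum.inr k) (Sum.inr l) fun h => hkl (Sum.inr_injective h)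
      rw [hwd, hwd, one_mul, one_mul] at h
      rw [← h]
      show Lm (NR r s r₀) (Sum.inr k) (Sum.inr l) + Lm (NR r s r₀) (Sum.inr l) (Sum.inr k) = _
      rw [Lm_ne _ fun h => hkl (Sum.inr_injective h), Lm_ne _ fun h => hkl (Sum.inr_injective h).symm]
  · rw [Fintype.card_option]
  · intro q hqi hq
    obtain ⟨a1, a2, a3, a4⟩ := two_q (t := t) (r := r) (s := s) hM hM0 hS₀ hp hpi hqi hq
    obtain ⟨n1, n2, n3⟩ := pre hS₀ hpK hqi (fun i => (hq i).1) (fun i => (hq i).2.1)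
      fun i => (hq i).2.2.1
    obtain ⟨b1, -⟩ := hG _ (rr t S₀ q) (S₀ ∪ univ.image q) n1 n2 n3
      (rr_inj t hqi (fun i => (hq i).2.1) fun i => (hq i).1.2) (rr_im t)
    rw [b1, a1]
    have c1 : (fun i => fu (rr t S₀ q i)) = fun i => fu (r₀ i) := by
      funext i
      rcases i with v | k
      · rfl
      · show fu (q k) = fu (p k)
        rw [hfu _ (hq k).1 (a2 k), hfu _ (hp k).1 (hp k).2.2, a3 k g hgB, a3 k g' hgB', a4 k]
    have c2 : (fun i => fw (rr t S₀ q i)) = fun i => fw (r₀ i) := by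
      funext i
      rcases i with v | k
      · rfl
      · show fw (q k) = fw (p k)
        rw [hfw _ (hq k).1 (a2 k), hfw _ (hp k).1 (hp k).2.2, a3 k h hhB, a4 k]
    rw [c1, c2, Gc_Kb]

/-- **the sum of two criteria with the same row** -/
theorem isB_xor {M : ℕ} {K : Finset ℕ} {t : Bool} {r s : ZMod 2} {fu fu' fw : ℕ → ZMod 2}
    {e e' x0 : ZMod 2} {G G' : Finset ℕ → Prop}
    (hX : x0 ≠ 0 ∨ ∀ (V : Type) [Fintype V] (ρ : V → ℕ) (S : Finset ℕ), (∀ v ∈ S, Po v) →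
      S.Nonempty → univ.image ρ = Vt t S → ∃ i, wd r ρ i ≠ 0)
    (h : IsB M K t r s fu fw e x0 G) (h' : IsB M K t r s fu' fw e' x0 G') :
    IsB M K t r s (fun p => fu p + fu' p) fw (e + e') x0 (fun S => Xor' (G S) (G' S)) := by
  intro V _ ρ S hS hK hne hρ him
  obtain ⟨a1, a2, a3, a4⟩ := h V ρ S hS hK hne hρ him
  obtain ⟨b1, -, -, b4⟩ := h' V ρ S hS hK hne hρ him
  obtain ⟨i, -⟩ := ne_V hne him
  haveI : Nonempty V := ⟨i⟩
  have hX' : (∃ i, wd r ρ i ≠ 0) ∨ x0 ≠ 0 := by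
    rcases hX with h | h
    · exact Or.inr h
    · exact Or.inl (h V ρ S hS hne him)
  refine ⟨?_, a2, a3, ?_⟩
  · show Xor' (G S) (G' S) ↔ _
    rw [a1, b1]
    exact (Kb_xor hX' a2 a3 a4 b4).symm
  · have : ∑ i, (fu (ρ i) + fu' (ρ i)) * wd r ρ i = ∑ i, fu (ρ i) * wd r ρ i +
        ∑ i, fu' (ρ i) * wd r ρ i := by
      rw [← sum_add_distrib]
      exact sum_congr rfl fun i _ => add_mul _ _ _
    rw [this]
    linear_combination a4 + b4

end Pool.Agent.N877.JX
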