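import Pool.Agent.N877.JX.Me
import Pool.Agent.N877.JX.Fr

/-!
# JX: the exceptional class jointly with level 17
-/

set_option autoImplicit false
set_option linter.all false

open scoped Classical

namespace Pool.Agent.N877.JX

open Finset Module
open Pool.Agent.N916.GB (pt ps sx eta)
open Pool.Agent.Y703.CQ (c2)
open Pool.Agent.N916.MO
open Pool.Agent.N916.PQ (Hy Gc Kr Gd2 Ty IsS)
open Pool.Agent.N809.JT (Mτ isS_mv G2 G2.mono link_mv sum_mv few17 few_lin bad card_bad Hy_mv
  card_le_J)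

theorem ec : 0 ≤ 4 / 3 * eta * c2 ∧ 4 / 3 * eta * c2 ≤ 1 := by
  obtain ⟨h1, h2⟩ := Pool.Agent.N916.PQ.eta01
  have h3 := Pool.Agent.N916.PQ.L21.eta_half
  obtain ⟨h4, h5⟩ := Pool.Agent.N916.MO.c201
  constructor
  · positivity
  · calc 4 / 3 * eta * c2 ≤ 4 / 3 * (1 / 2) * 1 := by gcongr
      _ ≤ 1 := by norm_num

/-- the link after moving `k1` -/
theorem link_mvT {U J R C : Type} [Fintype U] [DecidableEq U] [Fintype J] [LinearOrder J]
    [Fintype R] [Fintype C] {k1 : J} {N : U ⊕ J → U ⊕ J → ZMod 2} {A : R ⊕ J → C ⊕ J → ZMod 2}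
    (hA : ∀ k l, A (Sum.inr k) (Sum.inr l) = Lm N (Sum.inr l) (Sum.inr k))
    (τ : Ix k1 → ZMod 2) (k l : Ix k1) :
    Lm (Nt N τ) (Sum.inr k) (Sum.inr l) = Mτ A τ (Sum.inr l) (Sum.inr k) := by
  have h := link_mv (R := C) (C := R) (A := fun i j => A j i) (N := N) (fun k l => hA l k) τ k l
  rw [h]
  show A (Sum.inr (l : J)) (Sum.inr (k : J)) + (if k = l then τ k else 0) =
    A (Sum.inr (l : J)) (Sum.inr (k : J)) + (if l = k then τ l else 0)
  by_cases h : k = l
  · rw [h]
  · rw [if_neg h, if_neg fun h' => h h'.symm]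

/-- **joint, positive discriminants, exceptional class** -/
theorem ja_pE (ε : ℝ) (hε : 0 < ε) : ∃ V₀ : ℕ, ∀ (U J R C : Type) [Fintype U]
    [DecidableEq U] [Fintype J] [LinearOrder J] [Fintype R] [Fintype C]
    (w u ν : U ⊕ J → ZMod 2) (N : U ⊕ J → U ⊕ J → ZMod 2) (A : R ⊕ J → C ⊕ J → ZMod 2)
    (X : R ⊕ J → ZMod 2) (Y : C ⊕ J → ZMod 2)
    (S : (C ⊕ J → ZMod 2) → (C ⊕ J → ZMod 2) → ZMod 2) (d : J → ZMod 2),
    (∀ k, w (Sum.inr k) = 1) → ∑ i, u i = 0 → ∑ i, ν i = 0 →
    (∀ i j, i ≠ j → w i * N i j + w j * N j i = u i * u j) →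
    (∀ v, w (Sum.inl v) = 0 → u (Sum.inl v) = 1 ∧ ∀ v', w (Sum.inl v') = 0 → v = v') →
    NDg N u ν →
    Hy A X Y (fun k => u (Sum.inr k)) → Fintype.card C = Fintype.card R + 2 →
    Fintype.card R ≤ Fintype.card U →
    (∀ k l, A (Sum.inr k) (Sum.inr l) = Lm N (Sum.inr l) (Sum.inr k)) →
    (∀ a b c, S a (b + c) = S a b + S a c) → (∀ a b, S a b = S b a) → (∀ a, S a a = 0) →
    Ty S d (Fintype.card R + 6) →
    (∀ (σ : ps J → ZMod 2) (k k' : J), Gd2 A k S (sx σ) ↔ Gd2 A k' S (sx σ)) →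
    V₀ * (Fintype.card U + 1) ≤ (univ.filter fun k : J => d k = 1).card →
    V₀ * (Fintype.card U + 1) ≤ (univ.filter fun k : J => d k + u (Sum.inr k) = 1).card →
    V₀ * (Fintype.card U + 1) ≤ (univ.filter fun k : J => ν (Sum.inr k) = 1).card →
    V₀ * (Fintype.card U + 1) ≤ (univ.filter fun k : J => u (Sum.inr k) = 1).card →
    V₀ * (Fintype.card U + 1) ≤ (univ.filter fun k : J => ν (Sum.inr k) ≠ u (Sum.inr k)).card →
    V₀ * (Fintype.card U + 1) ≤
      (univ.filter fun k : J => ν (Sum.inr k) = 1 ∧ u (Sum.inr k) = 1).card → ∀ kk : J,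
    |((univ.filter fun σ : ps J → ZMod 2 => Gd2 A kk S (sx σ) ∧
      Kx ν u (Lm (pt N (sx σ)))).card : ℝ) / 2 ^ (ps J).card - 4 / 3 * eta * c2| ≤ ε := by
  obtain ⟨V, hV⟩ := estE (ε / 2) (by positivity)
  obtain ⟨n, hn⟩ : ∃ n : ℕ, (1 : ℝ) / 2 ^ n ≤ ε / 2 := by
    obtain ⟨n, h⟩ := exists_pow_lt_of_lt_one (show (0 : ℝ) < ε / 2 by positivity)
      (show (1 / 2 : ℝ) < 1 by norm_num)
    refine ⟨n, ?_⟩
    rw [one_div_pow] at h
    exact h.le
  refine ⟨9 * V + n + 20, ?_⟩
  intro U J R C _ _ _ _ _ _ w u ν N A X Y S d hw hu hν hN hw0 hnd hH hCR hR hA s1 s2 s3 ty hkk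
    q1' q2' r1 r2 r3 r4 kk
  have e0 : (9 * V + n + 20) * (Fintype.card U + 1) = V * (Fintype.card U + 8 + 1) +
      8 * (V * Fintype.card U) + n * Fintype.card U + n + 20 * Fintype.card U + 20 := by ring
  have e1 := Nat.zero_le (V * Fintype.card U)
  have e2 := Nat.zero_le (n * Fintype.card U)
  -- the choice of `k1`
  obtain ⟨J₀, j1, j2⟩ := few17 hnd
  obtain ⟨J₁, j3, j4⟩ := few_lin (fun (r : R) (l : J) => A (Sum.inl r) (Sum.inr l))
    (fun b hb => hH.nr b hb)
  obtain ⟨J₂, j5, j6⟩ := few_lin (fun (c : C) (l : J) => A (Sum.inr l) (Sum.inl c))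
    (fun b hb => hH.nc b fun l => by
      rw [← hb l]
      exact sum_congr rfl fun c _ => mul_comm _ _)
  obtain ⟨k1, hk1, hk2⟩ : ∃ k1 ∈ univ.filter (fun k : J => ν (Sum.inr k) = 1 ∧ u (Sum.inr k) = 1),
      k1 ∉ J₀ ∪ J₁ ∪ J₂ := by
    by_contra hc
    push Not at hc
    have h1 := card_le_card (show univ.filter (fun k : J => ν (Sum.inr k) = 1 ∧
      u (Sum.inr k) = 1) ⊆ J₀ ∪ J₁ ∪ J₂ from fun k hk => hc k hk)
    have h2 := card_union_le (J₀ ∪ J₁) J₂
    have h3 := card_union_le J₀ J₁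
    omega
  have hk1 := (mem_filter.1 hk1).2
  rw [mem_union, mem_union, not_or, not_or] at hk2
  obtain ⟨⟨m1, m2⟩, m3⟩ := hk2
  have hnd1 := j2 k1 m1
  have hr1 : ∀ b : R → ZMod 2, (∀ l : Ix k1, ∑ r, b r * A (Sum.inl r) (Sum.inr (l : J)) = 0) →
      ∀ r, b r = 0 := by
    intro b hb
    refine j4 b fun l hl => ?_
    exact hb ⟨l, fun h => m2 (h ▸ hl)⟩
  have hc1 : ∀ b : C → ZMod 2, (∀ l : Ix k1, ∑ c, A (Sum.inr (l : J)) (Sum.inl c) * b c = 0) →
      ∀ c, b c = 0 := by
    intro b hb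
    refine j6 b fun l hl => ?_
    rw [← hb ⟨l, fun h => m3 (h ▸ hl)⟩]
    exact sum_congr rfl fun c _ => mul_comm _ _
  have hbad := bad_tau hnd1
  have hbad' := card_bad k1 A
  -- the cardinality of `J`
  have hJ1 := card_le_J (fun k : J => ν (Sum.inr k) = 1)
  have hIx : Fintype.card (Ix k1) = Fintype.card J - 1 := by
    have := Fintype.card_subtype_compl (fun k : J => k = k1)
    rw [Fintype.card_subtype_eq] at this
    exact this
  have rich : ∀ P : J → Prop, (9 * V + n + 20) * (Fintype.card U + 1) ≤ (univ.filter P).card →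
      V * (Fintype.card U + 8 + 1) ≤ (univ.filter fun k : Ix k1 => P k).card := by
    intro P hP
    have h1 : (univ.filter P) ⊆ insert k1 ((univ.filter fun k : Ix k1 => P k).image
        (Subtype.val : Ix k1 → J)) := by
      intro k hk
      by_cases h : k = k1
      · rw [h]
        exact mem_insert_self _ _
      · exact mem_insert_of_mem (mem_image.2 ⟨⟨k, h⟩, mem_filter.2 ⟨mem_univ _,
          (mem_filter.1 hk).2⟩, rfl⟩)
    have h2 := (card_le_card h1).trans (card_insert_le _ _)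
    have h5 : ((univ.filter fun k : Ix k1 => P k).image (Subtype.val : Ix k1 → J)).card ≤
        (univ.filter fun k : Ix k1 => P k).card := card_image_le
    omega
  -- a normalising index
  obtain ⟨k2⟩ : Nonempty (Ix k1) := by
    rw [← Fintype.card_pos_iff, hIx]
    omega
  -- the good choices
  set D : ℝ := 2 ^ (ps (Ix k1)).card with hD
  set K : ℝ := 2 ^ Fintype.card (Ix k1) with hK
  set F : (Ix k1 → ZMod 2) → (ps (Ix k1) → ZMod 2) → Prop := fun τ σ' =>
    Gd2 (Mτ A τ) k2 (Smv k1 S) (sx σ') ∧ Kx (fun i => ν (mve k1 i))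
      (fun i => u (mve k1 i)) (Lm (pt (Nt N τ) (sx σ'))) with hF
  have hkk' : ∀ (τ : Ix k1 → ZMod 2) (σ' : ps (Ix k1) → ZMod 2) (k k' : Ix k1),
      Gd2 (Mτ A τ) k (Smv k1 S) (sx σ') ↔ Gd2 (Mτ A τ) k' (Smv k1 S) (sx σ') := by
    intro τ σ' k k'
    obtain ⟨σ, hσ⟩ := tr_surj (k1 := k1) (τ, σ')
    have h1 : tau k1 σ = τ := congrArg Prod.fst hσ
    have h2 : res k1 σ = σ' := congrArg Prod.snd hσ
    rw [← h1, ← h2, ← Gd2_mv, ← Gd2_mv]
    exact hkk σ _ _
  have hgood : ∀ τ : Ix k1 → ZMod 2, NDg (Nt N τ) (fun i => u (mve k1 i)) (fun i => ν (mve k1 i)) →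
      ¬ bad k1 A τ → |((univ.filter fun σ' => F τ σ').card : ℝ) / D - 4 / 3 * eta * c2| ≤ ε / 2 := by
    intro τ hτ hτ'
    have hG : G2 (Fintype.card U + 8) (fun k : Ix k1 => ν (Sum.inr (k : J)))
        (fun k : Ix k1 => u (Sum.inr (k : J)))
        (fun k l : Ix k1 => Lm (Nt N τ) (Sum.inr k) (Sum.inr l))
        (fun σ' => Kx (fun i => ν (mve k1 i)) (fun i => u (mve k1 i))
          (Lm (pt (Nt N τ) (sx σ')))) := by
      refine G2.mono (n := Fintype.card U) (by omega) ?_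
      refine Pool.Agent.N809.JT.g2_p (w := fun i => w (mve k1 i)) (u := fun i => u (mve k1 i))
        (ν := fun i => ν (mve k1 i)) (N := Nt N τ) (fun k => hw _) hk1.1 hk1.2 ?_ ?_ ?_ ?_ hτ
        (by omega)
      · rw [Equiv.sum_comp (mve k1) u]
        exact hu
      · rw [Equiv.sum_comp (mve k1) ν]
        exact hν
      · intro i j hij
        have h1 := hN (mve k1 i) (mve k1 j) (fun h => hij ((mve k1).injective h))
        have h2 : w (mve k1 i) * tq τ i j + w (mve k1 j) * tq τ j i = 0 := by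
          rcases i with (_ | v) | k <;> rcases j with (_ | v') | l
          · exact absurd rfl hij
          · show _ * 0 + _ * 0 = (0 : ZMod 2); ring
          · show w (Sum.inr k1) * τ l + w (Sum.inr (l : J)) * τ l = 0
            rw [hw, hw, one_mul, Pool.Agent.N916.GB.z2_add_self]
          · show _ * 0 + _ * 0 = (0 : ZMod 2); ring
          · show _ * 0 + _ * 0 = (0 : ZMod 2); ring
          · show _ * 0 + _ * 0 = (0 : ZMod 2); ring
          · show w (Sum.inr (k : J)) * τ k + w (Sum.inr k1) * τ k = 0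
            rw [hw, hw, one_mul, Pool.Agent.N916.GB.z2_add_self]
          · show _ * 0 + _ * 0 = (0 : ZMod 2); ring
          · show _ * 0 + _ * 0 = (0 : ZMod 2); ring
        show w (mve k1 i) * (N (mve k1 i) (mve k1 j) + tq τ i j) +
          w (mve k1 j) * (N (mve k1 j) (mve k1 i) + tq τ j i) = _
        rw [← h1]
        have e : ∀ a b x y p q : ZMod 2, a * x + b * y = 0 → a * (p + x) + b * (q + y) =
          a * p + b * q := by decide
        exact e _ _ _ _ _ _ h2
      · intro o ho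
        rcases o with _ | v
        · have h1 : w (Sum.inr k1) = 0 := ho
          rw [hw] at h1
          exact absurd h1 (by decide)
        · obtain ⟨h1, h2⟩ := hw0 v ho
          refine ⟨h1, fun v' hv' => ?_⟩
          rcases v' with _ | v'
          · have h1 : w (Sum.inr k1) = 0 := hv'
            rw [hw] at h1
            exact absurd h1 (by decide)
          · rw [h2 v' hv']
    have hT : Ty (Smv k1 S) (fun k : Ix k1 => d k) (Fintype.card U + 8) := by
      obtain ⟨I, i1, ℓ, g, hI, hS⟩ := Ty_mv (k1 := k1) ty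
      exact ⟨I, i1, ℓ, g, by omega, hS⟩
    exact hV (Option R) (Option C) (Ix k1) (Mτ A τ) (fun i => X (mve k1 i))
      (fun j => Y (mve k1 j)) (fun k => ν (Sum.inr (k : J))) (fun k => u (Sum.inr (k : J)))
      (fun k l => Lm (Nt N τ) (Sum.inr k) (Sum.inr l)) _ (Smv k1 S) (fun k : Ix k1 => d k)
      (Fintype.card U + 8)
      (Hy_mv hH hr1 hc1 hτ') (by rw [Fintype.card_option, Fintype.card_option, hCR])
      (by rw [Fintype.card_option]; omega) hG (fun k l => link_mvT hA τ k l)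
      (fun a b c => s1 _ _ _) (fun a b => s2 _ _) (fun a => s3 _) hT (hkk' τ)
      (by convert rich (fun k => d k = 1) (by convert q1'))
      (by convert rich (fun k => d k + u (Sum.inr k) = 1) (by convert q2'))
      (by convert rich (fun k => ν (Sum.inr k) = 1) (by convert r1))
      (by convert rich (fun k => u (Sum.inr k) = 1) (by convert r2))
      (by convert rich (fun k => ν (Sum.inr k) ≠ u (Sum.inr k)) (by convert r3)) k2
  -- the average
  set B : (Ix k1 → ZMod 2) → ℝ := fun τ => ((univ.filter fun σ' => F τ σ').card : ℝ) with hB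
  have hD0 : 0 < D := by positivity
  have hK0 : 0 < K := by positivity
  have hc2 := ec
  have q1 : ((univ.filter fun σ : ps J → ZMod 2 => Gd2 A kk S (sx σ) ∧
      Kx ν u (Lm (pt N (sx σ)))).card : ℝ) = ∑ τ, B τ := by
    have h0 := card_tr (k1 := k1) F
    have h1 : (univ.filter fun σ : ps J → ZMod 2 => Gd2 A kk S (sx σ) ∧
        Kx ν u (Lm (pt N (sx σ)))).card = (@Finset.filter (ps J → ZMod 2)
          (fun σ => F (tau k1 σ) (res k1 σ)) (fun a => Classical.propDecidable _) univ).card := by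
      refine congrArg Finset.card (Finset.ext fun σ => ?_)
      simp only [mem_filter, mem_univ, true_and]
      exact and_congr ((hkk σ kk (k2 : J)).trans (Gd2_mv S σ k2)) (Kx_mv (k1 := k1) N σ)
    refine (congrArg (Nat.cast : ℕ → ℝ) h1).trans (h0.trans ?_)
    refine sum_congr rfl fun τ _ => ?_
    refine congrArg (Nat.cast : ℕ → ℝ) (congrArg Finset.card (Finset.ext fun σ => ?_))
    simp only [mem_filter, mem_univ, true_and]
  have hBD : ∀ τ, 0 ≤ B τ / D ∧ B τ / D ≤ 1 := by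
    intro τ
    refine ⟨by positivity, ?_⟩
    rw [div_le_one hD0, hB, hD]
    have h1 : (univ.filter fun σ' => F τ σ').card ≤ 2 ^ (ps (Ix k1)).card := by
      refine (card_le_card (filter_subset _ _)).trans ?_
      rw [Finset.card_univ, Fintype.card_fun, ZMod.card, Fintype.card_coe]
    have h2 : (((univ.filter fun σ' => F τ σ').card : ℕ) : ℝ) ≤
        ((2 ^ (ps (Ix k1)).card : ℕ) : ℝ) := Nat.cast_le.2 h1
    rw [Nat.cast_pow, Nat.cast_ofNat] at h2
    exact h2
  have q2 : ∀ τ, |B τ / D - 4 / 3 * eta * c2| ≤ ε / 2 + ((if ¬ NDg (Nt N τ) (fun i => u (mve k1 i))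
      (fun i => ν (mve k1 i)) then 1 else 0) + if bad k1 A τ then 1 else 0) := by
    intro τ
    have := hBD τ
    by_cases h : NDg (Nt N τ) (fun i => u (mve k1 i)) (fun i => ν (mve k1 i))
    · rw [if_neg (not_not.2 h), zero_add]
      by_cases h' : bad k1 A τ
      · rw [if_pos h', abs_le]
        constructor <;> linarith [this.1, this.2, hc2.1, hc2.2]
      · rw [if_neg h', add_zero]
        exact hgood τ h h'
    · rw [if_pos h, abs_le]
      have h3 : (0 : ℝ) ≤ if bad k1 A τ then 1 else 0 := by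
        split_ifs <;> norm_num
      constructor <;> linarith [this.1, this.2, hc2.1, hc2.2]
  have q3 : |∑ τ, (B τ / D - 4 / 3 * eta * c2)| ≤ K * (ε / 2) + (2 ^ (Fintype.card U + 2) +
      (2 ^ Fintype.card R + 2 ^ Fintype.card C)) := by
    refine (abs_sum_le_sum_abs _ _).trans ((sum_le_sum fun τ _ => q2 τ).trans ?_)
    rw [sum_add_distrib, sum_const, Finset.card_univ, Fintype.card_fun, ZMod.card, nsmul_eq_mul]
    push_cast
    refine add_le_add le_rfl ?_
    rw [sum_add_distrib, sum_boole, sum_boole]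
    refine add_le_add ?_ ?_
    · exact_mod_cast hbad
    · exact_mod_cast hbad'
  have q4 : ((univ.filter fun σ : ps J → ZMod 2 => Gd2 A kk S (sx σ) ∧
      Kx ν u (Lm (pt N (sx σ)))).card : ℝ) / 2 ^ (ps J).card - 4 / 3 * eta * c2 =
      (∑ τ, (B τ / D - 4 / 3 * eta * c2)) / K := by
    rw [q1, card_ps (k1 := k1), ← hD, ← hK, sum_sub_distrib, sum_const, Finset.card_univ,
      Fintype.card_fun, ZMod.card, nsmul_eq_mul, ← sum_div]
    push_cast
    rw [← hK]
    field_simp
  rw [q4, abs_div, abs_of_pos hK0, div_le_iff₀ hK0]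
  refine q3.trans ?_
  have q5 : (2 : ℝ) ^ (Fintype.card U + 2) + (2 ^ Fintype.card R + 2 ^ Fintype.card C) ≤
      2 ^ (Fintype.card U + 4) := by
    have h1 : (2 : ℝ) ^ Fintype.card R ≤ 2 ^ (Fintype.card U + 2) :=
      pow_le_pow_right₀ (by norm_num) (by omega)
    have h2 : (2 : ℝ) ^ Fintype.card C ≤ 2 ^ (Fintype.card U + 2) :=
      pow_le_pow_right₀ (by norm_num) (by omega)
    have h3 : (2 : ℝ) ^ (Fintype.card U + 4) = 4 * 2 ^ (Fintype.card U + 2) := by ring
    have h4 : (0 : ℝ) ≤ 2 ^ (Fintype.card U + 2) := by positivity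
    linarith
  have q6 : (2 : ℝ) ^ (Fintype.card U + 4) ≤ ε / 2 * K := by
    have h1 : (2 : ℝ) ^ (Fintype.card U + 4) * 2 ^ n ≤ K := by
      rw [hK, ← pow_add]
      exact pow_le_pow_right₀ (by norm_num) (by omega)
    have h2 : (2 : ℝ) ^ (Fintype.card U + 4) ≤ K * (1 / 2 ^ n) := by
      rw [mul_one_div, le_div_iff₀ (by positivity)]
      exact h1
    refine h2.trans ?_
    rw [mul_comm]
    exact mul_le_mul_of_nonneg_right hn hK0.le
  linarith

end Pool.Agent.N877.JX
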