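import Pool.Agent.N877.JX.Je
import Pool.Agent.N877.JX.Hx

/-!
# JX: the hypothesis of the density machine, exceptional class jointly with level 17
-/

set_option autoImplicit false
set_option linter.all false

open scoped Classical

namespace Pool.Agent.N877.JX

open Finset Module
open Pool.Agent.N916.GB (pt ps sx eta Po Vt)
open Pool.Agent.Y703.CQ (c2 nr)
open Pool.Agent.N973.ND (uu nr_rec nr_self)
open Pool.Agent.N916.AM (LAH Nd Rich Bs sub_Bs uu_mod nr_Bs)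
open Pool.Agent.N958.GB (lb rr rr_inj rr_im NR sgm two_tuples rec_NR ud wd z2 mem_Vt Vt_sub sy_ne)
open Pool.Agent.N916.MO
open Pool.Agent.N916.PQ (Hy Gc Gd2 Ty PM PT prodS pm_all hg_one)
open Pool.Agent.N809.JT (J15 J17 ne_i Lm_eq enoughJ ndg17 det8)
open Pool.Agent.N919.BS (NN NS NF HG Rt17)
open Pool.Agent.N963.JT (Sp sp_rt ec01)
open Pool.Agent.N972.P17 (Sx Sr)
open Pool.Agent.N969.P17G (SxP)

/-- the criterion `G'` together with a system with a form -/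
def J17E (M : ℕ) (K : Finset ℕ) (t : Bool) (r s : ZMod 2) (G' : Finset ℕ → Prop) (η : ℝ) : Prop :=
  ∀ ε : ℝ, 0 < ε → ∃ V : ℕ, ∀ (ι : Type) [Fintype ι] [LinearOrder ι] (S₀ : Finset ℕ) (p : ι → ℕ),
    (∀ v ∈ S₀, Po v) → (∀ i, Po (p i) ∧ p i ∉ S₀ ∧ (p i).Coprime M) → Function.Injective p →
    ((∏ v ∈ S₀, v) * ∏ i, p i) % M ∈ K → Nd M S₀ (univ.image p) → Rich M V S₀ (univ.image p) →
    ∀ (R C : Type) [Fintype R] [Fintype C] (A : R ⊕ ι → C ⊕ ι → ZMod 2)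
      (X : R ⊕ ι → ZMod 2) (Y : C ⊕ ι → ZMod 2)
      (S : (C ⊕ ι → ZMod 2) → (C ⊕ ι → ZMod 2) → ZMod 2) (d : ι → ZMod 2),
      Hy A X Y (fun k => ud s (rr t S₀ p) (Sum.inr k)) → Fintype.card C = Fintype.card R + 2 →
      Fintype.card R ≤ Fintype.card (Vt t S₀ : Finset ℕ) →
      (∀ k l, A (Sum.inr k) (Sum.inr l) =
        Pool.Agent.N916.PQ.Lm (NR r s (rr t S₀ p)) (Sum.inr l) (Sum.inr k)) →
      (∀ a b c, S a (b + c) = S a b + S a c) → (∀ a b, S a b = S b a) → (∀ a, S a a = 0) →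
      Ty S d (Fintype.card R + 6) →
      (∀ l, p l % 168 = 5 → d l = 1 ∧ d l + ud s (rr t S₀ p) (Sum.inr l) = 1) →
      (∀ (σ : ps ι → ZMod 2) (k k' : ι), Gd2 A k S (sx σ) ↔ Gd2 A k' S (sx σ)) →
      ∀ k0 : ι, ∃ P : (ps ι → ZMod 2) → Prop,
        (∀ q : ι → ℕ, Function.Injective q → (∀ i, Po (q i) ∧ q i ∉ S₀ ∧ q i % M = p i % M ∧
          ∀ v ∈ S₀, nr (q i) v = nr (p i) v) →
          (G' (S₀ ∪ univ.image q) ↔ P (sgm q + sgm p))) ∧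
        |((univ.filter fun σ : ps ι → ZMod 2 => Gd2 A k0 S (sx σ) ∧ P σ).card : ℝ) /
          2 ^ (ps ι).card - η| ≤ ε

/-- **both criteria** -/
theorem lahjE {M : ℕ} (hM : 1 < M) {K : Finset ℕ} {t : Bool} {r s : ZMod 2}
    {G G' : Finset ℕ → Prop} {η : ℝ} (hE : JE M K t r s G) (h17 : J17E M K t r s G' η) :
    LAH M K (fun S => G S ∧ G' S) η := by
  intro ε hε
  obtain ⟨V, hV⟩ := h17 ε hε
  refine ⟨V + 1, ?_⟩
  intro ι _ _ S₀ p hS₀ hp hpi hpK hN hR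
  haveI := ne_i hM hR
  obtain ⟨R, C, _, _, A, X, Y, S, d, a1, a2, a3, a4, s1, s2, s3, ty, h5, hk, a5⟩ :=
    hE ι S₀ p hS₀ hp hpi hpK hN
  obtain ⟨k0⟩ := (inferInstance : Nonempty ι)
  obtain ⟨P, b1, b2⟩ := hV ι S₀ p hS₀ hp hpi hpK hN
    (Pool.Agent.N916.PQ.Rich.mono (Nat.le_succ V) hR) R C A X Y S d a1 a2 a3 a4 s1 s2 s3 ty h5 hk k0
  refine ⟨fun σ => Gd2 A k0 S (sx (σ + sgm p)) ∧ P (σ + sgm p), ?_, ?_⟩
  · intro q hqi hq
    exact and_congr (a5 q hqi hq k0) (b1 q hqi hq)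
  · rw [Pool.Agent.N916.PQ.shift_card (fun σ => Gd2 A k0 S (sx σ) ∧ P σ)]
    convert b2

theorem J17E.congr {M : ℕ} (hM : 1 < M) {K : Finset ℕ} {t : Bool} {r s : ZMod 2}
    {G G' : Finset ℕ → Prop} {η : ℝ}
    (h : ∀ S : Finset ℕ, (∀ v ∈ S, Po v) → (∏ v ∈ S, v) % M ∈ K → S.Nonempty → (G S ↔ G' S))
    (hL : J17E M K t r s G' η) : J17E M K t r s G η := by
  intro ε hε
  obtain ⟨V, hV⟩ := hL ε hε
  refine ⟨V + 1, ?_⟩
  intro ι _ _ S₀ p hS₀ hp hpi hpK hN hR R C _ _ A X Y S d a1 a2 a3 a4 s1 s2 s3 ty h5 hk k0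
  obtain ⟨i₀⟩ := ne_i hM hR
  obtain ⟨P, hQ, hQ2⟩ := hV ι S₀ p hS₀ hp hpi hpK hN
    (Pool.Agent.N916.PQ.Rich.mono (Nat.le_succ V) hR) R C A X Y S d a1 a2 a3 a4 s1 s2 s3 ty h5 hk k0
  refine ⟨P, ?_, hQ2⟩
  intro q hqi hq
  rw [← hQ q hqi hq]
  refine h _ ?_ ?_ ⟨q i₀, mem_union_right _ (mem_image_of_mem q (mem_univ i₀))⟩
  · intro v hv
    rcases mem_union.1 hv with h | h
    · exact hS₀ v h
    · obtain ⟨i, -, rfl⟩ := mem_image.1 h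
      exact (hq i).1
  · have hdis : Disjoint S₀ (univ.image q) := by
      rw [Finset.disjoint_left]
      intro x hx hx'
      obtain ⟨i, -, rfl⟩ := mem_image.1 hx'
      exact (hq i).2.1 hx
    rw [prod_union hdis, prod_image fun i _ j _ h => hqi h]
    have h1 : (∏ i, q i) % M = (∏ i, p i) % M := by
      rw [Finset.prod_nat_mod, Finset.prod_nat_mod univ M p]
      simp only [fun i => (hq i).2.2.1]
    rw [Nat.mul_mod, h1, ← Nat.mul_mod]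
    exact hpK

/-- **positive discriminants** -/
theorem j17_pE {M : ℕ} (hM : 136 ∣ M) (hM7 : 168 ∣ M) (hM0 : 0 < M) {t : Bool} {r s : ZMod 2}
    {K : Finset ℕ} (hts : t = false → s = 0) (htr : t = true → r ≠ 0 ∨ s ≠ 0)
    (hK : ∀ a ∈ K, a % 4 = (if s = 0 then 1 else 3) ∧ nr 17 a = 0 ∧ ¬ 17 ∣ a) :
    J17E M K t r s (Gu t r s) (4 / 3 * eta * c2) := by
  have h8 := (by norm_num : 8 ∣ 136).trans hM
  have h4M : (4 : ℕ) ∣ M := Dvd.dvd.trans (by norm_num) hM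
  have h17M : (17 : ℕ) ∣ M := Dvd.dvd.trans (by norm_num) hM
  intro ε hε
  obtain ⟨V₀, hV₀⟩ := ja_pE ε hε
  refine ⟨2 * V₀, ?_⟩
  intro ι _ _ S₀ p hS₀ hp hpi hpK hN hR R C _ _ A X Y S d a1 a2 a3 a4 s1 s2 s3 ty h5 hk k0
  set r₀ := rr t S₀ p with hr₀
  have hrp : ∀ i, (r₀ i).Prime := prm hS₀ hp
  have hrinj : Function.Injective r₀ := rr_inj t hpi (fun i => (hp i).2.1) fun i => (hp i).1.2
  have hK4 := (hK _ hpK).1
  have hK17 := (hK _ hpK).2.1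
  have hKd := (hK _ hpK).2.2
  rw [Nat.dvd_mod_iff h17M] at hKd
  rw [Nat.mod_mod_of_dvd _ h4M] at hK4
  rw [nr17_mod, Nat.mod_mod_of_dvd _ h17M, ← nr17_mod] at hK17
  have h17S : 17 ∉ S₀ := by
    intro h
    exact hKd (Dvd.dvd.mul_right (dvd_prod_of_mem (fun x => x) h) _)
  have h17V : 17 ∉ Vt t S₀ := by
    intro h
    rcases mem_Vt.1 h with h | h
    · exact absurd h.2 (by norm_num)
    · exact h17S h
  obtain ⟨e1, e2, e3, e4⟩ := enoughJ (t := t) (s := s) hM hM0 hp hpi hR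
  have hle : V₀ * (Fintype.card (Vt t S₀ : Finset ℕ) + 1) ≤ 2 * V₀ * (S₀.card + 1) := by
    have h1 := card_Vt (t := t) (S₀ := S₀)
    have h2 : 2 * V₀ * (S₀.card + 1) = V₀ * (2 * S₀.card + 2) := by ring
    rw [h2]
    exact Nat.mul_le_mul_left _ (by omega)
  have hr5 := rich_md hpi hR hM0 hM7 5 (by norm_num) (fun i => p i % 168 = 5) fun i hi => by
    rw [hi]
  have q1 : V₀ * (Fintype.card (Vt t S₀ : Finset ℕ) + 1) ≤ (univ.filter fun k : ι => d k = 1).card := by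
    refine hle.trans (hr5.trans (card_le_card fun l hl => ?_))
    rw [mem_filter] at hl ⊢
    exact ⟨hl.1, (h5 l hl.2).1⟩
  have q2 : V₀ * (Fintype.card (Vt t S₀ : Finset ℕ) + 1) ≤
      (univ.filter fun k : ι => d k + ud s r₀ (Sum.inr k) = 1).card := by
    refine hle.trans (hr5.trans (card_le_card fun l hl => ?_))
    rw [mem_filter] at hl ⊢
    exact ⟨hl.1, (h5 l hl.2).2⟩
  have h2 := hV₀ (Vt t S₀) ι R C (wd r r₀) (ud s r₀) (nv r₀) (NR r s r₀) A X Y S d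
    (fun k => if_neg (hp k).1.2) (sum_udP hS₀ hp hpi hts hK4) (sum_nvP hS₀ hp hpi hKd hK17)
    (fun i j hij => rec_NR r s hrinj hrp i j hij) (uniq2 htr hS₀)
    (fun b s' a hbs => ndg17 hM hM0 hp hN h17V b s' a hbs) a1 a2 a3
    (fun k l => by rw [a4, Lm_eq]) s1 s2 s3 ty hk (by convert q1) (by convert q2)
    e1 e2 e3 (by convert e4) k0
  refine ⟨fun σ => Kx (nv r₀) (ud s r₀) (Lm (pt (NR r s r₀) (sx σ))), ?_, h2⟩
  intro q hqi hq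
  rw [Gu_iff (rr_inj t hqi (fun i => (hq i).2.1) fun i => (hq i).1.2) (rr_im t)]
  obtain ⟨b1, b2, b3⟩ := two_q (t := t) (r := r) (s := s) hM hM0 hS₀ hp hpi hqi hq
  rw [b1, b2, b3]

/-- positive integers -/
theorem j_posE {M : ℕ} {K : Finset ℕ} {k c : ℕ} {t : Bool} {r s : ZMod 2}
    (hM : 136 ∣ M) (hM7 : 168 ∣ M) (hM0 : 0 < M) (hk : k = 1 ∨ k = 2) (hc : c = 1 ∨ c = 3)
    (hts : t = false → s = 0) (htr : t = true → r ≠ 0 ∨ s ≠ 0)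
    (hcs : c = if s = 0 then 1 else 3)
    (hK : ∀ a ∈ K, a % 4 = c ∧ Rt17 (1 * ((k * a : ℕ) : ℤ)))
    (hG : ∀ n, 0 < n → Squarefree n → n % 4 = c → ¬ 17 ∣ n →
      (G17 (1 * ((k * n : ℕ) : ℤ)) ↔ Gu t r s n.primeFactors)) :
    J17E M K t r s (fun S => G17 (1 * ((k * ∏ v ∈ S, v : ℕ) : ℤ))) (4 / 3 * eta * c2) := by
  have h4M : (4 : ℕ) ∣ M := Dvd.dvd.trans (by norm_num) hM
  have h17M : (17 : ℕ) ∣ M := Dvd.dvd.trans (by norm_num) hM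
  have h1M : 1 < M := lt_of_lt_of_le (by norm_num) (Nat.le_of_dvd hM0 hM)
  have hK' : ∀ a ∈ K, a % 4 = (if s = 0 then 1 else 3) ∧ nr 17 a = 0 ∧ ¬ 17 ∣ a := by
    intro a ha
    obtain ⟨h1, h2⟩ := hK a ha
    exact ⟨h1.trans hcs, (rt_pos hk (by rcases hc with h | h <;> omega)).1 h2⟩
  refine J17E.congr h1M ?_ (j17_pE hM hM7 hM0 hts htr hK')
  intro S hS hK1 _
  obtain ⟨e1, e2, e3⟩ := prodS hS
  have h4 := (hK _ hK1).1
  rw [Nat.mod_mod_of_dvd _ h4M] at h4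
  have h17 := (hK' _ hK1).2.2
  rw [Nat.dvd_mod_iff h17M] at h17
  have := hG _ e3 e1 h4 h17
  rw [e2] at this
  exact this

/-- the level 17 side -/
theorem key17E {M : ℕ} (h136 : 136 ∣ M) (hM7 : 168 ∣ M) (hM0 : 0 < M) {s' : ℤ} {k c : ℕ}
    {t : Bool} {r s : ZMod 2} (H : PM s' k c t r s) (hs1 : s' = 1) (K : Finset ℕ)
    (hK' : ∀ a ∈ K, a % 4 = c ∧ Rt17 (s' * ((k * a : ℕ) : ℤ))) :
    J17E M K t r s (fun S => G17 (s' * ((k * ∏ v ∈ S, v : ℕ) : ℤ))) (4 / 3 * eta * c2) := by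
  rcases det8 H with ⟨rfl, rfl, rfl, rfl, rfl, rfl⟩ | ⟨rfl, rfl, rfl, rfl, rfl, rfl⟩ |
    ⟨rfl, rfl, rfl, rfl, rfl, rfl⟩ | ⟨rfl, rfl, rfl, rfl, rfl, rfl⟩ |
    ⟨rfl, rfl, rfl, rfl, rfl, rfl⟩ | ⟨rfl, rfl, rfl, rfl, rfl, rfl⟩ |
    ⟨rfl, rfl, rfl, rfl, rfl, rfl⟩ | ⟨rfl, rfl, rfl, rfl, rfl, rfl⟩
  · refine j_posE h136 hM7 hM0 (Or.inl rfl) (Or.inl rfl) H.ts H.tr (if_pos rfl).symm hK' ?_
    intro M h0 h1 h2 h3
    rw [G_pos (n := M) (by omega) (by rw [Kn_odd (by omega)]; omega)]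
    exact SxP_iff (parP0 h2) pf_odd (odd2 (Or.inl h2)) h3
  · refine j_posE h136 hM7 hM0 (Or.inl rfl) (Or.inr rfl) H.ts H.tr (if_neg (by decide)).symm hK' ?_
    intro M h0 h1 h2 h3
    rw [G_pos (n := 4 * M) (by omega) (by rw [Kn_ev (by omega)]; omega)]
    exact SxP_iff (parP1 h2) (pf_4 h1.ne_zero) (odd2 (Or.inr h2)) (e17 (by norm_num) h3)
  · refine j_posE h136 hM7 hM0 (Or.inr rfl) (Or.inl rfl) H.ts H.tr (if_pos rfl).symm hK' ?_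
    intro M h0 h1 h2 h3
    rw [G_pos (n := 8 * M) (by omega) (by rw [Kn_ev (by omega)]; omega)]
    exact SxP_iff (parP2 h2) (pf_8 h1.ne_zero) (odd2 (Or.inl h2)) (e17 (by norm_num) h3)
  · refine j_posE h136 hM7 hM0 (Or.inr rfl) (Or.inr rfl) H.ts H.tr (if_neg (by decide)).symm hK' ?_
    intro M h0 h1 h2 h3
    rw [G_pos (n := 8 * M) (by omega) (by rw [Kn_ev (by omega)]; omega)]
    exact SxP_iff (parP3 h2) (pf_8 h1.ne_zero) (odd2 (Or.inr h2)) (e17 (by norm_num) h3)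
  · exact absurd hs1 (by norm_num)
  · exact absurd hs1 (by norm_num)
  · exact absurd hs1 (by norm_num)
  · exact absurd hs1 (by norm_num)

/-- **the exceptional type jointly with level 17** -/
theorem InE.lah17 {N : ℕ} {P G : ℤ → Prop} (hN : 136 ∣ N) (hN7 : 168 ∣ N)
    (hP : ∀ d, P d → 0 < d) (h : InE N P G) :
    In N (fun d => P d ∧ Rt17 d) (fun d => G d ∧ G17 d) (4 / 3 * eta * c2) := by
  intro s' k c t r s H M hM hM0 K hK
  have h136 := hN.trans hM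
  have h168 := hN7.trans hM
  have h1M : 1 < M := lt_of_lt_of_le (by norm_num) (Nat.le_of_dvd hM0 h136)
  rcases H.hs with hs | hs
  · exact lahjE h1M (h s' k c t r s H M hM hM0 K fun a ha => ⟨(hK a ha).1, (hK a ha).2.1⟩)
      (key17E h136 h168 hM0 H hs K fun a ha => ⟨(hK a ha).1, (hK a ha).2.2⟩)
  · intro ε hε
    refine ⟨0, ?_⟩
    intro ι _ _ S₀ p hS₀ hp hpi hpK hN' hR
    have h1 := hK _ hpK
    have h2 := sgn_neg H hs h1.1
    have := hP _ h1.2.1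
    omega

end Pool.Agent.N877.JX
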