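import Pool.Agent.N916.PQ.LahE
import Pool.Agent.N877.JX.CEx
import Pool.Agent.N877.JX.Cls

/-!
# JX: the exceptional class of level 21 as a random system, with an additional column
-/

set_option autoImplicit false
set_option linter.all false

open scoped Classical

namespace Pool.Agent.N877.JX

open Finset Filter
open Pool.Agent.Y703.CQ (nr sg)
open Pool.Agent.N973.ND (uu nr_rec nr_self)
open Pool.Agent.N916.GB (Po Vt sy Ev Gv Gd z2_add_self eta pt sx ps sx_symm sx_diag)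
open Pool.Agent.N958.GB (NR ud wd z2 mem_Vt sy_ne sy_two Gd_iff lb rr rr_inj rr_im sgm two_tuples
  rec_NR Vt_sub)
open Pool.Agent.N875.X15 (PR ra sgp d2 oe ch ps_odd ps_two ch_odd oe_mod d2_spec)
open Pool.Agent.N875.P17 (al ra_rec al_odd ra_neg_one)
open Pool.Agent.N809 Pool.Agent.N809.PQ
open Pool.Agent.N916.PQ hiding G15
open Pool.Agent.N916.PQ.L21 (G21 fa fb kf ce_iff ce_facts hf7 hv3)
open Pool.Agent.N916.AM (LAH LAV Nd Rich dq lah_red Bs)
open Pool.Agent.N809.JT (J15)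
open Pool.Agent.N972.JT (pre)

/-- the criterion `G` is the criterion of the exceptional class with an additional column -/
def IsE (M : ℕ) (K : Finset ℕ) (t : Bool) (r s : ZMod 2) (ff : ℕ → ZMod 2) (G : Finset ℕ → Prop) :
    Prop :=
  ∀ (V : Type) [Fintype V] (ρ : V → ℕ) (S : Finset ℕ), (∀ v ∈ S, Po v) → (∏ v ∈ S, v) % M ∈ K →
    S.Nonempty → Function.Injective ρ → univ.image ρ = Vt t S →
    (G S ↔ CE (NR r s ρ) (fun i => fa s (ρ i)) (fun i => fb r s (ρ i)) (kf r s ρ)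
      (fun i => uc (-3) ρ i + ff (ρ i)) (wd r ρ)) ∧ ∑ i, ff (ρ i) * wd r ρ i = 0

/-- a random system with two more columns and a form -/
def JE (M : ℕ) (K : Finset ℕ) (t : Bool) (r s : ZMod 2) (G : Finset ℕ → Prop) : Prop :=
  ∀ (ι : Type) [Fintype ι] [LinearOrder ι] [Nonempty ι] (S₀ : Finset ℕ) (p : ι → ℕ),
    (∀ v ∈ S₀, Po v) → (∀ i, Po (p i) ∧ p i ∉ S₀ ∧ (p i).Coprime M) → Function.Injective p →
    ((∏ v ∈ S₀, v) * ∏ i, p i) % M ∈ K → Nd M S₀ (univ.image p) →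
    ∃ (R C : Type) (_ : Fintype R) (_ : Fintype C) (A : R ⊕ ι → C ⊕ ι → ZMod 2)
      (X : R ⊕ ι → ZMod 2) (Y : C ⊕ ι → ZMod 2)
      (S : (C ⊕ ι → ZMod 2) → (C ⊕ ι → ZMod 2) → ZMod 2) (d : ι → ZMod 2),
      Hy A X Y (fun k => ud s (rr t S₀ p) (Sum.inr k)) ∧ Fintype.card C = Fintype.card R + 2 ∧
      Fintype.card R ≤ Fintype.card (Vt t S₀ : Finset ℕ) ∧
      (∀ k l, A (Sum.inr k) (Sum.inr l) =
        Pool.Agent.N916.PQ.Lm (NR r s (rr t S₀ p)) (Sum.inr l) (Sum.inr k)) ∧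
      (∀ a b c, S a (b + c) = S a b + S a c) ∧ (∀ a b, S a b = S b a) ∧ (∀ a, S a a = 0) ∧
      Ty S d (Fintype.card R + 6) ∧
      (∀ l, p l % 168 = 5 → d l = 1 ∧ d l + ud s (rr t S₀ p) (Sum.inr l) = 1) ∧
      (∀ (σ : ps ι → ZMod 2) (k k' : ι), Gd2 A k S (sx σ) ↔ Gd2 A k' S (sx σ)) ∧
      ∀ q : ι → ℕ, Function.Injective q → (∀ i, Po (q i) ∧ q i ∉ S₀ ∧ q i % M = p i % M ∧
        ∀ v ∈ S₀, nr (q i) v = nr (p i) v) → ∀ k0 : ι,
        (G (S₀ ∪ univ.image q) ↔ Gd2 A k0 S (sx (sgm q + sgm p)))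

section
variable {M : ℕ} {s' : ℤ} {k c : ℕ} {t : Bool} {r s : ZMod 2}

/-- **the data of the exceptional class** -/
theorem j_e (hM : 168 ∣ M) (hM0 : 0 < M) (H : PM s' k c t r s) (hs : s' = 1) {K : Finset ℕ}
    (hK : ∀ n : ℕ, n % M ∈ K → n % 4 = c ∧ C3 (s' * (k * n : ℕ)) ∧ ¬ C7 (s' * (k * n : ℕ)))
    {ff : ℕ → ZMod 2} (hff : ∀ p q, Po p → Po q → p.Coprime M → q.Coprime M → uu q = uu p →
      (∀ v ∈ M.primeFactors, nr q v = nr p v) → ff q = ff p)
    {G : Finset ℕ → Prop} (hG : IsE M K t r s ff G) : JE M K t r s G := by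
  intro ι _ _ _ S₀ p hS₀ hp hpi hpK hN
  have h8 : 8 ∣ M := (by norm_num : 8 ∣ 168).trans hM
  have h3M : 3 ∣ M := (by norm_num : 3 ∣ 168).trans hM
  have h7M : 7 ∣ M := (by norm_num : 7 ∣ 168).trans hM
  have h2S : 2 ∉ S₀ := fun h => (hS₀ 2 h).2 rfl
  set r₀ := rr t S₀ p with hr₀
  have hrp : ∀ i, (r₀ i).Prime := prm hS₀ hp
  have hrinj : Function.Injective r₀ := rr_inj t hpi (fun i => (hp i).2.1) fun i => (hp i).1.2
  have hprod : ∀ q : ι → ℕ, Function.Injective q → (∀ i, q i ∉ S₀) →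
      ∏ x ∈ S₀ ∪ univ.image q, x = (∏ v ∈ S₀, v) * ∏ i, q i := by
    intro q hqi hq
    have hdis : Disjoint S₀ (univ.image q) := by
      rw [Finset.disjoint_left]
      intro x hx hx'
      obtain ⟨i, -, rfl⟩ := mem_image.1 hx'
      exact hq i hx
    rw [prod_union hdis, prod_image fun i _ j _ h => hqi h]
  have hKq : ∀ q : ι → ℕ, Function.Injective q → (∀ i, q i ∉ S₀) →
      (∀ i, q i % M = p i % M) → (∏ x ∈ S₀ ∪ univ.image q, x) % M ∈ K := by
    intro q hqi hq hqm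
    rw [hprod q hqi hq]
    have h1 : (∏ i, q i) % M = (∏ i, p i) % M := by
      rw [Finset.prod_nat_mod, Finset.prod_nat_mod univ M p]
      simp only [hqm]
    rw [Nat.mul_mod, h1, ← Nat.mul_mod]
    exact hpK
  have hPoS : ∀ q : ι → ℕ, (∀ i, Po (q i)) → ∀ v ∈ S₀ ∪ univ.image q, Po v := by
    intro q hq v hv
    rcases mem_union.1 hv with h | h
    · exact hS₀ v h
    · obtain ⟨i, -, rfl⟩ := mem_image.1 h
      exact hq i
  -- the data of a tuple
  have hdat : ∀ q : ι → ℕ, Function.Injective q → (∀ i, Po (q i)) → (∀ i, q i ∉ S₀) →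
      (∀ i, q i % M = p i % M) →
      Dt (s' * (k * ∏ v ∈ S₀ ∪ univ.image q, v : ℕ)) (∏ v ∈ S₀ ∪ univ.image q, v) t r s
        (S₀ ∪ univ.image q) (rr t S₀ q) ∧ 0 < s' * (k * ∏ v ∈ S₀ ∪ univ.image q, v : ℕ) ∧
      C3 (s' * (k * ∏ v ∈ S₀ ∪ univ.image q, v : ℕ)) ∧
      ¬ C7 (s' * (k * ∏ v ∈ S₀ ∪ univ.image q, v : ℕ)) ∧ 3 ∉ S₀ ∪ univ.image q := by
    intro q hqi hqP hqS hqm
    have hSq := hPoS q hqP
    obtain ⟨h4, h3, h7⟩ := hK _ (hKq q hqi hqS hqm)
    obtain ⟨e1, e2, e3⟩ := prodS hSq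
    have D := H.dt hSq h4 (rr_inj t hqi hqS fun i => (hqP i).2) (rr_im t)
    refine ⟨D, H.pos e3 hs, h3, h7, fun h => ?_⟩
    have h6 := dvd_m h s' k
    unfold C3 at h3
    push_cast at h3 h6
    omega
  obtain ⟨D, k0, k3, k7, k3S⟩ := hdat p hpi (fun i => (hp i).1) (fun i => (hp i).2.1) fun i => rfl
  obtain ⟨f1, f2, f3, f4, f5, f6⟩ := ce_facts D k0 k3 k7 k3S
  obtain ⟨m1, m2, m3⟩ := pre hS₀ hpK hpi (fun i => (hp i).1) (fun i => (hp i).2.1) fun i => rfl
  obtain ⟨-, hfw⟩ := hG _ r₀ (S₀ ∪ univ.image p) m1 m2 m3 hrinj (rr_im t)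
  have hp7 : ∀ (q : ι → ℕ), (∀ i, (q i).Coprime M) → ∀ i, q i ≠ 7 := by
    intro q hq i h
    have h1 := hq i
    rw [h] at h1
    have := Nat.Coprime.eq_one_of_dvd h1 h7M
    omega
  have hd7 : ∀ f : (Vt t S₀ : Finset ℕ) ⊕ ι → ZMod 2, ∑ j, f j * Red21.d7 r₀ j =
      ∑ v, f (Sum.inl v) * Red21.d7 r₀ (Sum.inl v) := by
    intro f
    rw [Fintype.sum_sum_type]
    have : ∑ i, f (Sum.inr i) * Red21.d7 r₀ (Sum.inr i) = 0 := by
      refine sum_eq_zero fun i _ => ?_
      have h1 : Red21.d7 r₀ (Sum.inr i) = 0 := if_neg (hp7 p (fun i => (hp i).2.2) i)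
      rw [h1, mul_zero]
    rw [this, add_zero]
  have hN1 : ∀ (v : (Vt t S₀ : Finset ℕ)) (l : ι), NR r s r₀ (Sum.inl v) (Sum.inr l) = nr (p l) v :=
    fun v l => sy_ne r s (hp l).1.2
  have hud : ∀ l : ι, ud s r₀ (Sum.inr l) = uu (p l) := fun l => if_neg (hp l).1.2
  have hwd : ∀ l : ι, wd r r₀ (Sum.inr l) = 1 := fun l => if_neg (hp l).1.2
  have pf3 : (3 : ℕ) ∈ M.primeFactors := Nat.mem_primeFactors.2 ⟨by norm_num, h3M, hM0.ne'⟩
  have pf7 : (7 : ℕ) ∈ M.primeFactors := Nat.mem_primeFactors.2 ⟨by norm_num, h7M, hM0.ne'⟩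
  have h3B : 3 ∈ Bs M S₀ := mem_union_right _ pf3
  have h7B : 7 ∈ Bs M S₀ := mem_union_right _ pf7
  have h3V : 3 ∉ Vt t S₀ := fun h => by
    rcases mem_Vt.1 h with h | h
    · exact absurd h.2 (by norm_num)
    · exact k3S (mem_union_left _ h)
  -- the diagonal at the large primes
  have hk : ∀ l : ι, kf r s r₀ (Sum.inr l) = ra (p l) (-7) := fun l =>
    if_neg (hp7 p (fun i => (hp i).2.2) l)
  have hk5 : ∀ l : ι, p l % 168 = 5 → kf r s r₀ (Sum.inr l) = 1 ∧ uu (p l) = 0 := by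
    intro l hl
    rw [hk, ra_m7 (hp l).1.1, ra7]
    constructor
    · rw [if_neg]
      omega
    · unfold uu
      rw [if_neg]
      omega
  -- the names
  set N := NR r s r₀ with hNd
  set α : (Vt t S₀ : Finset ℕ) ⊕ ι → ZMod 2 := fun i => fa s (r₀ i) with hα
  set β : (Vt t S₀ : Finset ℕ) ⊕ ι → ZMod 2 := fun i => fb r s (r₀ i) with hβ
  set κ : (Vt t S₀ : Finset ℕ) ⊕ ι → ZMod 2 := kf r s r₀ with hκ
  set θ : (Vt t S₀ : Finset ℕ) ⊕ ι → ZMod 2 := fun i => uc (-3) r₀ i + ff (r₀ i) with hθ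
  set y7 : ↥(Vt t S₀) → ZMod 2 := fun v => Red21.d7 r₀ (Sum.inl v) with hy7
  have hr1 : ∀ i, κ i * wd r r₀ i + (∑ i, κ i * wd r r₀ i + 1) * κ i =
      ∑ v, Pool.Agent.N916.PQ.Lm N i (Sum.inl v) * y7 v := fun i => by
    rw [← hd7]
    exact f4 i
  have hr2 : 1 + (∑ i, κ i * wd r r₀ i + 1) = ∑ v, α (Sum.inl v) * y7 v := by
    rw [← hd7]
    exact f5
  have hr3 : ∑ i, θ i * wd r r₀ i + 1 + (∑ i, κ i * wd r r₀ i + 1) =
      ∑ v, β (Sum.inl v) * y7 v := by
    rw [← hd7]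
    rw [← f6]
    congr 2
    rw [hθ]
    simp only [add_mul, sum_add_distrib]
    rw [hfw, add_zero]
  have h3' : ∀ i j, i ≠ j → wd r r₀ i * N i j + wd r r₀ j * N j i = ud s r₀ i * ud s r₀ j :=
    fun i j hij => rec_NR r s hrinj hrp i j hij
  have hnr : ∀ b : ↥(Vt t S₀) → ZMod 2,
      (∀ l, ∑ v, b v * N (Sum.inr l) (Sum.inl v) = 0) → ∀ v, b v = 0 := by
    intro b hb
    obtain ⟨h3, h4, h5⟩ := nd_use h8 hM0 hN h3B h3V (fun v => b v * wd r r₀ (Sum.inl v)) 0
      (∑ v, b v * ud s r₀ (Sum.inl v)) fun l => by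
        have h6 := hb l
        have h8 : ∀ v, N (Sum.inr l) (Sum.inl v) = wd r r₀ (Sum.inl v) * nr (p l) v +
            ud s r₀ (Sum.inl v) * uu (p l) := by
          intro v
          have h9 := rec_NR r s hrinj hrp (Sum.inr l) (Sum.inl v) (by simp)
          rw [hwd, hud, one_mul] at h9
          change N (Sum.inr l) (Sum.inl v) + wd r r₀ (Sum.inl v) * N (Sum.inl v) (Sum.inr l) = _ at h9
          rw [hN1] at h9
          have h10 := z2_add_self (wd r r₀ (Sum.inl v) * nr (p l) v)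
          linear_combination h9 - h10
        simp only [h8] at h6
        refine Eq.trans ?_ h6
        rw [sum_mul, zero_mul, add_zero]
        simp only [mul_add, sum_add_distrib, mul_assoc]
    intro v
    rcases Pool.Agent.N958.GB.z2 (wd r r₀ (Sum.inl v)) with h6 | h6
    · obtain ⟨h7, h8⟩ := uniq2 H.tr hS₀ v h6
      rw [sum_eq_single v] at h5
      · rw [h7, mul_one] at h5
        exact h5
      · intro v' _ hv'
        rcases Pool.Agent.N958.GB.z2 (wd r r₀ (Sum.inl v')) with h9 | h9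
        · exact absurd (h8 v' h9).symm hv'
        · have : b v' * wd r r₀ (Sum.inl v') = 0 := h3 v'
          rw [h9, mul_one] at this
          rw [this, zero_mul]
      · intro h
        exact absurd (mem_univ v) h
    · have : b v * wd r r₀ (Sum.inl v) = 0 := h3 v
      rw [h6, mul_one] at this
      exact this
  have hnc : ∀ (b : ↥(Vt t S₀) → ZMod 2) (a c : ZMod 2),
      (∀ l, ∑ v, b v * N (Sum.inl v) (Sum.inr l) + a * β (Sum.inr l) + c * α (Sum.inr l) = 0) →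
      (∀ v, b v = 0) ∧ a = 0 ∧ c = 0 := by
    intro b a c' hb
    refine nd_use h8 hM0 hN h3B h3V b a c' fun l => ?_
    have h6 := hb l
    simp only [hN1] at h6
    have e1 : α (Sum.inr l) = uu (p l) := if_neg (hp l).1.2
    have e2 : β (Sum.inr l) = nr (p l) 3 := if_neg (hp l).1.2
    rw [e1, e2] at h6
    exact h6
  have HH : Hy (Me N α β) (fun _ => 1) (ve (wd r r₀) 1 0) (fun k => ud s r₀ (Sum.inr k)) := by
    refine ⟨fun l => rfl, fun l => hwd l, ?_, ?_, ?_, ?_, ?_⟩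
    · intro c
      simp only [one_mul]
      rcases c with (_ | _ | v) | l
      · exact f1
      · exact f2
      · exact Lmr N (Sum.inl v)
      · exact Lmr N (Sum.inr l)
    · intro j
      rw [ev_Me, xz_ve]
      have := f3 j
      show _ + 1 * α j + 0 * β j = 0
      rw [one_mul, zero_mul, add_zero]
      exact this
    · intro b hb
      refine hnr b fun l => ?_
      rw [← hb l]
      refine sum_congr rfl fun v _ => ?_
      congr 1
      exact (Pool.Agent.N916.PQ.Lm_ne N (by simp)).symm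
    · intro b hb
      obtain ⟨h4, h5, h6⟩ := hnc (fun v => b (some (some v))) (b (some none)) (b none) fun l => by
        have h7 := hb l
        rw [Fintype.sum_option, Fintype.sum_option] at h7
        rw [← h7]
        have e : ∀ v : (Vt t S₀ : Finset ℕ), Me N α β (Sum.inr l) (Sum.inl (some (some v))) =
            N (Sum.inl v) (Sum.inr l) := fun v => Pool.Agent.N916.PQ.Lm_ne N (by simp)
        simp only [e]
        show _ = α (Sum.inr l) * b none + (β (Sum.inr l) * b (some none) + _)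
        simp only [mul_comm (b _)]
        ring
      intro c
      rcases c with _ | _ | v
      · exact h6
      · exact h5
      · exact h4 v
    · intro k l hkl
      have h := h3' (Sum.inr l) (Sum.inr k) fun h => hkl (Sum.inr_injective h).symm
      rw [hwd, hwd, one_mul, one_mul] at h
      rw [mul_comm (ud s r₀ (Sum.inr k)), ← h]
      show Pool.Agent.N916.PQ.Lm N (Sum.inr l) (Sum.inr k) +
        Pool.Agent.N916.PQ.Lm N (Sum.inr k) (Sum.inr l) = _
      rw [Pool.Agent.N916.PQ.Lm_ne _ fun h => hkl (Sum.inr_injective h).symm,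
        Pool.Agent.N916.PQ.Lm_ne _ fun h => hkl (Sum.inr_injective h)]
  have h7 : ∀ z, Se κ θ (ve (wd r r₀) 1 0) z = ∑ v, y7 v * ev (Me N α β) z (Sum.inl v) := by
    intro z
    have e1 : ∑ v, y7 v * ev (Me N α β) z (Sum.inl v) =
        ∑ i, (∑ v, Pool.Agent.N916.PQ.Lm N i (Sum.inl v) * y7 v) * xz z i +
          (∑ v, α (Sum.inl v) * y7 v) * sz z + (∑ v, β (Sum.inl v) * y7 v) * az z := by
      unfold ev
      simp only [ev_Me]
      simp only [mul_add, sum_add_distrib, sum_mul, mul_sum]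
      congr 1
      · congr 1
        · rw [sum_comm]
          exact sum_congr rfl fun i _ => sum_congr rfl fun v _ => by ring
        · exact sum_congr rfl fun v _ => by ring
      · exact sum_congr rfl fun v _ => by ring
    rw [e1, ← hr2, ← hr3]
    simp only [← hr1]
    unfold Se SF
    rw [xz_ve]
    have e2 : sz (ve (wd r r₀) 1 0 : Option (Option (Vt t S₀ : Finset ℕ)) ⊕ ι → ZMod 2) = 1 := rfl
    have e3 : az (ve (wd r r₀) 1 0 : Option (Option (Vt t S₀ : Finset ℕ)) ⊕ ι → ZMod 2) = 0 := rfl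
    rw [e2, e3]
    set g : ZMod 2 := ∑ i, κ i * wd r r₀ i + 1 with hg
    have e4 : ∑ i, (κ i * wd r r₀ i + g * κ i) * xz z i =
        ∑ i, κ i * (wd r r₀ i * xz z i) + g * ∑ i, κ i * xz z i := by
      rw [mul_sum, ← sum_add_distrib]
      exact sum_congr rfl fun i _ => by ring
    rw [e4]
    simp only [zero_mul, add_zero]
    ring
  refine ⟨(Vt t S₀ : Finset ℕ), Option (Option (Vt t S₀ : Finset ℕ)), inferInstance, inferInstance,
    Me N α β, fun _ => 1, ve (wd r r₀) 1 0, Se κ θ, fun l => κ (Sum.inr l), HH, ?_, le_refl _,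
    fun k l => rfl, Se_add κ θ, Se_symm κ θ, Se_self κ θ, ?_, ?_, fun σ k k' =>
      (Gd2_CE HH y7 h7 k (fun l => sx_diag _ l) (fun l m => sx_symm _ l m)).trans
        (Gd2_CE HH y7 h7 k' (fun l => sx_diag _ l) (fun l m => sx_symm _ l m)).symm, ?_⟩
  · rw [Fintype.card_option, Fintype.card_option]
  · have h := Se_ty κ θ
    rw [Fintype.card_option, Fintype.card_option] at h
    exact h
  · intro l hl
    refine ⟨(hk5 l hl).1, ?_⟩
    rw [hud, (hk5 l hl).2, add_zero]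
    exact (hk5 l hl).1
  · intro q hqi hq k0
    obtain ⟨a1, a2, a3, a4⟩ := two_q (t := t) (r := r) (s := s) h8 hM0 hS₀ hp hpi hqi hq
    obtain ⟨n1, n2, n3⟩ := pre hS₀ hpK hqi (fun i => (hq i).1) (fun i => (hq i).2.1)
      fun i => (hq i).2.2.1
    obtain ⟨b1, -⟩ := hG _ (rr t S₀ q) (S₀ ∪ univ.image q) n1 n2 n3
      (rr_inj t hqi (fun i => (hq i).2.1) fun i => (hq i).1.2) (rr_im t)
    rw [Gd2_CE HH y7 h7 k0 (fun l => sx_diag _ l) (fun l m => sx_symm _ l m), b1]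
    have c1 : (fun i => fa s (rr t S₀ q i)) = α := by
      funext i
      rcases i with v | l
      · rfl
      · show fa s (q l) = fa s (p l)
        unfold Pool.Agent.N916.PQ.L21.fa
        rw [if_neg (hq l).1.2, if_neg (hp l).1.2, a4 l]
    have c2 : (fun i => fb r s (rr t S₀ q i)) = β := by
      funext i
      rcases i with v | l
      · rfl
      · show fb r s (q l) = fb r s (p l)
        unfold Pool.Agent.N916.PQ.L21.fb
        rw [if_neg (hq l).1.2, if_neg (hp l).1.2, a3 l 3 h3B]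
    have c3 : kf r s (rr t S₀ q) = κ := by
      funext i
      rcases i with v | l
      · have e0 : rr t S₀ q (Sum.inl v) = v := rfl
        have e1 : r₀ (Sum.inl v) = v := rfl
        rw [hκ]
        unfold Pool.Agent.N916.PQ.L21.kf
        rw [e0, e1]
        by_cases hv : (v : ℕ) = 7
        · rw [if_pos hv, if_pos hv, a1, Lm_pt _ (fun l => Pool.Agent.N916.GB.sx_diag _ l)]
          exact add_zero _
        · rw [if_neg hv, if_neg hv]
      · rw [hk]
        have e1 : kf r s (rr t S₀ q) (Sum.inr l) = ra (q l) (-7) := if_neg (hp7 q a2 l)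
        rw [e1, hf7 h7M (q l) (hq l).1 (a2 l), hf7 h7M (p l) (hp l).1 (hp l).2.2,
          a3 l 7 h7B, a4 l]
    have c4 : (fun i => uc (-3) (rr t S₀ q) i + ff (rr t S₀ q i)) = θ := by
      funext i
      rcases i with v | l
      · rfl
      · show ra (q l) (-3) + ff (q l) = ra (p l) (-3) + ff (p l)
        rw [hf3 h3M (q l) (hq l).1 (a2 l), hf3 h3M (p l) (hp l).1 (hp l).2.2,
          a3 l 3 h3B, a4 l, hff (p l) (q l) (hp l).1 (hq l).1 (hp l).2.2 (a2 l) (a4 l)
          fun v hv => a3 l v (mem_union_right _ hv)]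
    have c5 : wd r (rr t S₀ q) = wd r r₀ := by
      funext i
      rcases i with v | l
      · rfl
      · rw [hwd]
        exact if_neg (hq l).1.2
    rw [c1, c2, c3, c4, c5, a1]

end

end Pool.Agent.N877.JX
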