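import Pool.Agent.N877.JX.LE
import Pool.Agent.N916.PQ.LB6
import Pool.Agent.N916.MO.Lh
import Pool.Agent.N809.JT.Lj

/-!
# JX: the hypothesis of the density machine from the data
-/

set_option autoImplicit false
set_option linter.all false

open scoped Classical

namespace Pool.Agent.N877.JX

open Finset Filter
open Pool.Agent.Y703.CQ (nr sg)
open Pool.Agent.N916.GB (Po Vt eta pt sx ps)
open Pool.Agent.N958.GB (NR ud wd rr sgm)
open Pool.Agent.N916.AM (LAH LAV Nd Rich)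
open Pool.Agent.N916.PQ (Hy Gc t_LB t_LD Gd2 Ty shift_card card_Vt)
open Pool.Agent.N809.JT (J15)

/-- enough large primes in a residue class -/
theorem rich_md {M V N : ℕ} {S₀ : Finset ℕ} {ι : Type} [Fintype ι] {p : ι → ℕ}
    (hp : Function.Injective p) (hR : Rich M V S₀ (univ.image p)) (hM0 : 0 < M) (hM : N ∣ M)
    (a : ℕ) (ha : a.Coprime N) (P : ι → Prop) [DecidablePred P]
    (hP : ∀ i, p i % N = a % N → P i) : V * (S₀.card + 1) ≤ (univ.filter P).card := by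
  haveI : NeZero M := ⟨hM0.ne'⟩
  have hN0 : N ≠ 0 := fun h => by
    rw [h, zero_dvd_iff] at hM
    omega
  haveI : NeZero N := ⟨hN0⟩
  obtain ⟨q, hqM, hqp, hqa⟩ := Nat.forall_exists_prime_gt_and_eq_mod
    ((ZMod.isUnit_iff_coprime a N).2 ha) M
  have hqN : q % N = a % N := (ZMod.natCast_eq_natCast_iff q a N).1 hqa
  have hcop : (q % M).Coprime M := by
    have h1 : q.Coprime M := by
      rw [Nat.Prime.coprime_iff_not_dvd hqp]
      intro h
      have := Nat.le_of_dvd hM0 h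
      omega
    rw [Nat.Coprime, ← Nat.gcd_rec, Nat.gcd_comm]
    exact h1
  refine (hR (q % M) (Nat.mod_lt _ hM0) hcop).trans ?_
  rw [Finset.filter_image, Finset.card_image_of_injective _ hp]
  refine card_le_card fun i hi => ?_
  rw [mem_filter] at hi ⊢
  refine ⟨hi.1, hP i ?_⟩
  have h1 := congrArg (· % N) hi.2
  simp only [Nat.mod_mod_of_dvd _ hM] at h1
  exact h1.trans hqN

/-- **the ordinary case** -/
theorem lahJ {M : ℕ} (hM : 8 ∣ M) (hM0 : 0 < M) {K : Finset ℕ} {t : Bool} {r s : ZMod 2}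
    {G : Finset ℕ → Prop} (h : J15 M K t r s G) : LAH M K G eta := by
  intro ε hε
  obtain ⟨V₀, hV₀⟩ := t_LB ε hε
  refine ⟨V₀ + 4, ?_⟩
  intro ι _ _ S₀ p hS₀ hp hpi hpK hN hR
  have hc3 := Pool.Agent.N916.AM.rich3 hM hM0 hpi hR
  have hV1 : 2 * (Fintype.card (Vt t S₀ : Finset ℕ) + 1) + V₀ ≤ (V₀ + 4) * (S₀.card + 1) := by
    have d1 := card_Vt (t := t) (S₀ := S₀)
    have : (V₀ + 4) * (S₀.card + 1) = V₀ * S₀.card + V₀ + 4 * S₀.card + 4 := by ring
    rw [this]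
    have := Nat.zero_le (V₀ * S₀.card)
    omega
  haveI : Nonempty ι := by
    obtain ⟨i, -⟩ := card_pos.1 (show 0 < (univ.filter fun i => Pool.Agent.N973.ND.uu (p i) = 1).card by
      omega)
    exact ⟨i⟩
  obtain ⟨R, C, _, _, A, X, Y, a1, a2, a3, a4, a5⟩ := h ι S₀ p hS₀ hp hpi hpK hN
  refine ⟨fun σ => Gc A Y (sx (σ + sgm p)), fun q hqi hq => a5 q hqi hq, ?_⟩
  rw [shift_card (fun σ => Gc A Y (sx σ))]
  refine hV₀ R C ι A X Y _ a1 a2 ?_
  refine (Nat.add_le_add_right (Nat.mul_le_mul_left 2 a3) V₀).trans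
    (hV1.trans (hc3.trans (card_le_card fun l hl => ?_)))
  rw [mem_filter] at hl ⊢
  refine ⟨hl.1, ?_⟩
  have h1 : ud s (rr t S₀ p) (Sum.inr l) = Pool.Agent.N973.ND.uu (p l) := if_neg (hp l).1.2
  rw [h1]
  exact hl.2

/-- **the exceptional case** -/
theorem lahJE {M : ℕ} (hM : 168 ∣ M) (hM0 : 0 < M) {K : Finset ℕ} {t : Bool} {r s : ZMod 2}
    {G : Finset ℕ → Prop} (h : JE M K t r s G) : LAH M K G (4 / 3 * eta) := by
  intro ε hε
  obtain ⟨V₀, hV₀⟩ := t_LD ε hε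
  refine ⟨V₀ + 30, ?_⟩
  intro ι _ _ S₀ p hS₀ hp hpi hpK hN hR
  have hc3 := Pool.Agent.N916.AM.rich3 ((by norm_num : 8 ∣ 168).trans hM) hM0 hpi hR
  have hV1 : 5 * (Fintype.card (Vt t S₀ : Finset ℕ) + 5) + V₀ ≤ (V₀ + 30) * (S₀.card + 1) := by
    have d1 := card_Vt (t := t) (S₀ := S₀)
    have : (V₀ + 30) * (S₀.card + 1) = V₀ * S₀.card + V₀ + 30 * S₀.card + 30 := by ring
    rw [this]
    have := Nat.zero_le (V₀ * S₀.card)
    omega
  haveI : Nonempty ι := by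
    obtain ⟨i, -⟩ := card_pos.1 (show 0 < (univ.filter fun i => Pool.Agent.N973.ND.uu (p i) = 1).card by
      omega)
    exact ⟨i⟩
  obtain ⟨R, C, _, _, A, X, Y, S, d, a1, a2, a3, a4, s1, s2, s3, ty, h5, -, a5⟩ :=
    h ι S₀ p hS₀ hp hpi hpK hN
  have hr5 := rich_md hpi hR hM0 hM 5 (by norm_num) (fun i => p i % 168 = 5) fun i hi => by
    rw [hi]
  obtain ⟨k0⟩ := (inferInstance : Nonempty ι)
  refine ⟨fun σ => Gd2 A k0 S (sx (σ + sgm p)), fun q hqi hq => a5 q hqi hq k0, ?_⟩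
  rw [shift_card (fun σ => Gd2 A k0 S (sx σ))]
  refine hV₀ R C ι A X Y _ S d (Fintype.card R + 6) a1 a2 s1 s2 s3 ty ?_ ?_ ?_ k0
  · refine le_trans (by omega) (hV1.trans (hr5.trans (card_le_card fun l hl => ?_)))
    rw [mem_filter] at hl ⊢
    exact ⟨hl.1, (h5 l hl.2).1⟩
  · refine le_trans (by omega) (hV1.trans (hr5.trans (card_le_card fun l hl => ?_)))
    rw [mem_filter] at hl ⊢
    exact ⟨hl.1, (h5 l hl.2).2⟩
  · refine le_trans (by omega) (hV1.trans (hc3.trans (card_le_card fun l hl => ?_)))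
    rw [mem_filter] at hl ⊢
    refine ⟨hl.1, ?_⟩
    have h1 : ud s (rr t S₀ p) (Sum.inr l) = Pool.Agent.N973.ND.uu (p l) := if_neg (hp l).1.2
    rw [h1]
    exact hl.2

end Pool.Agent.N877.JX
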