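import Pool.Agent.N809.JT.Jq
import Pool.Agent.N963.JT.MainE

/-!
# JX: moving one large index to the small indices, systems with a form
-/

set_option autoImplicit false
set_option linter.all false

open scoped Classical

namespace Pool.Agent.N877.JX

open Finset Module
open Pool.Agent.N916.GB (pt ps sx eta)
open Pool.Agent.Y703.CQ (c2)
open Pool.Agent.N916.MO
open Pool.Agent.N916.PQ (Hy Gc Kr Gd2 Ty IsS)
open Pool.Agent.N809.JT (Mτ isS_mv G2 G2.mono link_mv sum_mv)

section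
variable {R C J : Type} [Fintype R] [Fintype C] [Fintype J] [LinearOrder J] {k1 : J}
  {M : R ⊕ J → C ⊕ J → ZMod 2} {X : R ⊕ J → ZMod 2} {Y : C ⊕ J → ZMod 2} {u : J → ZMod 2}

/-- the form after moving -/
noncomputable def Smv (k1 : J) (S : (C ⊕ J → ZMod 2) → (C ⊕ J → ZMod 2) → ZMod 2)
    (a b : Option C ⊕ Ix k1 → ZMod 2) : ZMod 2 :=
  S (fun c => a ((mve k1).symm c)) (fun c => b ((mve k1).symm c))

theorem mem_mv (σ : ps J → ZMod 2) (k0 : Ix k1) (x : C ⊕ J → ZMod 2) :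
    x ∈ Kr M (k0 : J) (sx σ) ↔
      (fun j => x (mve k1 j)) ∈ Kr (Mτ M (tau k1 σ)) k0 (sx (res k1 σ)) :=
  and_congr Iff.rfl (isS_mv σ x)

theorem symm_mv (y : Option C ⊕ Ix k1 → ZMod 2) :
    (fun j => (fun c => y ((mve k1).symm c)) (mve k1 j)) = y := by
  funext j
  show y ((mve k1).symm (mve k1 j)) = y j
  rw [Equiv.symm_apply_apply]

theorem symm_mv' (x : C ⊕ J → ZMod 2) :
    (fun c => (fun j => x (mve k1 j)) ((mve k1).symm c)) = x := by
  funext c
  show x (mve k1 ((mve k1).symm c)) = x c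
  rw [Equiv.apply_symm_apply]

theorem Gd2_mv (S : (C ⊕ J → ZMod 2) → (C ⊕ J → ZMod 2) → ZMod 2) (σ : ps J → ZMod 2)
    (k0 : Ix k1) : Gd2 M (k0 : J) S (sx σ) ↔
      Gd2 (Mτ M (tau k1 σ)) k0 (Smv k1 S) (sx (res k1 σ)) := by
  have hf : finrank (ZMod 2) (Kr (Mτ M (tau k1 σ)) k0 (sx (res k1 σ))) =
      finrank (ZMod 2) (Kr M (k0 : J) (sx σ)) := by
    set e : (C ⊕ J → ZMod 2) ≃ₗ[ZMod 2] (Option C ⊕ Ix k1 → ZMod 2) :=
      LinearEquiv.funCongrLeft (ZMod 2) (ZMod 2) (mve k1) with he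
    have h1 : (Kr M (k0 : J) (sx σ)).map e.toLinearMap =
        Kr (Mτ M (tau k1 σ)) k0 (sx (res k1 σ)) := by
      ext y
      constructor
      · rintro ⟨x, hx, rfl⟩
        exact (mem_mv σ k0 x).1 hx
      · intro hy
        refine ⟨fun c => y ((mve k1).symm c), ?_, symm_mv y⟩
        refine (mem_mv σ k0 _).2 ?_
        rw [symm_mv]
        exact hy
    rw [← h1]
    exact LinearEquiv.finrank_map_eq e _
  unfold Pool.Agent.N916.PQ.Gd2
  rw [hf]
  refine and_congr Iff.rfl ⟨fun h a ha hb => ?_, fun h a ha hb => ?_⟩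
  · have h1 : (fun c => a ((mve k1).symm c)) ∈ Kr M (k0 : J) (sx σ) := by
      rw [mem_mv, symm_mv]
      exact ha
    have h2 := h _ h1 fun b hb' => by
      have := hb (fun j => b (mve k1 j)) ((mem_mv σ k0 b).1 hb')
      unfold Smv at this
      rw [symm_mv'] at this
      exact this
    funext j
    have := congrFun h2 (mve k1 j)
    rw [Equiv.symm_apply_apply] at this
    exact this
  · have h2 := h (fun j => a (mve k1 j)) ((mem_mv σ k0 a).1 ha) fun b hb' => by
      unfold Smv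
      rw [symm_mv']
      refine hb _ ?_
      rw [mem_mv, symm_mv]
      exact hb'
    funext c
    have := congrFun h2 ((mve k1).symm c)
    rw [Equiv.apply_symm_apply] at this
    exact this

theorem Ty_mv {S : (C ⊕ J → ZMod 2) → (C ⊕ J → ZMod 2) → ZMod 2} {d : J → ZMod 2} {n : ℕ}
    (h : Ty S d n) : Ty (Smv k1 S) (fun k : Ix k1 => d k) (n + 1) := by
  obtain ⟨I, _, ℓ, g, hI, hS⟩ := h
  refine ⟨Option I, inferInstance, fun i a => match i with
    | none => d k1 * a (Sum.inl none)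
    | some i => ℓ i (fun c => a ((mve k1).symm c)), fun i q => match i with
    | none => if q = Sum.inl none then 1 else 0
    | some i => g i (mve k1 q), ?_, fun a b => ?_⟩
  · rw [Fintype.card_option]
    omega
  · unfold Smv
    rw [hS, Fintype.sum_option]
    have e1 : ∑ m : J, d m * ((fun c => a ((mve k1).symm c)) (Sum.inr m) *
        (fun c => b ((mve k1).symm c)) (Sum.inr m)) = d k1 * (a (Sum.inl none) * b (Sum.inl none)) +
        ∑ m : Ix k1, d m * (a (Sum.inr m) * b (Sum.inr m)) := by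
      have e2 : ∀ f : Option C ⊕ Ix k1 → ZMod 2, f ((mve k1).symm (Sum.inr k1)) =
          f (Sum.inl none) := by
        intro f
        congr 1
        rw [Equiv.symm_apply_eq]
        rfl
      have e3 : ∀ (f : Option C ⊕ Ix k1 → ZMod 2) (m : Ix k1),
          f ((mve k1).symm (Sum.inr (m : J))) = f (Sum.inr m) := by
        intro f m
        congr 1
        rw [Equiv.symm_apply_eq]
        rfl
      rw [Fintype.sum_eq_add_sum_subtype_ne (fun m => d m * ((fun c => a ((mve k1).symm c))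
        (Sum.inr m) * (fun c => b ((mve k1).symm c)) (Sum.inr m))) k1]
      congr 1
      · show d k1 * (a ((mve k1).symm (Sum.inr k1)) * b ((mve k1).symm (Sum.inr k1))) = _
        rw [e2 a, e2 b]
      · refine sum_congr rfl fun m _ => ?_
        show d m * (a ((mve k1).symm (Sum.inr (m : J))) * b ((mve k1).symm (Sum.inr (m : J)))) = _
        rw [e3 a, e3 b]
    have e4 : ∀ i, ∑ q, g i q * (fun c => b ((mve k1).symm c)) q =
        ∑ q, g i (mve k1 q) * b q := by
      intro i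
      rw [← sum_mv (k1 := k1) (fun q => g i q * (fun c => b ((mve k1).symm c)) q)]
      refine sum_congr rfl fun q _ => ?_
      show g i (mve k1 q) * b ((mve k1).symm (mve k1 q)) = _
      rw [Equiv.symm_apply_apply]
    have e5 : ∑ q : Option C ⊕ Ix k1, (if q = Sum.inl none then (1 : ZMod 2) else 0) * b q =
        b (Sum.inl none) := by
      simp only [ite_mul, one_mul, zero_mul]
      rw [sum_ite_eq' univ (Sum.inl none : Option C ⊕ Ix k1), if_pos (mem_univ _)]
    rw [e1]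
    simp only [e4]
    rw [e5]
    ring

end

/-- the estimate for the data of a form -/
theorem estE (ε : ℝ) (hε : 0 < ε) : ∃ V₀ : ℕ, ∀ (R C J : Type) [Fintype R] [Fintype C]
    [Fintype J] [LinearOrder J] (M : R ⊕ J → C ⊕ J → ZMod 2) (X : R ⊕ J → ZMod 2)
    (Y : C ⊕ J → ZMod 2) (ν u : J → ZMod 2) (m : J → J → ZMod 2) (P : (ps J → ZMod 2) → Prop)
    (S : (C ⊕ J → ZMod 2) → (C ⊕ J → ZMod 2) → ZMod 2) (d : J → ZMod 2)
    (n : ℕ), Hy M X Y u → Fintype.card C = Fintype.card R + 2 → Fintype.card C ≤ n → G2 n ν u m P →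
    (∀ k l, m k l = M (Sum.inr l) (Sum.inr k)) →
    (∀ a b c, S a (b + c) = S a b + S a c) → (∀ a b, S a b = S b a) → (∀ a, S a a = 0) →
    Ty S d n →
    (∀ (σ : ps J → ZMod 2) (k k' : J), Gd2 M k S (sx σ) ↔ Gd2 M k' S (sx σ)) →
    V₀ * (n + 1) ≤ (univ.filter fun k : J => d k = 1).card →
    V₀ * (n + 1) ≤ (univ.filter fun k : J => d k + u k = 1).card →
    V₀ * (n + 1) ≤ (univ.filter fun k : J => ν k = 1).card →
    V₀ * (n + 1) ≤ (univ.filter fun k : J => u k = 1).card →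
    V₀ * (n + 1) ≤ (univ.filter fun k : J => ν k ≠ u k).card → ∀ k0 : J,
    |((univ.filter fun σ : ps J → ZMod 2 => Gd2 M k0 S (sx σ) ∧ P σ).card : ℝ) /
      2 ^ (ps J).card - 4 / 3 * eta * c2| ≤ ε := by
  obtain ⟨V₀, hV⟩ := Pool.Agent.N963.JT.jmainE ε hε
  refine ⟨V₀, ?_⟩
  intro R C J _ _ _ _ M X Y ν u m P S d n hH hCR hR hG hm s1 s2 s3 ty hk q1 q2 r1 r2 r3 k0'
  obtain ⟨U, CC, CC', _, _, _, k0, J₀, B, F, G, Φ, Ψ, Θ, g1, g2, g3, g4, g5, g6, g7, g8, g9, g10,
    g11⟩ := hG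
  have h1 : Fintype.card (E2 U) ≤ 4 ^ n := by
    have h1 : Fintype.card (E2 U) = 4 ^ Fintype.card U := by
      rw [Fintype.card_prod, Fintype.card_fun, ZMod.card, ← mul_pow]
      norm_num
    rw [h1]
    exact Nat.pow_le_pow_right (by norm_num) g1
  have h := hV R C J (E2 U) CC CC' M X Y u k0 J₀ n B ν u (fun k l => m k l) F G Φ Ψ Θ S d n hH hCR
    hR h1 ev_E2 g2 g3 g5 ⟨g6, g7, g8, g9⟩ g10 (fun k l => hm _ _) s1 s2 s3 ty le_rfl q1 q2 r2 r1 r2 r3
  have e : (univ.filter fun σ : ps J → ZMod 2 => Gd2 M k0' S (sx σ) ∧ P σ) =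
      univ.filter fun σ : ps J → ZMod 2 => Gd2 M k0 S (sx σ) ∧ Nde B (Sg k0 σ) :=
    filter_congr fun σ _ => and_congr (hk σ k0' k0) (g11 σ)
  rw [e]
  exact h

end Pool.Agent.N877.JX
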